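import Pool.Agent.H499.CD.Stm

set_option autoImplicit false

namespace Pool.Agent.H703.CD

open Matrix

/-- an isomorphism of matrix algebras preserves the trace -/
lemma trace_algEquiv {k : Type} [Field k] {m n : ℕ}
    (e : Matrix (Fin m) (Fin m) k ≃ₐ[k] Matrix (Fin n) (Fin n) k) (M : Matrix (Fin m) (Fin m) k) :
    (e M).trace = M.trace := by
  let f : Module.End k (Fin m → k) ≃ₐ[k] Module.End k (Fin n → k) :=
    (Matrix.toLinAlgEquiv' (R := k) (n := Fin m)).symm.trans
      (e.trans (Matrix.toLinAlgEquiv' (R := k) (n := Fin n)))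
  obtain ⟨T, hT⟩ := AlgEquiv.eq_linearEquivConjAlgEquiv f
  have h1 : f (Matrix.toLin' M) = Matrix.toLin' (e M) := by
    show Matrix.toLinAlgEquiv' (e (Matrix.toLinAlgEquiv'.symm (Matrix.toLinAlgEquiv' M))) = _
    rw [AlgEquiv.symm_apply_apply]
    rfl
  have h2 : f (Matrix.toLin' M) = T.conj (Matrix.toLin' M) := by
    rw [hT]
    rfl
  have h3 := LinearMap.trace_conj' (Matrix.toLin' M) T
  rw [← h2, h1] at h3
  rw [Matrix.trace_toLin'_eq, Matrix.trace_toLin'_eq] at h3
  exact h3

lemma exists_unit_sum {k : Type} [Field k] {n : ℕ} (M : Matrix (Fin n) (Fin n) k) (hM : M ≠ 0) :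
    ∃ a b : Fin n → Matrix (Fin n) (Fin n) k, ∑ r, a r * M * b r = 1 := by
  obtain ⟨p, q, hpq⟩ : ∃ p q, M p q ≠ 0 := by
    by_contra h
    push Not at h
    exact hM (Matrix.ext h)
  refine ⟨fun r => Matrix.single r p (M p q)⁻¹, fun r => Matrix.single q r 1, ?_⟩
  have : ∀ r : Fin n, Matrix.single r p (M p q)⁻¹ * M * Matrix.single q r 1 = Matrix.single r r 1 := by
    intro r
    rw [Matrix.single_mul_mul_single, inv_mul_cancel₀ hpq, one_mul]
  simp_rw [this]
  exact Matrix.sum_single_one

theorem burn : Pool.Agent.H499.CD.S_BURN := by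
  intro k G I _ _ _ _ d ρ hd hs ht
  let f : G →* (∀ i, Matrix (Fin (d i)) (Fin (d i)) k) := MonoidHom.pi ρ
  let B : Subalgebra k (∀ i, Matrix (Fin (d i)) (Fin (d i)) k) := Algebra.adjoin k (Set.range f)
  have hB : Subalgebra.toSubmodule B = Submodule.span k (Set.range f) := by
    show Subalgebra.toSubmodule (Algebra.adjoin k (Set.range f)) = _
    rw [Algebra.adjoin_eq_span]
    have : (Submonoid.closure (Set.range f) : Set _) = Set.range f := by
      have h := Submonoid.closure_eq (MonoidHom.mrange f)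
      rw [MonoidHom.coe_mrange] at h
      rw [h, MonoidHom.coe_mrange]
    rw [this]
  have hfB : ∀ g, f g ∈ B := fun g => Algebra.subset_adjoin ⟨g, rfl⟩
  -- surjectivity of the projections
  have hsurj : ∀ i (y : Matrix (Fin (d i)) (Fin (d i)) k), ∃ x ∈ B, x i = y := by
    intro i y
    have hy : y ∈ Submodule.span k (Set.range (ρ i)) := by rw [hs i]; trivial
    have hr : Set.range (ρ i) = (LinearMap.proj (R := k) (φ := fun i => Matrix (Fin (d i)) (Fin (d i)) k) i) '' Set.range f := by
      rw [← Set.range_comp]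
      rfl
    rw [hr, ← Submodule.map_span, ← hB] at hy
    obtain ⟨x, hx, hxy⟩ := hy
    exact ⟨x, hx, hxy⟩
  -- separation of two indices
  have hsep : ∀ i j, i ≠ j → ∃ x ∈ B, x i = 1 ∧ x j = 0 := by
    intro i j hij
    by_cases hker : ∃ x ∈ B, x j = 0 ∧ x i ≠ 0
    · obtain ⟨x, hx, hxj, hxi⟩ := hker
      obtain ⟨a, b, hab⟩ := exists_unit_sum (x i) hxi
      choose α hα hα' using fun r => hsurj i (a r)
      choose β hβ hβ' using fun r => hsurj i (b r)
      refine ⟨∑ r, α r * x * β r, B.sum_mem fun r _ => B.mul_mem (B.mul_mem (hα r) hx) (hβ r), ?_, ?_⟩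
      · rw [Finset.sum_apply, ← hab]
        refine Finset.sum_congr rfl fun r _ => ?_
        rw [Pi.mul_apply, Pi.mul_apply, hα', hβ']
      · rw [Finset.sum_apply]
        refine Finset.sum_eq_zero fun r _ => ?_
        rw [Pi.mul_apply, Pi.mul_apply, hxj, mul_zero, zero_mul]
    · exfalso
      push Not at hker
      -- the isomorphism
      choose σ hσ hσ' using fun y => hsurj j y
      have key : ∀ x ∈ B, ∀ y ∈ B, x j = y j → x i = y i := by
        intro x hx y hy hxy
        have := hker (x - y) (B.sub_mem hx hy) (by rw [Pi.sub_apply, hxy, sub_self])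
        rw [Pi.sub_apply, sub_eq_zero] at this
        exact this
      let ψ : Matrix (Fin (d j)) (Fin (d j)) k →ₐ[k] Matrix (Fin (d i)) (Fin (d i)) k :=
        { toFun := fun y => σ y i
          map_one' := key _ (hσ 1) 1 B.one_mem (by rw [hσ']; rfl)
          map_mul' := fun y z => key _ (hσ (y * z)) (σ y * σ z) (B.mul_mem (hσ y) (hσ z))
            (by rw [hσ', Pi.mul_apply, hσ', hσ'])
          map_zero' := key _ (hσ 0) 0 B.zero_mem (by rw [hσ']; rfl)
          map_add' := fun y z => key _ (hσ (y + z)) (σ y + σ z) (B.add_mem (hσ y) (hσ z))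
            (by rw [hσ', Pi.add_apply, hσ', hσ'])
          commutes' := fun c => key _ (hσ _) (algebraMap k _ c) (B.algebraMap_mem c)
            (by rw [hσ']; rfl) }
      have hψ : ∀ x ∈ B, ψ (x j) = x i := fun x hx => key _ (hσ _) x hx (hσ' _)
      have : Nonempty (Fin (d j)) := ⟨⟨0, hd j⟩⟩
      have : Nonempty (Fin (d i)) := ⟨⟨0, hd i⟩⟩
      have hinj : Function.Injective ψ := ψ.toRingHom.injective
      have hsu : Function.Surjective ψ := by
        intro y
        obtain ⟨x, hx, hxy⟩ := hsurj i y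
        exact ⟨x j, by rw [hψ x hx, hxy]⟩
      let e := AlgEquiv.ofBijective ψ ⟨hinj, hsu⟩
      obtain ⟨g, hg⟩ := ht i j hij
      refine hg ?_
      have h1 := trace_algEquiv e (ρ j g)
      have h2 : e (ρ j g) = ρ i g := hψ (f g) (hfB g)
      rw [h2] at h1
      exact h1
  -- the idempotents
  have hidem : ∀ i (s : Finset I), i ∉ s → ∃ x ∈ B, x i = 1 ∧ ∀ j ∈ s, x j = 0 := by
    intro i s
    induction s using Finset.induction_on with
    | empty => exact fun _ => ⟨1, B.one_mem, rfl, fun j hj => absurd hj (Finset.notMem_empty j)⟩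
    | insert a s ha ih =>
      intro hi
      rw [Finset.mem_insert, not_or] at hi
      obtain ⟨x, hx, hx1, hx0⟩ := ih hi.2
      obtain ⟨y, hy, hy1, hy0⟩ := hsep i a hi.1
      refine ⟨x * y, B.mul_mem hx hy, by rw [Pi.mul_apply, hx1, hy1, one_mul], fun j hj => ?_⟩
      rw [Finset.mem_insert] at hj
      rcases hj with rfl | hj
      · rw [Pi.mul_apply, hy0, mul_zero]
      · rw [Pi.mul_apply, hx0 j hj, zero_mul]
  rw [Submodule.eq_top_iff']
  intro y
  show y ∈ Submodule.span k (Set.range f)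
  rw [← hB]
  choose b hb hb' using fun i => hsurj i (y i)
  choose c hc hc1 hc0 using fun i => hidem i (Finset.univ.erase i) (Finset.notMem_erase i _)
  have hy : y = ∑ i, c i * b i := by
    funext j
    rw [Finset.sum_apply, Finset.sum_eq_single j]
    · rw [Pi.mul_apply, hc1, hb', one_mul]
    · intro i _ hij
      rw [Pi.mul_apply, hc0 i j (Finset.mem_erase.2 ⟨hij.symm, Finset.mem_univ j⟩), zero_mul]
    · exact fun h => absurd (Finset.mem_univ j) h
  rw [hy]
  exact B.sum_mem fun i _ => B.mul_mem (hc i) (hb i)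

end Pool.Agent.H703.CD
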