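import Pool.Agent.H499.CD.Stm

/-!
# Job CHEB: from Frobenius traces to all traces (helper921 for helper499)
-/

set_option autoImplicit false

namespace Pool.Agent.H921.CD

open Matrix IsLocalRing Pool.Agent.H499.CD

theorem trace_close {O G X : Type} [CommRing O] [Group G] [Fintype X] [DecidableEq X]
    (r : G →* Matrix X X O) (J : Ideal O) {u g : G} (h : ∀ x y, (r u - 1) x y ∈ J) :
    (r (u * g)).trace - (r g).trace ∈ J := by
  have e : r (u * g) - r g = (r u - 1) * r g := by rw [map_mul, sub_mul, one_mul]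
  rw [← Matrix.trace_sub, e]
  unfold Matrix.trace
  refine Ideal.sum_mem _ fun x _ => ?_
  rw [Matrix.diag_apply, Matrix.mul_apply]
  exact Ideal.sum_mem _ fun y _ => Ideal.mul_mem_right _ _ (h x y)

theorem exists_close {O G K I X : Type} [CommRing O] [IsLocalRing O] [Group G]
    [TopologicalSpace G] [IsTopologicalGroup G] [Fintype K] [Fintype I] [Fintype X] [DecidableEq X]
    (d : I → ℕ) (ρ : ∀ i, G →* Matrix (Fin (d i)) (Fin (d i)) O) (r : K → G →* Matrix X X O)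
    (Fr : Set G) (hF : Dense Fr)
    (h1 : ∀ κ m, IsOpen {g | ∀ x y, (r κ g - 1) x y ∈ maximalIdeal O ^ m})
    (h2 : ∀ i m, IsOpen {g | ∀ x y, (ρ i g - 1) x y ∈ maximalIdeal O ^ m}) (g : G) (m : ℕ) :
    ∃ σ ∈ Fr, (∀ κ, (r κ σ⁻¹).trace - (r κ g).trace ∈ maximalIdeal O ^ m) ∧
      ∀ i, (ρ i σ⁻¹).trace - (ρ i g).trace ∈ maximalIdeal O ^ m := by
  obtain ⟨U, hUd⟩ : ∃ U : Set G, U = (⋂ κ, {g | ∀ x y, (r κ g - 1) x y ∈ maximalIdeal O ^ m}) ∩
      ⋂ i, {g | ∀ x y, (ρ i g - 1) x y ∈ maximalIdeal O ^ m} := ⟨_, rfl⟩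
  have hU : IsOpen U := by
    rw [hUd]
    exact (isOpen_iInter_of_finite fun κ => h1 κ m).inter (isOpen_iInter_of_finite fun i => h2 i m)
  have hU1 : (1 : G) ∈ U := by
    rw [hUd]
    refine ⟨Set.mem_iInter.2 fun κ x y => ?_, Set.mem_iInter.2 fun i x y => ?_⟩
    · rw [map_one, sub_self]
      exact Ideal.zero_mem _
    · rw [map_one, sub_self]
      exact Ideal.zero_mem _
  have hc : Continuous fun σ : G => σ⁻¹ * g⁻¹ := continuous_inv.mul continuous_const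
  have hne : ((fun σ : G => σ⁻¹ * g⁻¹) ⁻¹' U).Nonempty := by
    refine ⟨g⁻¹, ?_⟩
    show (g⁻¹)⁻¹ * g⁻¹ ∈ U
    rw [inv_inv, mul_inv_cancel]
    exact hU1
  obtain ⟨σ, hσU, hσ⟩ := hF.inter_open_nonempty _ (hU.preimage hc) hne
  have hσU' : σ⁻¹ * g⁻¹ ∈ U := hσU
  rw [hUd] at hσU'
  have e : σ⁻¹ = σ⁻¹ * g⁻¹ * g := by rw [inv_mul_cancel_right]
  refine ⟨σ, hσ, fun κ => ?_, fun i => ?_⟩
  · rw [e]
    exact trace_close (r κ) _ (Set.mem_iInter.1 hσU'.1 κ)
  · rw [e]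
    exact trace_close (ρ i) _ (Set.mem_iInter.1 hσU'.2 i)

theorem mem_smul_top {O K : Type} [CommRing O] [Fintype K] (J : Ideal O) (x : K → O)
    (h : ∀ κ, x κ ∈ J) : x ∈ J • (⊤ : Submodule O (K → O)) := by
  classical
  have e : x = ∑ κ, x κ • (Pi.single κ 1 : K → O) := by
    funext y
    rw [Finset.sum_apply, Finset.sum_eq_single y]
    · simp
    · intro b _ hb
      simp [Ne.symm hb]
    · intro hy
      exact absurd (Finset.mem_univ _) hy
  rw [e]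
  exact Submodule.sum_mem _ fun κ _ => Submodule.smul_mem_smul (h κ) Submodule.mem_top

theorem phi_zero {O K : Type} [CommRing O] [IsLocalRing O] (n : ℕ) (T : Subalgebra O (K → O))
    (φ : T →ₐ[O] Rn O n) (x : K → O)
    (hx : x ∈ (maximalIdeal O ^ n) • (Subalgebra.toSubmodule T)) : ∃ h : x ∈ T, φ ⟨x, h⟩ = 0 := by
  refine Submodule.smul_induction_on (p := fun x => ∃ h : x ∈ T, φ ⟨x, h⟩ = 0) hx ?_ ?_
  · intro a ha t ht
    have ht' : t ∈ T := ht
    refine ⟨T.smul_mem ht' a, ?_⟩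
    have e : (⟨a • t, T.smul_mem ht' a⟩ : T) = a • (⟨t, ht'⟩ : T) := rfl
    rw [e, map_smul, Algebra.smul_def]
    have h0 : algebraMap O (Rn O n) a = 0 := by
      have h1 : algebraMap O (Rn O n) a = Ideal.Quotient.mk (maximalIdeal O ^ n) a := rfl
      rw [h1, Ideal.Quotient.eq_zero_iff_mem]
      exact ha
    rw [h0, zero_mul]
  · rintro a b ⟨ha, ha'⟩ ⟨hb, hb'⟩
    refine ⟨T.add_mem ha hb, ?_⟩
    have e : (⟨a + b, T.add_mem ha hb⟩ : T) = ⟨a, ha⟩ + ⟨b, hb⟩ := rfl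
    rw [e, map_add, ha', hb', add_zero]

theorem t_CHEB : S_CHEB := by
  intro O G K I X _ _ _ _ _ _ _ _ _ _ n d ρ r Fr hF h1 h2 T φ hT g
  obtain ⟨tg, htg⟩ : ∃ tg : K → O, tg = fun κ => (r κ g).trace := ⟨_, rfl⟩
  have hclose : ∀ m, ∃ t : K → O, ∃ a : O, (∃ h : t ∈ T, φ ⟨t, h⟩ = Ideal.Quotient.mk _ a) ∧
      tg - t ∈ (maximalIdeal O ^ m) • (⊤ : Submodule O (K → O)) ∧
      (∑ i, (ρ i g).trace) - a ∈ maximalIdeal O ^ m := by
    intro m
    obtain ⟨σ, hσ, h3, h4⟩ := exists_close d ρ r Fr hF h1 h2 g m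
    refine ⟨fun κ => (r κ σ⁻¹).trace, ∑ i, (ρ i σ⁻¹).trace, hT σ hσ, ?_, ?_⟩
    · apply mem_smul_top
      intro κ
      rw [Pi.sub_apply, htg, ← neg_sub]
      exact Ideal.neg_mem_iff _ |>.2 (h3 κ)
    · rw [← Finset.sum_sub_distrib]
      refine Ideal.sum_mem _ fun i _ => ?_
      rw [← neg_sub]
      exact Ideal.neg_mem_iff _ |>.2 (h4 i)
  -- the trace is in `T`
  have hmem : tg ∈ T := by
    have hk := Ideal.iInf_pow_smul_eq_bot_of_isLocalRing
      (M := (K → O) ⧸ Subalgebra.toSubmodule T) (maximalIdeal O) (Ideal.IsPrime.ne_top')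
    have h3 : (Subalgebra.toSubmodule T).mkQ tg ∈
        (⨅ i : ℕ, maximalIdeal O ^ i • (⊤ : Submodule O ((K → O) ⧸ Subalgebra.toSubmodule T))) := by
      rw [Submodule.mem_iInf]
      intro m
      obtain ⟨t, a, ⟨ht, -⟩, h4, -⟩ := hclose m
      have h5 : (Subalgebra.toSubmodule T).mkQ tg = (Subalgebra.toSubmodule T).mkQ (tg - t) := by
        rw [map_sub]
        have h6 : (Subalgebra.toSubmodule T).mkQ t = 0 := by
          rw [Submodule.mkQ_apply, Submodule.Quotient.mk_eq_zero]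
          exact ht
        rw [h6, sub_zero]
      rw [h5]
      have h7 := Submodule.mem_map_of_mem (f := (Subalgebra.toSubmodule T).mkQ) h4
      rw [Submodule.map_smul''] at h7
      exact Submodule.smul_mono le_rfl le_top h7
    rw [hk, Submodule.mem_bot, Submodule.mkQ_apply, Submodule.Quotient.mk_eq_zero] at h3
    exact h3
  rw [← htg]
  refine ⟨hmem, ?_⟩
  obtain ⟨k, hk⟩ := Ideal.exists_pow_inf_eq_pow_smul (M := K → O) (maximalIdeal O)
    (Subalgebra.toSubmodule T)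
  obtain ⟨t, a, ⟨ht, hta⟩, h4, h5⟩ := hclose (n + k)
  have h6 : tg - t ∈ (maximalIdeal O ^ n) • (Subalgebra.toSubmodule T) := by
    have h7 : tg - t ∈ maximalIdeal O ^ (n + k) • (⊤ : Submodule O (K → O)) ⊓
        Subalgebra.toSubmodule T := ⟨h4, T.sub_mem hmem ht⟩
    rw [hk (n + k) (Nat.le_add_left k n), Nat.add_sub_cancel] at h7
    exact Submodule.smul_mono le_rfl inf_le_right h7
  obtain ⟨h8, h9⟩ := phi_zero n T φ _ h6
  have h10 : (⟨tg, hmem⟩ : T) = ⟨tg - t, h8⟩ + ⟨t, ht⟩ := by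
    apply Subtype.ext
    show tg = tg - t + t
    rw [sub_add_cancel]
  rw [h10, map_add, h9, zero_add, hta, ← sub_eq_zero, ← map_sub, Ideal.Quotient.eq_zero_iff_mem,
    ← neg_sub]
  exact Ideal.neg_mem_iff _ |>.2 (Ideal.pow_le_pow_right (Nat.le_add_right n k) h5)

end Pool.Agent.H921.CD
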