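import Pool.Agent.H499.CD.Stm

/-!
# Project CD (helper499), jobs RED and CYC
-/

set_option autoImplicit false

namespace Pool.Agent.H996.CD

open Matrix IsLocalRing Pool.Agent.H499.CD

/-- **RED.** -/
theorem red_proof : S_RED := by
  classical
  intro O K _ _ _ n T φ hn
  obtain ⟨s, hs⟩ : ∃ s : Finset K, ∀ κ, κ ∈ s ↔
      ∀ t : T, φ t = 0 → (t : K → O) κ ∈ maximalIdeal O :=
    ⟨Finset.univ.filter fun κ => ∀ t : T, φ t = 0 → (t : K → O) κ ∈ maximalIdeal O,
      fun κ => by rw [Finset.mem_filter]; exact ⟨fun h => h.2, fun h => ⟨Finset.mem_univ _, h⟩⟩⟩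
  have hu : ∀ κ : K, ∃ u : T, IsUnit (φ u) ∧ (κ ∉ s → (u : K → O) κ = 0) := by
    intro κ
    by_cases hκ : κ ∈ s
    · exact ⟨1, by rw [map_one]; exact isUnit_one, fun h => absurd hκ h⟩
    · have h1 := hκ
      rw [hs] at h1
      push Not at h1
      obtain ⟨t, ht, ht'⟩ := h1
      have h2 : IsUnit ((t : K → O) κ) := by
        by_contra h3
        exact ht' ((mem_maximalIdeal _).2 h3)
      refine ⟨t - algebraMap O T ((t : K → O) κ), ?_, fun _ => ?_⟩
      · rw [map_sub, ht, zero_sub, AlgHom.commutes]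
        exact (h2.map (algebraMap O (Rn O n))).neg
      · change (t : K → O) κ - (t : K → O) κ = 0
        exact sub_self _
  choose u hu1 hu2 using hu
  obtain ⟨U, hU⟩ : ∃ U : T, U = ∏ κ, u κ := ⟨_, rfl⟩
  have hUu : IsUnit (φ U) := by
    rw [hU, map_prod, IsUnit.prod_univ_iff]
    exact hu1
  have hU0 : ∀ κ, κ ∉ s → (U : K → O) κ = 0 := by
    intro κ hκ
    have h1 : (U : K → O) = (u κ : K → O) * ((∏ κ' ∈ Finset.univ.erase κ, u κ' : T) : K → O) := by
      rw [hU, ← Finset.mul_prod_erase _ _ (Finset.mem_univ κ)]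
      rfl
    rw [h1, Pi.mul_apply, hu2 κ hκ, zero_mul]
  have hker : ∀ t : T, (∀ κ ∈ s, (t : K → O) κ = 0) → φ t = 0 := by
    intro t ht
    have h1 : t * U = 0 := by
      apply Subtype.ext
      funext κ
      change (t : K → O) κ * (U : K → O) κ = 0
      by_cases hκ : κ ∈ s
      · rw [ht κ hκ, zero_mul]
      · rw [hU0 κ hκ, mul_zero]
    have h2 : φ t * φ U = 0 := by rw [← map_mul, h1, map_zero]
    exact (hUu.mul_left_eq_zero).1 h2
  obtain ⟨rs, hrs⟩ : ∃ rs : (K → O) →ₐ[O] (s → O), ∀ f κ, rs f κ = f κ :=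
    ⟨AlgHom.pi (fun κ : s => Pi.evalAlgHom O (fun _ : K => O) (κ : K)),
      fun _ _ => rfl⟩
  obtain ⟨T', hT'⟩ : ∃ T' : Subalgebra O (s → O), T' = (rs.comp T.val).range := ⟨_, rfl⟩
  subst hT'
  have hφ : RingHom.ker ((rs.comp T.val).rangeRestrict).toRingHom ≤ RingHom.ker φ.toRingHom := by
    intro t ht
    have h1 : (rs.comp T.val).rangeRestrict t = 0 := ht
    have h2 : rs (t : K → O) = 0 := congrArg Subtype.val h1
    refine hker t fun κ hκ => ?_
    have h3 := congrFun h2 ⟨κ, hκ⟩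
    rw [hrs] at h3
    exact h3
  obtain ⟨φ', hφ'⟩ : ∃ φ' : (rs.comp T.val).range →ₐ[O] Rn O n, ∀ t : T,
      φ' ((rs.comp T.val).rangeRestrict t) = φ t :=
    ⟨AlgHom.liftOfSurjective (rs.comp T.val).rangeRestrict
      (rs.comp T.val).rangeRestrict_surjective φ hφ,
      fun t => AlgHom.liftOfSurjective_apply _ _ _ _ _⟩
  refine ⟨s, (rs.comp T.val).range, φ', ?_, fun t => ?_, ?_⟩
  · rw [Finset.nonempty_iff_ne_empty]
    intro hs0
    have h1 : U = 0 := by
      apply Subtype.ext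
      funext κ
      exact hU0 κ (by rw [hs0]; exact Finset.notMem_empty _)
    rw [h1, map_zero, isUnit_zero_iff] at hUu
    have h2 : maximalIdeal O ^ n = ⊤ := by
      rw [Ideal.eq_top_iff_one, ← Ideal.Quotient.eq_zero_iff_mem, map_one]
      exact hUu.symm
    have h3 : maximalIdeal O ^ n ≤ maximalIdeal O := Ideal.pow_le_self hn
    rw [h2, top_le_iff] at h3
    exact (maximalIdeal.isMaximal O).ne_top h3
  · have h1 : (fun κ : s => (t : K → O) κ) = ((rs.comp T.val).rangeRestrict t : s → O) := by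
      funext κ
      exact (hrs _ _).symm
    have h2 : (fun κ : s => (t : K → O) κ) ∈ (rs.comp T.val).range := by
      rw [h1]
      exact ((rs.comp T.val).rangeRestrict t).2
    refine ⟨h2, ?_⟩
    rw [← hφ' t]
    exact congrArg φ' (Subtype.ext h1)
  · intro t' ht' κ
    obtain ⟨t, rfl⟩ := (rs.comp T.val).rangeRestrict_surjective t'
    rw [hφ'] at ht'
    have h1 := (hs κ).1 κ.2 t ht'
    have h2 : (((rs.comp T.val).rangeRestrict t : (rs.comp T.val).range) : s → O) κ =
      (t : K → O) κ := hrs _ _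
    rw [h2]
    exact h1

/-- **CYC.** -/
theorem cyc_proof : S_CYC := by
  intro O T ι _ _ _ _ _ x c n hx hn
  obtain ⟨I, hI⟩ : ∃ I : Ideal T, I = Ideal.span (Set.range fun i => x i - algebraMap O T (c i)) :=
    ⟨_, rfl⟩
  rw [← hI] at hn
  have hxi : ∀ i, Ideal.Quotient.mk I (x i) = algebraMap O (T ⧸ I) (c i) := by
    intro i
    have h1 : x i - algebraMap O T (c i) ∈ I := by
      rw [hI]
      exact Ideal.subset_span ⟨i, rfl⟩
    exact (Ideal.Quotient.mk_eq_mk_iff_sub_mem _ _).2 h1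
  have hf : Function.Surjective (Algebra.ofId O (T ⧸ I)) := by
    have h1 : (⊤ : Subalgebra O (T ⧸ I)) ≤ (Algebra.ofId O (T ⧸ I)).range := by
      have h2 : (⊤ : Subalgebra O (T ⧸ I)) = (⊤ : Subalgebra O T).map (Ideal.Quotient.mkₐ O I) := by
        rw [Algebra.map_top, eq_comm, AlgHom.range_eq_top]
        exact Ideal.Quotient.mk_surjective
      rw [h2, ← hx, AlgHom.map_adjoin, Algebra.adjoin_le_iff]
      rintro _ ⟨_, ⟨i, rfl⟩, rfl⟩
      exact ⟨c i, (hxi i).symm⟩
    intro y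
    exact h1 (Algebra.mem_top (x := y))
  obtain ⟨a, ha⟩ := (IsPrincipalIdealRing.principal
    (RingHom.ker (Algebra.ofId O (T ⧸ I)))).principal
  have ha' : RingHom.ker (Algebra.ofId O (T ⧸ I)) = Ideal.span {a} := ha
  have hlen : Module.length O (T ⧸ I) = Ring.ord O a := by
    have e := (Ideal.quotientKerAlgEquivOfSurjective hf).toLinearEquiv
    exact ((Submodule.quotEquivOfEq _ _ ha'.symm).trans e).length_eq.symm
  rw [hlen, Ring.ord_eq_addVal] at hn
  have ham : a ∈ maximalIdeal O ^ n := by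
    by_cases ha0 : a = 0
    · rw [ha0]
      exact Ideal.zero_mem _
    · obtain ⟨ϖ, hϖ⟩ := IsDiscreteValuationRing.exists_irreducible O
      obtain ⟨m, α, hm⟩ := IsDiscreteValuationRing.eq_unit_mul_pow_irreducible ha0 hϖ
      have h1 : IsDiscreteValuationRing.addVal O a = m := by
        rw [hm]
        exact IsDiscreteValuationRing.addVal_def' α hϖ m
      rw [h1] at hn
      have h2 : n ≤ m := by exact_mod_cast hn
      rw [hm]
      refine Ideal.mul_mem_left _ _ (Ideal.pow_le_pow_right h2 (Ideal.pow_mem_pow ?_ m))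
      rw [mem_maximalIdeal]
      exact hϖ.not_isUnit
  have hφ : RingHom.ker (Algebra.ofId O (T ⧸ I)).toRingHom ≤
      RingHom.ker (Ideal.Quotient.mkₐ O (maximalIdeal O ^ n)).toRingHom := by
    intro z hz
    have h1 : z ∈ Ideal.span {a} := by
      rw [← ha']
      exact hz
    have h2 : z ∈ maximalIdeal O ^ n := (Ideal.span_singleton_le_iff_mem _).2 ham h1
    exact Ideal.Quotient.eq_zero_iff_mem.2 h2
  refine ⟨(AlgHom.liftOfSurjective (Algebra.ofId O (T ⧸ I)) hf
    (Ideal.Quotient.mkₐ O (maximalIdeal O ^ n)) hφ).comp (Ideal.Quotient.mkₐ O I), fun i => ?_⟩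
  rw [AlgHom.comp_apply]
  have h1 : Ideal.Quotient.mkₐ O I (x i) = Algebra.ofId O (T ⧸ I) (c i) := hxi i
  rw [h1, AlgHom.liftOfSurjective_apply]
  rfl

end Pool.Agent.H996.CD
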