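import Pool.Agent.H499.CD.Stm

/-!
# EXT: the cocycles of a generalised matrix algebra
-/

set_option autoImplicit false

namespace Pool.Agent.H980.CD

open Matrix IsLocalRing Pool.Agent.H499.CD

section

variable {O K I : Type} [CommRing O] [IsLocalRing O]
  {n : ℕ} {T : Subalgebra O (K → O)} {φ : T →ₐ[O] Rn O n} {a : I → I → Submodule O (K → O)}

theorem wm_mul {i j : I} {h : a i j →ₗ[O] Rn O n} (hh : h ∈ Wm T φ a i j) (t : T) (y y' : a i j)
    (e : (y' : K → O) = (t : K → O) * (y : K → O)) : h y' = φ t * h y := by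
  obtain ⟨c, hc⟩ := Ideal.Quotient.mk_surjective (φ t)
  have h1 : φ (t - algebraMap O T c) = 0 := by
    rw [map_sub, AlgHom.commutes, ← hc]
    exact sub_self _
  have hh' : ∀ t : T, φ t = 0 → ∀ y y' : a i j, (y' : K → O) = (t : K → O) * (y : K → O) →
      h y' = 0 := hh.2
  have h2 := hh' (t - algebraMap O T c) h1 y (y' - c • y) (by
    rw [Submodule.coe_sub, Submodule.coe_smul, e, Subalgebra.coe_sub, sub_mul]
    congr 1)
  rw [map_sub, map_smul, sub_eq_zero] at h2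
  rw [h2, ← hc]
  rfl

end

theorem t_EXT : S_EXT := by
  intro O G K I _ _ _ _ _ _ n d ρ R T φ a hd hG hR i j hij
  have hji : j ≠ i := Ne.symm hij
  obtain ⟨coc, hcd⟩ : ∃ coc : Wm T φ a i j → G → Matrix (Fin (d i)) (Fin (d j)) (Rn O n),
      coc = fun (h : Wm T φ a i j) g p q =>
        h.1 ⟨R g ⟨i, p⟩ ⟨j, q⟩, hR.mem g ⟨i, p⟩ ⟨j, q⟩⟩ := ⟨_, rfl⟩
  have hcv : ∀ h g p q, coc h g p q =
      (h : a i j →ₗ[O] Rn O n) ⟨R g ⟨i, p⟩ ⟨j, q⟩, hR.mem g ⟨i, p⟩ ⟨j, q⟩⟩ := by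
    intro h g p q
    rw [hcd]
  have hT : ∀ (l : I) g (p q : Fin (d l)), R g ⟨l, p⟩ ⟨l, q⟩ ∈ T := fun l g p q =>
    (hG.diag l _).1 (hR.mem g ⟨l, p⟩ ⟨l, q⟩)
  have hcoc : ∀ h, coc h ∈ Coc n (ρ j) (ρ i) := by
    intro h g g'
    ext p q
    have hmem : ∀ x : (Σ l, Fin (d l)), R g ⟨i, p⟩ x * R g' x ⟨j, q⟩ ∈ a i j := fun x =>
      hG.mul i x.1 j _ _ (hR.mem g ⟨i, p⟩ x) (hR.mem g' x ⟨j, q⟩)
    have e1 : (⟨R (g * g') ⟨i, p⟩ ⟨j, q⟩, hR.mem (g * g') ⟨i, p⟩ ⟨j, q⟩⟩ : a i j) =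
        ∑ x, (⟨R g ⟨i, p⟩ x * R g' x ⟨j, q⟩, hmem x⟩ : a i j) := by
      apply Subtype.ext
      rw [Submodule.coe_sum]
      show R (g * g') ⟨i, p⟩ ⟨j, q⟩ = _
      rw [map_mul, Matrix.mul_apply]
    rw [hcv, e1, map_sum, Fintype.sum_sigma, Finset.sum_eq_add i j hij]
    · rw [Matrix.add_apply, Matrix.mul_apply, Matrix.mul_apply]
      congr 1
      · refine Finset.sum_congr rfl fun s _ => ?_
        rw [wm_mul h.2 ⟨R g ⟨i, p⟩ ⟨i, s⟩, hT i g p s⟩
          ⟨R g' ⟨i, s⟩ ⟨j, q⟩, hR.mem g' ⟨i, s⟩ ⟨j, q⟩⟩ _ rfl, hR.diag, hcv]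
        rfl
      · refine Finset.sum_congr rfl fun s _ => ?_
        rw [wm_mul h.2 ⟨R g' ⟨j, s⟩ ⟨j, q⟩, hT j g' s q⟩
          ⟨R g ⟨i, p⟩ ⟨j, s⟩, hR.mem g ⟨i, p⟩ ⟨j, s⟩⟩ _ (mul_comm _ _), hR.diag, hcv, mul_comm]
        rfl
    · intro l _ hl
      refine Finset.sum_eq_zero fun s _ => ?_
      have hh' : ∀ l, l ≠ i → l ≠ j → ∀ u ∈ a i l, ∀ v ∈ a l j, ∀ y : a i j,
        (y : K → O) = u * v → (h : a i j →ₗ[O] Rn O n) y = 0 := h.2.1
      exact hh' l hl.1 hl.2 _ (hR.mem g ⟨i, p⟩ ⟨l, s⟩) _ (hR.mem g' ⟨l, s⟩ ⟨j, q⟩) _ rfl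
    · intro h1
      exact absurd (Finset.mem_univ _) h1
    · intro h1
      exact absurd (Finset.mem_univ _) h1
  refine ⟨{ toFun := fun h => ⟨coc h, hcoc h⟩
            map_add' := ?_
            map_smul' := ?_ }, fun h g p q => hcv h g p q, ?_⟩
  · intro h h'
    apply Subtype.ext
    funext g
    ext p q
    show coc (h + h') g p q = coc h g p q + coc h' g p q
    rw [hcv, hcv, hcv]
    rfl
  · intro c h
    apply Subtype.ext
    funext g
    ext p q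
    show coc (c • h) g p q = c • coc h g p q
    rw [hcv, hcv]
    rfl
  · rintro h ⟨x, hx⟩
    have hx' : ∀ g, coc h g = red n (ρ i g) * x - x * red n (ρ j g) := hx
    apply Subtype.ext
    apply LinearMap.ext
    intro y
    show (h : a i j →ₗ[O] Rn O n) y = 0
    have p : Fin (d i) := ⟨0, hd i⟩
    have q : Fin (d j) := ⟨0, hd j⟩
    obtain ⟨c, hc⟩ := hR.span ⟨i, p⟩ ⟨j, q⟩ (y : K → O) y.2
    have hent : ∀ u v, ∑ g ∈ c.support, (c g : K → O) * R g u v =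
        Matrix.single (⟨i, p⟩ : Σ l, Fin (d l)) (⟨j, q⟩ : Σ l, Fin (d l)) (y : K → O) u v := by
      intro u v
      rw [← hc, Finsupp.sum, Matrix.sum_apply]
      rfl
    -- the diagonal entries
    have hdiag : ∀ (l : I), (l ≠ i ∨ l ≠ j) → ∀ (u v : Fin (d l)),
        ∑ g ∈ c.support, φ (c g) * Ideal.Quotient.mk _ (ρ l g u v) = 0 := by
      intro l hl u v
      have h1 := hent ⟨l, u⟩ ⟨l, v⟩
      have h2 : Matrix.single (⟨i, p⟩ : Σ l, Fin (d l)) (⟨j, q⟩ : Σ l, Fin (d l)) (y : K → O)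
          ⟨l, u⟩ ⟨l, v⟩ = 0 := by
        rw [Matrix.single_apply, if_neg]
        rintro ⟨h3, h4⟩
        have h5 : i = l := congrArg Sigma.fst h3
        have h6 : j = l := congrArg Sigma.fst h4
        rcases hl with hl | hl
        · exact hl h5.symm
        · exact hl h6.symm
      rw [h2] at h1
      have h3 : ∑ g ∈ c.support, c g * (⟨R g ⟨l, u⟩ ⟨l, v⟩, hT l g u v⟩ : T) = 0 := by
        apply Subtype.ext
        rw [AddSubmonoidClass.coe_finsetSum]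
        exact h1
      have h4 := congrArg φ h3
      rw [map_sum, map_zero] at h4
      rw [← h4]
      refine Finset.sum_congr rfl fun g _ => ?_
      rw [map_mul, hR.diag]
    -- the off diagonal entry
    have hmem : ∀ g, (c g : K → O) * R g ⟨i, p⟩ ⟨j, q⟩ ∈ a i j := fun g =>
      hG.mul i i j _ _ ((hG.diag i _).2 (c g).2) (hR.mem g ⟨i, p⟩ ⟨j, q⟩)
    have hy : y = ∑ g ∈ c.support, (⟨(c g : K → O) * R g ⟨i, p⟩ ⟨j, q⟩, hmem g⟩ : a i j) := by
      apply Subtype.ext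
      rw [Submodule.coe_sum]
      have h1 := hent ⟨i, p⟩ ⟨j, q⟩
      rw [Matrix.single_apply, if_pos ⟨rfl, rfl⟩] at h1
      exact h1.symm
    have hyv : (h : a i j →ₗ[O] Rn O n) y = ∑ g ∈ c.support, φ (c g) * coc h g p q := by
      conv_lhs => rw [hy]
      rw [map_sum]
      refine Finset.sum_congr rfl fun g _ => ?_
      rw [wm_mul h.2 (c g) ⟨R g ⟨i, p⟩ ⟨j, q⟩, hR.mem g ⟨i, p⟩ ⟨j, q⟩⟩ _ rfl, hcv]
    have e1 : ∀ g, φ (c g) * coc h g p q =
        ∑ s, (φ (c g) * Ideal.Quotient.mk _ (ρ i g p s)) * x s q -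
          ∑ s, x p s * (φ (c g) * Ideal.Quotient.mk _ (ρ j g s q)) := by
      intro g
      rw [hx', Matrix.sub_apply, Matrix.mul_apply, Matrix.mul_apply, mul_sub, Finset.mul_sum,
        Finset.mul_sum]
      congr 1
      · refine Finset.sum_congr rfl fun s _ => ?_
        rw [mul_assoc]
        rfl
      · refine Finset.sum_congr rfl fun s _ => ?_
        rw [← mul_assoc, mul_comm (φ (c g)) (x p s), mul_assoc]
        rfl
    rw [hyv, Finset.sum_congr rfl fun g _ => e1 g, Finset.sum_sub_distrib, Finset.sum_comm,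
      Finset.sum_comm (s := c.support)]
    have e2 : ∀ s, ∑ g ∈ c.support, (φ (c g) * Ideal.Quotient.mk _ (ρ i g p s)) * x s q = 0 := by
      intro s
      rw [← Finset.sum_mul, hdiag i (Or.inr hij), zero_mul]
    have e3 : ∀ s, ∑ g ∈ c.support, x p s * (φ (c g) * Ideal.Quotient.mk _ (ρ j g s q)) = 0 := by
      intro s
      rw [← Finset.mul_sum, hdiag j (Or.inl hji), mul_zero]
    rw [Finset.sum_congr rfl fun s _ => e2 s, Finset.sum_congr rfl fun s _ => e3 s,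
      Finset.sum_const_zero, Finset.sum_const_zero, sub_zero]

end Pool.Agent.H980.CD
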