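import Pool.Agent.H499.CD.Stm

set_option autoImplicit false

/-!
# Project CD, job GMA: assembly of the generalised matrix algebra (helper294)
-/

namespace Pool.Agent.H294.CD

open Matrix IsLocalRing Pool.Agent.H499.CD

section abs

variable {O C R I : Type} [CommRing O] [CommRing C] [Algebra O C] [CommRing R] [Algebra O R]
  [Fintype I] [DecidableEq I] {d : I → ℕ}

/-- the entries of the algebra `A` -/
def ent (A : Subalgebra O (Matrix (Σ i, Fin (d i)) (Σ i, Fin (d i)) C)) (i j : I) :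
    Submodule O C where
  carrier := {t | ∀ p q, Matrix.single (⟨i, p⟩ : Σ i, Fin (d i)) ⟨j, q⟩ t ∈ A}
  add_mem' := by
    intro x y hx hy p q
    rw [Matrix.single_add]
    exact A.add_mem (hx p q) (hy p q)
  zero_mem' := by
    intro p q
    rw [Matrix.single_zero]
    exact A.zero_mem
  smul_mem' := by
    intro c x hx p q
    rw [← Matrix.smul_single]
    exact A.smul_mem (hx p q) c

/-- the abstract situation: `A` contains the standard matrix units -/
structure Abs (T : Subalgebra O C) (φ : T →ₐ[O] R)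
    (A : Subalgebra O (Matrix (Σ i, Fin (d i)) (Σ i, Fin (d i)) C))
    (Φ : A →ₐ[O] (∀ i, Matrix (Fin (d i)) (Fin (d i)) R)) : Prop where
  pos : ∀ i, 0 < d i
  smul : ∀ (t : T) (x : A), ∃ h : (t : C) • (x : Matrix (Σ i, Fin (d i)) (Σ i, Fin (d i)) C) ∈ A,
    Φ ⟨_, h⟩ = φ t • Φ x
  unit : ∀ i a b, ∃ h : Matrix.single (⟨i, a⟩ : Σ i, Fin (d i)) ⟨i, b⟩ (1 : C) ∈ A,
    Φ ⟨_, h⟩ = Pi.single i (Matrix.single a b 1)
  tr : ∀ x ∈ A, x.trace ∈ T

variable {T : Subalgebra O C} {φ : T →ₐ[O] R}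
  {A : Subalgebra O (Matrix (Σ i, Fin (d i)) (Σ i, Fin (d i)) C)}
  {Φ : A →ₐ[O] (∀ i, Matrix (Fin (d i)) (Fin (d i)) R)}

theorem mem_ent {i j : I} {t : C} : t ∈ ent A i j ↔
    ∀ p q, Matrix.single (⟨i, p⟩ : Σ i, Fin (d i)) ⟨j, q⟩ t ∈ A := Iff.rfl

/-- the entries of an element of `A` -/
theorem Abs.entry (h : Abs T φ A Φ) {M : Matrix (Σ i, Fin (d i)) (Σ i, Fin (d i)) C} (hM : M ∈ A)
    (x y : Σ i, Fin (d i)) : M x y ∈ ent A x.1 y.1 := by
  obtain ⟨i, p0⟩ := x
  obtain ⟨j, q0⟩ := y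
  intro p q
  obtain ⟨h1, -⟩ := h.unit i p p0
  obtain ⟨h2, -⟩ := h.unit j q0 q
  have h3 := A.mul_mem (A.mul_mem h1 hM) h2
  rw [Matrix.single_mul_mul_single, one_mul, mul_one] at h3
  exact h3

theorem Abs.of_one (h : Abs T φ A Φ) {i j : I} {t : C} (p : Fin (d i)) (q : Fin (d j))
    (ht : Matrix.single (⟨i, p⟩ : Σ i, Fin (d i)) ⟨j, q⟩ t ∈ A) : t ∈ ent A i j := by
  have h1 := h.entry ht ⟨i, p⟩ ⟨j, q⟩
  rwa [Matrix.single_apply_same] at h1

theorem Abs.diag (h : Abs T φ A Φ) (i : I) (x : C) : x ∈ ent A i i ↔ x ∈ T := by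
  constructor
  · intro hx
    have h1 := h.tr _ (hx ⟨0, h.pos i⟩ ⟨0, h.pos i⟩)
    rwa [Matrix.trace_single_eq_same] at h1
  · intro hx p q
    obtain ⟨h1, -⟩ := h.unit i p q
    obtain ⟨h2, -⟩ := h.smul ⟨x, hx⟩ ⟨_, h1⟩
    rw [Matrix.smul_single, smul_eq_mul, mul_one] at h2
    exact h2

theorem Abs.mul (h : Abs T φ A Φ) (i j l : I) (x y : C) (hx : x ∈ ent A i j) (hy : y ∈ ent A j l) :
    x * y ∈ ent A i l := by
  intro p q
  have h1 := A.mul_mem (hx p ⟨0, h.pos j⟩) (hy ⟨0, h.pos j⟩ q)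
  rwa [Matrix.single_mul_single_same] at h1

/-- `Φ` of an entry of `T` -/
theorem Abs.phi_diag (h : Abs T φ A Φ) (i : I) (p q : Fin (d i)) (t : T)
    (ht : Matrix.single (⟨i, p⟩ : Σ i, Fin (d i)) ⟨i, q⟩ (t : C) ∈ A) :
    Φ ⟨_, ht⟩ = Pi.single i (Matrix.single p q (φ t)) := by
  obtain ⟨h1, h1'⟩ := h.unit i p q
  obtain ⟨h2, h2'⟩ := h.smul t ⟨_, h1⟩
  rw [h1'] at h2'
  have h3 : (⟨_, ht⟩ : A) = ⟨_, h2⟩ := by
    apply Subtype.ext
    change _ = (t : C) • Matrix.single (⟨i, p⟩ : Σ i, Fin (d i)) (⟨i, q⟩ : Σ i, Fin (d i)) (1 : C)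
    rw [Matrix.smul_single, smul_eq_mul, mul_one]
  rw [h3, h2']
  funext j
  rw [Pi.smul_apply]
  by_cases hj : j = i
  · subst hj
    rw [Pi.single_eq_same, Pi.single_eq_same, Matrix.smul_single, smul_eq_mul, mul_one]
  · rw [Pi.single_eq_of_ne hj, Pi.single_eq_of_ne hj, smul_zero]

/-- `Φ` of an entry of different types -/
theorem Abs.phi_ne (h : Abs T φ A Φ) {i j : I} (hij : i ≠ j) (p : Fin (d i)) (q : Fin (d j)) (t : C)
    (ht : Matrix.single (⟨i, p⟩ : Σ i, Fin (d i)) ⟨j, q⟩ t ∈ A) : Φ ⟨_, ht⟩ = 0 := by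
  obtain ⟨h1, h1'⟩ := h.unit i p p
  obtain ⟨h2, h2'⟩ := h.unit j q q
  have h3 : (⟨_, ht⟩ : A) = ⟨_, h1⟩ * ⟨_, ht⟩ * ⟨_, h2⟩ := by
    apply Subtype.ext
    change _ = Matrix.single (⟨i, p⟩ : Σ i, Fin (d i)) (⟨i, p⟩ : Σ i, Fin (d i)) (1 : C) *
      Matrix.single (⟨i, p⟩ : Σ i, Fin (d i)) (⟨j, q⟩ : Σ i, Fin (d i)) t *
      Matrix.single (⟨j, q⟩ : Σ i, Fin (d i)) (⟨j, q⟩ : Σ i, Fin (d i)) (1 : C)
    rw [Matrix.single_mul_single_same, Matrix.single_mul_single_same, one_mul, mul_one]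
  rw [h3, map_mul, map_mul, h1', h2']
  funext l
  rw [Pi.mul_apply, Pi.mul_apply, Pi.zero_apply]
  by_cases hl : l = i
  · rw [Pi.single_eq_of_ne (fun h4 => hij (hl.symm.trans h4)), mul_zero]
  · rw [Pi.single_eq_of_ne hl, zero_mul, zero_mul]

theorem Abs.ker (h : Abs T φ A Φ) (i j : I) (hij : i ≠ j) (x y : C) (hxy : x * y ∈ T)
    (hx : x ∈ ent A i j) (hy : y ∈ ent A j i) : φ ⟨x * y, hxy⟩ = 0 := by
  have p : Fin (d i) := ⟨0, h.pos i⟩
  have q : Fin (d j) := ⟨0, h.pos j⟩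
  have h0 : Matrix.single (⟨i, p⟩ : Σ i, Fin (d i)) ⟨i, p⟩ (x * y) ∈ A := h.mul i j i x y hx hy p p
  have h1 := h.phi_diag i p p ⟨x * y, hxy⟩ h0
  have h2 := h.phi_ne hij p q x (hx p q)
  have h3 : (⟨_, h0⟩ : A) = ⟨_, hx p q⟩ * ⟨_, hy q p⟩ := by
    apply Subtype.ext
    change _ = Matrix.single (⟨i, p⟩ : Σ i, Fin (d i)) (⟨j, q⟩ : Σ i, Fin (d i)) x *
      Matrix.single (⟨j, q⟩ : Σ i, Fin (d i)) (⟨i, p⟩ : Σ i, Fin (d i)) y
    rw [Matrix.single_mul_single_same]
  rw [h3, map_mul, h2, zero_mul] at h1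
  have h4 := congrFun (congrFun (congrFun h1 i) p) p
  rw [Pi.single_eq_same, Matrix.single_apply_same] at h4
  exact h4.symm

/-- the diagonal blocks -/
theorem Abs.phi_entry (h : Abs T φ A Φ) {M : Matrix (Σ i, Fin (d i)) (Σ i, Fin (d i)) C}
    (hM : M ∈ A) (i : I) (p q : Fin (d i)) (hT : M ⟨i, p⟩ ⟨i, q⟩ ∈ T) :
    φ ⟨_, hT⟩ = Φ ⟨M, hM⟩ i p q := by
  obtain ⟨h1, h1'⟩ := h.unit i p p
  obtain ⟨h2, h2'⟩ := h.unit i q q
  have h0 : Matrix.single (⟨i, p⟩ : Σ i, Fin (d i)) ⟨i, q⟩ (M ⟨i, p⟩ ⟨i, q⟩) ∈ A :=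
    h.entry hM ⟨i, p⟩ ⟨i, q⟩ p q
  have h3 : (⟨_, h0⟩ : A) = ⟨_, h1⟩ * ⟨_, hM⟩ * ⟨_, h2⟩ := by
    apply Subtype.ext
    change _ = Matrix.single (⟨i, p⟩ : Σ i, Fin (d i)) (⟨i, p⟩ : Σ i, Fin (d i)) (1 : C) * M *
      Matrix.single (⟨i, q⟩ : Σ i, Fin (d i)) (⟨i, q⟩ : Σ i, Fin (d i)) (1 : C)
    rw [Matrix.single_mul_mul_single, one_mul, mul_one]
  have h4 := h.phi_diag i p q ⟨_, hT⟩ h0
  rw [h3, map_mul, map_mul, h1', h2'] at h4
  have h5 := congrFun (congrFun (congrFun h4 i) p) q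
  rw [Pi.mul_apply, Pi.mul_apply, Pi.single_eq_same, Pi.single_eq_same, Pi.single_eq_same,
    Matrix.single_mul_mul_single, one_mul, mul_one, Matrix.single_apply_same,
    Matrix.single_apply_same] at h5
  exact h5.symm

end abs

/-! ### Conjugation -/

/-- conjugation `M ↦ Q M P` -/
def cj {O C X : Type} [CommRing O] [CommRing C] [Algebra O C] [Fintype X] [DecidableEq X]
    (P Q : Matrix X X C) (h : P * Q = 1) (h' : Q * P = 1) : Matrix X X C →ₐ[O] Matrix X X C where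
  toFun M := Q * M * P
  map_one' := by rw [mul_one, h']
  map_mul' M N := by
    calc Q * (M * N) * P = Q * M * 1 * (N * P) := by simp only [mul_one, mul_assoc]
      _ = Q * M * (P * Q) * (N * P) := by rw [h]
      _ = Q * M * P * (Q * N * P) := by simp only [mul_assoc]
  map_zero' := by rw [mul_zero, zero_mul]
  map_add' M N := by rw [mul_add, add_mul]
  commutes' r := by rw [← Algebra.commutes, mul_assoc, h', mul_one]

/-- evaluation at `κ` -/
def ev {O K X : Type} [CommRing O] [Fintype X] [DecidableEq X] (κ : K) :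
    Matrix X X (K → O) →+* Matrix X X O := (Pi.evalRingHom (fun _ : K => O) κ).mapMatrix

theorem ev_apply {O K X : Type} [CommRing O] [Fintype X] [DecidableEq X] (κ : K)
    (M : Matrix X X (K → O)) (x y : X) : ev κ M x y = M x y κ := rfl

theorem ev_ext {O K X : Type} [CommRing O] [Fintype X] [DecidableEq X]
    {M N : Matrix X X (K → O)} (h : ∀ κ, ev κ M = ev κ N) : M = N := by
  ext x y κ
  exact congrFun (congrFun (h κ) x) y

theorem ev_fam {O G K X : Type} [CommRing O] [Group G] [Fintype X] [DecidableEq X]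
    (r : K → G →* Matrix X X O) (κ : K) (g : G) : ev κ (fam r g) = r κ g := rfl

/-- a matrix from its values -/
def glue {O K X : Type} (P : K → Matrix X X O) : Matrix X X (K → O) := Matrix.of fun x y κ => P κ x y

theorem ev_glue {O K X : Type} [CommRing O] [Fintype X] [DecidableEq X] (P : K → Matrix X X O)
    (κ : K) : ev κ (glue P) = P κ := rfl

/-! ### Irreducibility -/

section irr

variable {O G K I : Type} [CommRing O] [IsDomain O] [Group G] [Fintype I] [DecidableEq I] {d : I → ℕ}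

theorem exists_ne (r : G →* Matrix (Σ i, Fin (d i)) (Σ i, Fin (d i)) O)
    (hirr : Irr r) (P Q : Matrix (Σ i, Fin (d i)) (Σ i, Fin (d i)) O) (hPQ : P * Q = 1)
    (hQP : Q * P = 1) (κ : K) (R : G → Matrix (Σ i, Fin (d i)) (Σ i, Fin (d i)) (K → O))
    (hR : ∀ g, ev κ (R g) = P * r g * Q) (a : I → I → Submodule O (K → O))
    (hmul : ∀ i j l x y, x ∈ a i j → y ∈ a j l → x * y ∈ a i l)
    (hmem : ∀ g x y, R g x y ∈ a x.1 y.1) (hone : ∀ i, (1 : K → O) ∈ a i i) (hpos : ∀ i, 0 < d i)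
    (i j : I) : ∃ x ∈ a i j, x κ ≠ 0 := by
  by_contra hcon
  push Not at hcon
  have hinj : Function.Injective (algebraMap O (FractionRing O)) := IsFractionRing.injective O _
  set al := algebraMap O (FractionRing O) with hal
  let S : Set ((Σ i, Fin (d i)) → FractionRing O) :=
    {w | ∃ t : (Σ i, Fin (d i)) → K → O, (∀ x, t x ∈ a x.1 j) ∧ ∀ x, w x = al (t x κ)}
  let W := Submodule.span (FractionRing O) S
  -- stability
  have hst : ∀ g, ∀ w ∈ W, (P * r g * Q).map al *ᵥ w ∈ W := by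
    intro g w hw
    have h1 : W ≤ W.comap ((P * r g * Q).map al).mulVecLin := by
      apply Submodule.span_le.2
      rintro w ⟨t, ht, hw⟩
      apply Submodule.subset_span
      refine ⟨fun x => ∑ y, R g x y * t y, fun x => ?_, fun x => ?_⟩
      · exact Submodule.sum_mem _ fun y _ => hmul _ _ _ _ _ (hmem g x y) (ht y)
      · change ∑ y, al ((P * r g * Q) x y) * w y = al ((∑ y, R g x y * t y) κ)
        rw [Finset.sum_apply, map_sum]
        refine Finset.sum_congr rfl fun y _ => ?_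
        rw [hw y, Pi.mul_apply, map_mul, ← hR g]
        rfl
    exact h1 hw
  let W' : Submodule (FractionRing O) ((Σ i, Fin (d i)) → FractionRing O) :=
    W.comap (P.map al).mulVecLin
  have hmapmul : ∀ M N : Matrix (Σ i, Fin (d i)) (Σ i, Fin (d i)) O,
      (M * N).map al = M.map al * N.map al := fun M N => Matrix.map_mul
  have hmapone : (1 : Matrix (Σ i, Fin (d i)) (Σ i, Fin (d i)) O).map al = 1 :=
    Matrix.map_one _ (map_zero _) (map_one _)
  have hPQ' : P.map al * Q.map al = 1 := by rw [← hmapmul, hPQ, hmapone]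
  have hQP' : Q.map al * P.map al = 1 := by rw [← hmapmul, hQP, hmapone]
  have hst' : ∀ g, ∀ w ∈ W', (r g).map al *ᵥ w ∈ W' := by
    intro g w hw
    have h1 := hst g _ hw
    rw [Matrix.mulVecLin_apply, Matrix.mulVec_mulVec, hmapmul, hmapmul, mul_assoc, hQP', mul_one,
      ← Matrix.mulVec_mulVec] at h1
    exact h1
  -- the vector `e_j`
  have hj : (Pi.single (⟨j, ⟨0, hpos j⟩⟩ : Σ i, Fin (d i)) (1 : FractionRing O)) ∈ W := by
    apply Submodule.subset_span
    refine ⟨Pi.single ⟨j, ⟨0, hpos j⟩⟩ 1, fun x => ?_, fun x => ?_⟩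
    · by_cases hx : x = ⟨j, ⟨0, hpos j⟩⟩
      · subst hx
        rw [Pi.single_eq_same]
        exact hone j
      · rw [Pi.single_eq_of_ne hx]
        exact Submodule.zero_mem _
    · by_cases hx : x = ⟨j, ⟨0, hpos j⟩⟩
      · subst hx
        rw [Pi.single_eq_same, Pi.single_eq_same, Pi.one_apply, map_one]
      · rw [Pi.single_eq_of_ne hx, Pi.single_eq_of_ne hx, Pi.zero_apply, map_zero]
  have hQW : ∀ w ∈ W, (Q.map al) *ᵥ w ∈ W' := by
    intro w hw
    change (P.map al).mulVecLin ((Q.map al) *ᵥ w) ∈ W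
    rw [Matrix.mulVecLin_apply, Matrix.mulVec_mulVec, hPQ', Matrix.one_mulVec]
    exact hw
  rcases hirr W' hst' with h0 | h0
  · have h1 := hQW _ hj
    rw [h0, Submodule.mem_bot] at h1
    have h2 := congrArg (fun w => (P.map al) *ᵥ w) h1
    simp only [Matrix.mulVec_zero, Matrix.mulVec_mulVec, hPQ', Matrix.one_mulVec] at h2
    have h3 := congrFun h2 (⟨j, ⟨0, hpos j⟩⟩ : Σ i, Fin (d i))
    rw [Pi.single_eq_same, Pi.zero_apply] at h3
    exact one_ne_zero h3
  · have hWtop : ∀ w, w ∈ W := by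
      intro w
      have h1 : (Q.map al) *ᵥ w ∈ W' := by rw [h0]; exact Submodule.mem_top
      change (P.map al).mulVecLin ((Q.map al) *ᵥ w) ∈ W at h1
      rwa [Matrix.mulVecLin_apply, Matrix.mulVec_mulVec, hPQ', Matrix.one_mulVec] at h1
    have hzero : W ≤ LinearMap.ker (LinearMap.proj (⟨i, ⟨0, hpos i⟩⟩ : Σ i, Fin (d i)) :
        ((Σ i, Fin (d i)) → FractionRing O) →ₗ[FractionRing O] FractionRing O) := by
      apply Submodule.span_le.2
      rintro w ⟨t, ht, hw⟩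
      change w ⟨i, ⟨0, hpos i⟩⟩ = 0
      rw [hw, hcon _ (ht ⟨i, ⟨0, hpos i⟩⟩), map_zero]
    have h1 := hzero (hWtop (Pi.single (⟨i, ⟨0, hpos i⟩⟩ : Σ i, Fin (d i)) (1 : FractionRing O)))
    rw [LinearMap.mem_ker, LinearMap.proj_apply, Pi.single_eq_same] at h1
    exact one_ne_zero h1

end irr

/-- **GMA** -/
theorem gma (h1 : S_PHI) (h2 : S_LIFT) (h3 : S_STD) : S_GMA := by
  intro O G K I _ _ _ _ _ _ _ _ n d ρ r T φ hyp
  obtain ⟨A, Φ, p1, p2, p3, p4, p5, p6⟩ := h1 O G K I n d ρ r T φ hyp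
  have hfin : Module.Finite O A := by
    have h0 : IsNoetherian O (Matrix (Σ i, Fin (d i)) (Σ i, Fin (d i)) (K → O)) :=
      isNoetherian_of_isNoetherianRing_of_finite O _
    have h1 : Module.Finite O (Subalgebra.toSubmodule A) := Module.IsNoetherian.finite O _
    exact h1
  obtain ⟨E, e1, e2, e3, e4, e5⟩ := h2 O A (Rn O n) I d (Φ : A →+* _) p4 p6
  have e1' : ∀ i a b, Φ (E i a b) = Pi.single i (Matrix.single a b 1) := e1
  -- the matrix units at `κ`
  have hst : ∀ κ : K, ∃ P Q : Matrix (Σ i, Fin (d i)) (Σ i, Fin (d i)) O, P * Q = 1 ∧ Q * P = 1 ∧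
      ∀ i a b, P * ev κ ((E i a b : A) : Matrix (Σ i, Fin (d i)) (Σ i, Fin (d i)) (K → O)) * Q =
        Matrix.single ⟨i, a⟩ ⟨i, b⟩ 1 := by
    intro κ
    refine h3 O I d (fun i a b =>
      ev κ ((E i a b : A) : Matrix (Σ i, Fin (d i)) (Σ i, Fin (d i)) (K → O))) ?_ ?_ ?_ ?_ ?_
    · intro i a b c
      rw [← map_mul, ← Subalgebra.coe_mul, e2]
    · intro i a b c e hbc
      rw [← map_mul, ← Subalgebra.coe_mul, e3 i a b c e hbc, Subalgebra.coe_zero, map_zero]
    · intro i j hij a b c e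
      rw [← map_mul, ← Subalgebra.coe_mul, e4 i j hij a b c e, Subalgebra.coe_zero, map_zero]
    · have h5 := congrArg (fun x : A => ev κ (x : Matrix (Σ i, Fin (d i)) (Σ i, Fin (d i)) (K → O))) e5
      simp only [AddSubmonoidClass.coe_finsetSum, map_sum, Subalgebra.coe_one, map_one] at h5
      exact h5
    · intro i a h0
      obtain ⟨ht, ht'⟩ := p5 (E i a a)
      have h6 : ∑ j, (Φ (E i a a) j).trace = 1 := by
        rw [e1', Finset.sum_eq_single i]
        · rw [Pi.single_eq_same, Matrix.trace_single_eq_same]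
        · intro j _ hj
          rw [Pi.single_eq_of_ne hj, Matrix.trace_zero]
        · intro h
          exact absurd (Finset.mem_univ _) h
      rw [h6, ← map_one φ, ← sub_eq_zero, ← map_sub] at ht'
      have h7 := hyp.loc _ ht' κ
      have h8 : (((⟨_, ht⟩ - 1 : T) : K → O)) κ =
          (ev κ ((E i a a : A) : Matrix (Σ i, Fin (d i)) (Σ i, Fin (d i)) (K → O))).trace - 1 := by
        rw [AddSubgroupClass.coe_sub, Pi.sub_apply]
        congr 1
        change (∑ x, ((E i a a : A) : Matrix (Σ i, Fin (d i)) (Σ i, Fin (d i)) (K → O)) x x) κ = _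
        rw [Finset.sum_apply]
        rfl
      rw [h8, h0, Matrix.trace_zero, zero_sub] at h7
      have h9 := (maximalIdeal O).neg_mem h7
      rw [neg_neg] at h9
      exact (Ideal.ne_top_iff_one _).1 (maximalIdeal.isMaximal O).ne_top h9
  choose P Q hPQ hQP hS using hst
  -- the conjugation
  have hPQ' : glue P * glue Q = 1 := ev_ext fun κ => by
    rw [map_mul, ev_glue, ev_glue, hPQ, map_one]
  have hQP' : glue Q * glue P = 1 := ev_ext fun κ => by
    rw [map_mul, ev_glue, ev_glue, hQP, map_one]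
  let c1 := cj (O := O) (glue P) (glue Q) hPQ' hQP'
  let A' : Subalgebra O (Matrix (Σ i, Fin (d i)) (Σ i, Fin (d i)) (K → O)) := A.comap c1
  have hA' : ∀ M, M ∈ A' ↔ glue Q * M * glue P ∈ A := fun M => Iff.rfl
  let Φ' : A' →ₐ[O] (∀ i, Matrix (Fin (d i)) (Fin (d i)) (Rn O n)) :=
    Φ.comp ((c1.comp A'.val).codRestrict A fun x => x.2)
  have hΦ' : ∀ (M) (hM : M ∈ A') (hM' : glue Q * M * glue P ∈ A), Φ' ⟨M, hM⟩ = Φ ⟨_, hM'⟩ :=
    fun M hM hM' => rfl
  have hcong : ∀ (M N : Matrix (Σ i, Fin (d i)) (Σ i, Fin (d i)) (K → O)) (hM : M ∈ A)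
      (hN : N ∈ A), M = N → Φ ⟨M, hM⟩ = Φ ⟨N, hN⟩ := by
    rintro M _ hM hN rfl
    rfl
  let R : G →* Matrix (Σ i, Fin (d i)) (Σ i, Fin (d i)) (K → O) :=
    { toFun := fun g => glue P * fam r g * glue Q
      map_one' := by rw [map_one, mul_one, hPQ']
      map_mul' := fun g h => by
        calc glue P * fam r (g * h) * glue Q
            = glue P * fam r g * 1 * (fam r h * glue Q) := by
              rw [map_mul]; simp only [mul_one, mul_assoc]
          _ = glue P * fam r g * (glue Q * glue P) * (fam r h * glue Q) := by rw [hQP']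
          _ = glue P * fam r g * glue Q * (glue P * fam r h * glue Q) := by
              simp only [mul_assoc] }
  have hR : ∀ g, R g = glue P * fam r g * glue Q := fun g => rfl
  have hRev : ∀ κ g, ev κ (R g) = P κ * r κ g * Q κ := by
    intro κ g
    rw [hR, map_mul, map_mul, ev_glue, ev_glue, ev_fam]
  have hback : ∀ M : Matrix (Σ i, Fin (d i)) (Σ i, Fin (d i)) (K → O),
      glue Q * (glue P * M * glue Q) * glue P = M := by
    intro M
    calc glue Q * (glue P * M * glue Q) * glue P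
        = (glue Q * glue P) * M * (glue Q * glue P) := by simp only [mul_assoc]
      _ = M := by rw [hQP', one_mul, mul_one]
  have hforth : ∀ M : Matrix (Σ i, Fin (d i)) (Σ i, Fin (d i)) (K → O),
      glue P * (glue Q * M * glue P) * glue Q = M := by
    intro M
    calc glue P * (glue Q * M * glue P) * glue Q
        = (glue P * glue Q) * M * (glue P * glue Q) := by simp only [mul_assoc]
      _ = M := by rw [hPQ', one_mul, mul_one]
  have hRA : ∀ g, R g ∈ A' := by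
    intro g
    rw [hA', hR, hback]
    exact (p1 g).1
  have habs : Abs T φ A' Φ' := by
    refine ⟨hyp.pos, ?_, ?_, ?_⟩
    · intro t x
      obtain ⟨h4, h5⟩ := p3 t ⟨_, (hA' _).1 x.2⟩
      have h6 : glue Q * ((t : K → O) • (x : Matrix (Σ i, Fin (d i)) (Σ i, Fin (d i)) (K → O))) *
          glue P = (t : K → O) •
          (glue Q * (x : Matrix (Σ i, Fin (d i)) (Σ i, Fin (d i)) (K → O)) * glue P) := by
        rw [mul_smul_comm, smul_mul_assoc]
      refine ⟨(hA' _).2 (by rw [h6]; exact h4), ?_⟩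
      have h7 := h4
      rw [← h6] at h7
      rw [hΦ' _ _ h7, hcong _ _ h7 h4 h6, h5]
      rfl
    · intro i a b
      have h6 : glue Q * Matrix.single (⟨i, a⟩ : Σ i, Fin (d i)) (⟨i, b⟩ : Σ i, Fin (d i))
          (1 : K → O) * glue P = ((E i a b : A) :
            Matrix (Σ i, Fin (d i)) (Σ i, Fin (d i)) (K → O)) := by
        apply ev_ext
        intro κ
        have h7 : ev κ (Matrix.single (⟨i, a⟩ : Σ i, Fin (d i)) (⟨i, b⟩ : Σ i, Fin (d i))
            (1 : K → O)) = Matrix.single ⟨i, a⟩ ⟨i, b⟩ 1 := by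
          ext x y
          rw [ev_apply, Matrix.single_apply, Matrix.single_apply]
          split_ifs <;> rfl
        rw [map_mul, map_mul, ev_glue, ev_glue, h7, ← hS κ i a b]
        calc Q κ * (P κ * ev κ ((E i a b : A) : Matrix (Σ i, Fin (d i)) (Σ i, Fin (d i)) (K → O)) *
              Q κ) * P κ = (Q κ * P κ) * ev κ ((E i a b : A) :
                Matrix (Σ i, Fin (d i)) (Σ i, Fin (d i)) (K → O)) * (Q κ * P κ) := by
              simp only [mul_assoc]
          _ = _ := by rw [hQP, one_mul, mul_one]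
      refine ⟨(hA' _).2 (by rw [h6]; exact (E i a b).2), ?_⟩
      rw [hΦ' _ _ (by rw [h6]; exact (E i a b).2), ← e1' i a b]
      exact congrArg Φ (Subtype.ext h6)
    · intro x hx
      obtain ⟨h4, -⟩ := p5 ⟨_, (hA' _).1 hx⟩
      have h6 : (glue Q * x * glue P).trace = x.trace := by
        rw [Matrix.trace_mul_cycle, hPQ', one_mul]
      change (glue Q * x * glue P).trace ∈ T at h4
      rwa [h6] at h4
  refine ⟨P, Q, ent A', R, hPQ, hQP, ?_, ?_, ?_⟩
  · intro g x y κ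
    rw [← hRev]
    rfl
  · refine ⟨habs.diag, habs.mul, habs.ker, fun i j κ => ?_⟩
    exact exists_ne (r κ) (hyp.irr κ) (P κ) (Q κ) (hPQ κ) (hQP κ) κ (fun g => R g)
      (fun g => hRev κ g) (ent A') habs.mul (fun g x y => habs.entry (hRA g) x y)
      (fun i => (habs.diag i 1).2 T.one_mem) hyp.pos i j
  · refine ⟨fun g x y => habs.entry (hRA g) x y, ?_, ?_⟩
    · intro g i p q h
      rw [habs.phi_entry (hRA g) i p q h]
      obtain ⟨h4, h5⟩ := p1 g
      have h6 : glue Q * R g * glue P = fam r g := by rw [hR, hback]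
      have h7 := h4
      rw [← h6] at h7
      rw [hΦ' _ _ h7, hcong _ _ h7 h4 h6, h5]
      rfl
    · intro x y t ht
      have h4 : Matrix.single x y t ∈ A' := ht x.2 y.2
      obtain ⟨c, hc⟩ := p2 _ ((hA' _).1 h4)
      refine ⟨c, ?_⟩
      rw [← hforth (Matrix.single x y t), ← hc, Finsupp.sum, Finsupp.sum, Finset.mul_sum,
        Finset.sum_mul]
      refine Finset.sum_congr rfl fun g _ => ?_
      rw [hR, mul_smul_comm, smul_mul_assoc]

end Pool.Agent.H294.CD
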