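import Pool.Agent.H499.CD.Stm

/-! Congruence modules (helper499), job LEN (helper628). -/

set_option autoImplicit false

namespace Pool.Agent.H628.CD.LEN

open Pool.Agent.H499.CD IsLocalRing Module

section

variable {O K I : Type} [CommRing O] [IsLocalRing O] {n : ℕ}

/-- the kernel of `φ` in `K → O` -/
def KT (T : Subalgebra O (K → O)) (φ : T →ₐ[O] Rn O n) : Submodule O (K → O) where
  carrier := {x | ∃ h : x ∈ T, φ ⟨x, h⟩ = 0}
  add_mem' := by
    rintro x y ⟨hx, hx'⟩ ⟨hy, hy'⟩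
    refine ⟨T.add_mem hx hy, ?_⟩
    have e : (⟨x + y, T.add_mem hx hy⟩ : T) = ⟨x, hx⟩ + ⟨y, hy⟩ := rfl
    rw [e, map_add, hx', hy', add_zero]
  zero_mem' := ⟨T.zero_mem, map_zero φ⟩
  smul_mem' := by
    rintro c x ⟨hx, hx'⟩
    refine ⟨T.smul_mem hx c, ?_⟩
    have e : (⟨c • x, T.smul_mem hx c⟩ : T) = c • ⟨x, hx⟩ := rfl
    rw [e, map_smul, hx', smul_zero]

theorem KT_mul {T : Subalgebra O (K → O)} {φ : T →ₐ[O] Rn O n} {s z : K → O} (hs : s ∈ T) (hz : z ∈ KT T φ) :
    s * z ∈ KT T φ := by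
  obtain ⟨h, h'⟩ := hz
  refine ⟨T.mul_mem hs h, ?_⟩
  have e : (⟨s * z, T.mul_mem hs h⟩ : T) = ⟨s, hs⟩ * ⟨z, h⟩ := rfl
  rw [e, map_mul, h', mul_zero]

/-- the products -/
def MM (T : Subalgebra O (K → O)) (φ : T →ₐ[O] Rn O n) (a : I → I → Submodule O (K → O)) (i j : I) :
    Submodule O (K → O) :=
  Submodule.span O ({x | ∃ l, l ≠ i ∧ l ≠ j ∧ ∃ u ∈ a i l, ∃ v ∈ a l j, x = u * v} ∪
    {x | ∃ t ∈ KT T φ, ∃ y ∈ a i j, x = t * y})

theorem van_le (T : Subalgebra O (K → O)) (φ : T →ₐ[O] Rn O n) (a : I → I → Submodule O (K → O)) (i j : I) :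
    Module.length O (Van n (a i j) (MM T φ a i j)) ≤ Module.length O (Wm T φ a i j) := by
  have h : Van n (a i j) (MM T φ a i j) ≤ Wm T φ a i j := by
    intro h hh
    refine ⟨fun l hl hl' u hu v hv y hy => ?_, fun t ht y y' hy => ?_⟩
    · exact hh y (Submodule.subset_span (Or.inl ⟨l, hl, hl', u, hu, v, hv, hy⟩))
    · exact hh y' (Submodule.subset_span (Or.inr ⟨t, ⟨t.2, ht⟩, y, y.2, hy⟩))
  exact Module.length_le_of_injective (Submodule.inclusion h) (Submodule.inclusion_injective h)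

variable {T : Subalgebra O (K → O)} {φ : T →ₐ[O] Rn O n} {a : I → I → Submodule O (K → O)}

theorem MM_le (hG : GMA T φ a) (i j : I) : MM T φ a i j ≤ a i j := by
  unfold MM
  rw [Submodule.span_le]
  rintro x (⟨l, _, _, u, hu, v, hv, rfl⟩ | ⟨t, ⟨ht, _⟩, y, hy, rfl⟩)
  · exact hG.mul _ _ _ _ _ hu hv
  · exact hG.mul _ _ _ _ _ ((hG.diag i t).2 ht) hy

theorem pow_MM {ϖ : O} (hϖ : ϖ ∈ maximalIdeal O) (i j : I) (x : K → O) (hx : x ∈ a i j) :
    ϖ ^ n • x ∈ MM T φ a i j := by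
  apply Submodule.subset_span
  right
  refine ⟨algebraMap O (K → O) (ϖ ^ n), ⟨T.algebraMap_mem _, ?_⟩, x, hx, ?_⟩
  · have e : (⟨algebraMap O (K → O) (ϖ ^ n), T.algebraMap_mem _⟩ : T) = algebraMap O T (ϖ ^ n) := rfl
    rw [e, AlgHom.commutes]
    show Ideal.Quotient.mk _ (ϖ ^ n) = 0
    rw [Ideal.Quotient.eq_zero_iff_mem]
    exact Ideal.pow_mem_pow hϖ n
  · rw [Algebra.smul_def]

/-- the types of products -/
def bs (a : I → I → Submodule O (K → O)) (x x' : I × I) : Submodule O (K → O) := a x.1 x'.1 * a x'.2 x.2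

theorem one_mem (hG : GMA T φ a) (i : I) : (1 : K → O) ∈ a i i := (hG.diag i 1).2 T.one_mem

theorem bs_self (hG : GMA T φ a) (x : I × I) (z : K → O) : z ∈ bs a x x ↔ z ∈ T := by
  constructor
  · intro h
    have h1 : bs a x x ≤ Subalgebra.toSubmodule T := by
      unfold bs
      rw [Submodule.mul_le]
      intro u hu v hv
      exact T.mul_mem ((hG.diag _ _).1 hu) ((hG.diag _ _).1 hv)
    exact h1 h
  · intro h
    have h1 := Submodule.mul_mem_mul ((hG.diag x.1 z).2 h) (one_mem hG x.2)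
    rw [mul_one] at h1
    exact h1

theorem a_mul (hG : GMA T φ a) (i j l : I) : a i j * a j l ≤ a i l := by
  rw [Submodule.mul_le]
  intro u hu v hv
  exact hG.mul _ _ _ _ _ hu hv

theorem bs_mul (hG : GMA T φ a) (x y z : I × I) : bs a x y * bs a y z ≤ bs a x z := by
  unfold bs
  rw [mul_mul_mul_comm, mul_comm (a y.2 x.2)]
  exact mul_le_mul' (a_mul hG _ _ _) (a_mul hG _ _ _)

theorem a_ker (hG : GMA T φ a) {i j : I} (h : i ≠ j) : a i j * a j i ≤ KT T φ := by
  rw [Submodule.mul_le]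
  intro u hu v hv
  have hT : u * v ∈ T := (hG.diag i _).1 (hG.mul _ _ _ _ _ hu hv)
  exact ⟨hT, hG.ker i j h u v hT hu hv⟩

theorem bs_ker (hG : GMA T φ a) {x y : I × I} (h : x ≠ y) : bs a x y * bs a y x ≤ KT T φ := by
  unfold bs
  rw [mul_mul_mul_comm, Submodule.mul_le]
  intro u hu v hv
  by_cases h1 : x.1 = y.1
  · have h2 : y.2 ≠ x.2 := fun h3 => h (Prod.ext h1 h3.symm)
    exact KT_mul ((hG.diag _ _).1 (a_mul hG _ _ _ hu)) (a_ker hG h2 hv)
  · rw [mul_comm]
    exact KT_mul ((hG.diag _ _).1 (a_mul hG _ _ _ hv)) (a_ker hG h1 hu)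

open Classical in
/-- the types of the coefficients -/
noncomputable def W (T : Subalgebra O (K → O)) (φ : T →ₐ[O] Rn O n) (a : I → I → Submodule O (K → O))
    (x x' : I × I) : Submodule O (K → O) :=
  if x.1 = x'.1 then (if x.2 = x'.2 then KT T φ else a x'.2 x.2) else (if x.2 = x'.2 then a x.1 x'.1 else ⊥)

theorem W_le (hG : GMA T φ a) (x x' : I × I) : W T φ a x x' ≤ bs a x x' := by
  unfold W
  split_ifs with h1 h2 h2
  · have h3 : x = x' := Prod.ext h1 h2
    subst h3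
    rintro z ⟨hz, _⟩
    exact (bs_self hG x z).2 hz
  · intro z hz
    have h3 := Submodule.mul_mem_mul (one_mem hG x.1) hz
    rw [one_mul] at h3
    unfold bs
    rw [← h1]
    exact h3
  · intro z hz
    have h3 := Submodule.mul_mem_mul hz (one_mem hG x.2)
    rw [mul_one] at h3
    unfold bs
    rw [← h2]
    exact h3
  · exact bot_le

/-- the combinations -/
def GG {Y : Type} [Fintype Y] (T : Subalgebra O (K → O)) (φ : T →ₐ[O] Rn O n)
    (a : I → I → Submodule O (K → O)) (t : Y → I × I) (v : Y → K → O) (x : I × I) : Submodule O (K → O) where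
  carrier := {z | ∃ β : Y → K → O, (∀ y, β y ∈ W T φ a x (t y)) ∧ ∑ y, β y * v y = z}
  add_mem' := by
    rintro z z' ⟨β, h, rfl⟩ ⟨β', h', rfl⟩
    refine ⟨β + β', fun y => Submodule.add_mem _ (h y) (h' y), ?_⟩
    rw [← Finset.sum_add_distrib]
    exact Finset.sum_congr rfl (fun y _ => add_mul _ _ _)
  zero_mem' := ⟨0, fun y => Submodule.zero_mem _, Finset.sum_eq_zero (fun y _ => zero_mul _)⟩
  smul_mem' := by
    rintro c z ⟨β, h, rfl⟩
    refine ⟨c • β, fun y => Submodule.smul_mem _ _ (h y), ?_⟩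
    rw [Finset.smul_sum]
    exact Finset.sum_congr rfl (fun y _ => by rw [Pi.smul_apply, smul_mul_assoc])

open Classical in
theorem GG_single {Y : Type} [Fintype Y] {t : Y → I × I} {v : Y → K → O} {x : I × I} (y : Y) {w : K → O}
    (hw : w ∈ W T φ a x (t y)) : w * v y ∈ GG T φ a t v x := by
  refine ⟨Pi.single y w, fun y' => ?_, ?_⟩
  · by_cases h : y' = y
    · subst h
      rw [Pi.single_eq_same]
      exact hw
    · rw [Pi.single_eq_of_ne h]
      exact Submodule.zero_mem _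
  · rw [Finset.sum_eq_single y]
    · rw [Pi.single_eq_same]
    · intro y' _ h
      rw [Pi.single_eq_of_ne h, zero_mul]
    · intro h
      exact absurd (Finset.mem_univ y) h

end

theorem span_mul {O K Z : Type} [CommRing O] (y : Z → K → O) (G : Submodule O (K → O)) (u : K → O)
    (h : ∀ p, u * y p ∈ G) (v : K → O) (hv : v ∈ Submodule.span O (Set.range y)) : u * v ∈ G := by
  have h1 : Submodule.span O (Set.range y) ≤ G.comap (LinearMap.mulLeft O u) := by
    rw [Submodule.span_le]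
    rintro _ ⟨p, rfl⟩
    exact h p
  exact h1 hv

open Classical in
theorem len (h1 : S_PERM) (h2 : S_SMITH) : S_LEN := by
  intro O K I _ _ _ _ _ _ _ n T φ a hG S hS hS'
  obtain ⟨ϖ, hϖ⟩ := IsDiscreteValuationRing.exists_irreducible O
  have hϖm : ϖ ∈ maximalIdeal O := by
    rw [hϖ.maximalIdeal_eq]
    exact Ideal.mem_span_singleton_self _
  have hsm : ∀ i j : I, ∃ (m : ℕ) (y : Fin m → K → O) (e : Fin m → ℕ), (∀ p, y p ∈ a i j) ∧
      a i j ≤ Submodule.span O (Set.range y) ∧ (∀ p, ϖ ^ e p • y p ∈ MM T φ a i j) ∧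
      ((∑ p, e p : ℕ) : ℕ∞) ≤ Module.length O (Van n (a i j) (MM T φ a i j)) :=
    fun i j => h2 O K n ϖ (a i j) (MM T φ a i j) hϖ (MM_le hG i j) (fun x hx => pow_MM hϖm i j x hx)
  choose m y e hy1 hy2 hy3 hy4 using hsm
  set Y : Type := Σ x : S × (Sᶜ : Finset I), Fin (m x.1 x.2) with hY
  set t : Y → I × I := fun z => ((z.1.1 : I), (z.1.2 : I)) with ht
  set v : Y → K → O := fun z => y z.1.1 z.1.2 z.2 with hv
  set ee : Y → ℕ := fun z => e z.1.1 z.1.2 z.2 with hee
  have hGG : ∀ z : Y, ϖ ^ ee z • v z ∈ GG T φ a t v (t z) := by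
    intro z
    have hle : MM T φ a z.1.1 z.1.2 ≤ GG T φ a t v (t z) := by
      unfold MM
      rw [Submodule.span_le]
      rintro x (⟨l, hl1, hl2, u, hu, w, hw, rfl⟩ | ⟨s, hs, w, hw, rfl⟩)
      · by_cases hlS : l ∈ S
        · refine span_mul (y l z.1.2) _ u (fun p => ?_) w (hy2 l z.1.2 hw)
          refine GG_single (t := t) (v := v) (⟨(⟨l, hlS⟩, z.1.2), p⟩ : Y) ?_
          show u ∈ W T φ a ((z.1.1 : I), (z.1.2 : I)) (l, (z.1.2 : I))
          unfold W
          rw [if_neg (Ne.symm hl1), if_pos rfl]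
          exact hu
        · rw [mul_comm]
          refine span_mul (y z.1.1 l) _ w (fun p => ?_) u (hy2 z.1.1 l hu)
          refine GG_single (t := t) (v := v) (⟨(z.1.1, ⟨l, Finset.mem_compl.2 hlS⟩), p⟩ : Y) ?_
          show w ∈ W T φ a ((z.1.1 : I), (z.1.2 : I)) ((z.1.1 : I), l)
          unfold W
          rw [if_pos rfl, if_neg (Ne.symm hl2)]
          exact hw
      · refine span_mul (y z.1.1 z.1.2) _ s (fun p => ?_) w (hy2 _ _ hw)
        refine GG_single (t := t) (v := v) (⟨z.1, p⟩ : Y) ?_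
        show s ∈ W T φ a ((z.1.1 : I), (z.1.2 : I)) ((z.1.1 : I), (z.1.2 : I))
        unfold W
        rw [if_pos rfl, if_pos rfl]
        exact hs
    exact hle (hy3 z.1.1 z.1.2 z.2)
  choose β hβ1 hβ2 using hGG
  set D : Matrix Y Y (K → O) := fun z z' =>
    (if z = z' then algebraMap O (K → O) (ϖ ^ ee z) else 0) - β z z' with hD
  set D' : Matrix Y Y (Rn O n) := Matrix.diagonal (fun z => Ideal.Quotient.mk _ (ϖ ^ ee z)) with hD'
  have hDb : ∀ z z', D z z' ∈ (bs a (t z) (t z') : Set (K → O)) := by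
    intro z z'
    refine Submodule.sub_mem _ ?_ (W_le hG _ _ (hβ1 z z'))
    by_cases h : z = z'
    · subst h
      rw [if_pos rfl]
      exact (bs_self hG _ _).2 (T.algebraMap_mem _)
    · rw [if_neg h]
      exact Submodule.zero_mem _
  have hH5 : ∀ z z' (h : D z z' ∈ T), t z = t z' → φ ⟨D z z', h⟩ = D' z z' := by
    intro z z' h htt
    have hb := hβ1 z z'
    rw [← htt] at hb
    unfold W at hb
    rw [if_pos rfl, if_pos rfl] at hb
    obtain ⟨hbT, hb0⟩ := hb
    by_cases hz : z = z'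
    · subst hz
      have e1 : (⟨D z z, h⟩ : T) = algebraMap O T (ϖ ^ ee z) - ⟨β z z, hbT⟩ := by
        apply Subtype.ext
        show D z z = algebraMap O (K → O) (ϖ ^ ee z) - β z z
        rw [hD]
        simp only [if_true]
      rw [e1, map_sub, AlgHom.commutes, hb0, sub_zero, hD', Matrix.diagonal_apply_eq]
      rfl
    · have e1 : (⟨D z z', h⟩ : T) = 0 - ⟨β z z', hbT⟩ := by
        apply Subtype.ext
        show D z z' = 0 - β z z'
        rw [hD]
        simp only [if_neg hz]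
      rw [e1, map_sub, hb0, map_zero, sub_zero, hD', Matrix.diagonal_apply_ne _ hz]
  obtain ⟨hdT, hdet⟩ := h1 O (K → O) (Rn O n) Y (I × I) T φ (fun x x' => (bs a x x' : Set (K → O))) t D D'
    (fun x z => bs_self hG x z)
    (fun x y z u w hu hw => bs_mul hG x y z (Submodule.mul_mem_mul hu hw))
    (fun x x' hxx u w h hu hw => by
      obtain ⟨_, h'⟩ := bs_ker hG hxx (Submodule.mul_mem_mul hu hw)
      exact h')
    hDb hH5 (fun z z' h => Matrix.diagonal_apply_ne _ (fun h' => h (by rw [h'])))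
  have hDv : D.mulVec v = 0 := by
    funext z
    show ∑ z', D z z' * v z' = 0
    have e1 : ∀ z', D z z' * v z' = (if z = z' then algebraMap O (K → O) (ϖ ^ ee z) * v z' else 0) -
        β z z' * v z' := by
      intro z'
      rw [hD]
      simp only [sub_mul, ite_mul, zero_mul]
    rw [Finset.sum_congr rfl (fun z' _ => e1 z'), Finset.sum_sub_distrib, hβ2 z, Finset.sum_ite_eq,
      if_pos (Finset.mem_univ z), Algebra.smul_def, sub_self]
  have hdv : ∀ z, D.det * v z = 0 := by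
    intro z
    have e1 : D.adjugate.mulVec (D.mulVec v) = 0 := by rw [hDv, Matrix.mulVec_zero]
    rw [Matrix.mulVec_mulVec, Matrix.adjugate_mul, Matrix.smul_mulVec, Matrix.one_mulVec] at e1
    exact congrFun e1 z
  obtain ⟨i0, hi0⟩ := hS
  obtain ⟨j0, hj0⟩ := hS'
  have hdet0 : D.det = 0 := by
    funext κ
    by_contra hne
    obtain ⟨x, hx, hxκ⟩ := hG.ne i0 j0 κ
    apply hxκ
    have hle : Submodule.span O (Set.range (y i0 j0)) ≤ LinearMap.ker (LinearMap.proj κ : (K → O) →ₗ[O] O) := by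
      rw [Submodule.span_le]
      rintro _ ⟨p, rfl⟩
      have h3 := congrFun (hdv (⟨(⟨i0, hi0⟩, ⟨j0, hj0⟩), p⟩ : Y)) κ
      exact (mul_eq_zero.1 h3).resolve_left hne
    exact hle (hy2 i0 j0 hx)
  have hprod : (Ideal.Quotient.mk (maximalIdeal O ^ n)) (ϖ ^ (∑ z, ee z)) = 0 := by
    have e1 : (⟨D.det, hdT⟩ : T) = 0 := Subtype.ext hdet0
    rw [e1, map_zero, hD', Matrix.det_diagonal, ← map_prod, Finset.prod_pow_eq_pow_sum] at hdet
    exact hdet.symm
  have hn : n ≤ ∑ z, ee z := by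
    rw [Ideal.Quotient.eq_zero_iff_mem, hϖ.maximalIdeal_eq, Ideal.span_singleton_pow,
      Ideal.mem_span_singleton] at hprod
    exact (pow_dvd_pow_iff hϖ.ne_zero hϖ.not_isUnit).1 hprod
  have hsum : (∑ z, ee z) = ∑ i : S, ∑ j : (Sᶜ : Finset I), ∑ p, e i j p := by
    rw [Fintype.sum_sigma, Fintype.sum_prod_type]
  calc (n : ℕ∞) ≤ ((∑ i : S, ∑ j : (Sᶜ : Finset I), ∑ p, e i j p : ℕ) : ℕ∞) := by
        rw [← hsum]
        exact_mod_cast hn
    _ = ∑ i : S, ∑ j : (Sᶜ : Finset I), ((∑ p, e i j p : ℕ) : ℕ∞) := by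
        rw [Nat.cast_sum]
        exact Finset.sum_congr rfl (fun i _ => Nat.cast_sum _ _)
    _ ≤ ∑ i : S, ∑ j : (Sᶜ : Finset I), Module.length O (Wm T φ a i j) :=
        Finset.sum_le_sum (fun i _ => Finset.sum_le_sum (fun j _ => (hy4 i j).trans (van_le T φ a i j)))
    _ = ∑ i ∈ S, ∑ j ∈ Sᶜ, Module.length O (Wm T φ a i j) := by
        rw [← Finset.sum_coe_sort S]
        refine Finset.sum_congr rfl (fun i _ => ?_)
        rw [← Finset.sum_coe_sort Sᶜ]

end Pool.Agent.H628.CD.LEN
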