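import Pool.Agent.H499.CD.Stm

/-!
# Lifting of matrix units to a finite algebra over a complete local ring
-/

set_option autoImplicit false

namespace Pool.Agent.H181.CD

open IsLocalRing Polynomial

/-! ## The Newton polynomials for idempotents -/

/-- the Newton iteration for idempotents -/
noncomputable def NE : ℕ → ℤ[X]
  | 0 => X
  | (n + 1) => 3 * NE n ^ 2 - 2 * NE n ^ 3

theorem NE_idem (n : ℕ) : ((X : ℤ[X]) ^ 2 - X) ^ (2 ^ n) ∣ NE n ^ 2 - NE n := by
  induction n with
  | zero => simp [NE]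
  | succ n ih =>
    obtain ⟨c, hc⟩ := ih
    refine ⟨c ^ 2 * (4 * (NE n ^ 2 - NE n) - 3), ?_⟩
    have h1 : NE (n + 1) ^ 2 - NE (n + 1) = (NE n ^ 2 - NE n) ^ 2 * (4 * (NE n ^ 2 - NE n) - 3) := by
      simp only [NE]
      ring
    rw [h1]
    have h2 : (NE n ^ 2 - NE n) ^ 2 = ((X : ℤ[X]) ^ 2 - X) ^ (2 ^ (n + 1)) * c ^ 2 := by
      rw [hc, mul_pow, ← pow_mul, pow_succ 2 n]
    rw [h2]
    ring

theorem NE_step (n : ℕ) : ((X : ℤ[X]) ^ 2 - X) ^ (2 ^ n) ∣ NE (n + 1) - NE n := by
  have h1 : NE (n + 1) - NE n = (NE n ^ 2 - NE n) * (1 - 2 * NE n) := by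
    simp only [NE]
    ring
  rw [h1]
  exact (NE_idem n).mul_right _

theorem NE_cauchy {m n : ℕ} (h : m ≤ n) : ((X : ℤ[X]) ^ 2 - X) ^ (2 ^ m) ∣ NE n - NE m := by
  induction n, h using Nat.le_induction with
  | base => simp
  | succ n hmn ih =>
    have h1 : NE (n + 1) - NE m = (NE (n + 1) - NE n) + (NE n - NE m) := by ring
    rw [h1]
    exact dvd_add ((pow_dvd_pow _ (Nat.pow_le_pow_right (by norm_num) hmn)).trans (NE_step n)) ih

theorem NE_X (n : ℕ) : (X : ℤ[X]) ∣ NE n := by
  induction n with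
  | zero => simp [NE]
  | succ n ih =>
    have h1 : NE (n + 1) = NE n * (3 * NE n - 2 * NE n ^ 2) := by
      simp only [NE]
      ring
    rw [h1]
    exact ih.mul_right _

/-! ## The adic filtration -/

section alg

variable (O A : Type) [CommRing O] [IsLocalRing O] [Ring A] [Algebra O A]

/-- the filtration -/
abbrev V (n : ℕ) : Submodule O A := (maximalIdeal O) ^ n • (⊤ : Submodule O A)

variable {O A}

theorem V_left {n : ℕ} {x : A} (a : A) (hx : x ∈ V O A n) : a * x ∈ V O A n := by
  have h : Submodule.map (LinearMap.mulLeft O a) (V O A n) ≤ V O A n := by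
    rw [V, Submodule.map_smul'']
    exact Submodule.smul_mono le_rfl le_top
  exact h ⟨x, hx, rfl⟩

theorem V_right {n : ℕ} {x : A} (a : A) (hx : x ∈ V O A n) : x * a ∈ V O A n := by
  have h : Submodule.map (LinearMap.mulRight O a) (V O A n) ≤ V O A n := by
    rw [V, Submodule.map_smul'']
    exact Submodule.smul_mono le_rfl le_top
  exact h ⟨x, hx, rfl⟩

theorem V_mul {m n : ℕ} {x y : A} (hx : x ∈ V O A m) (hy : y ∈ V O A n) : x * y ∈ V O A (m + n) := by
  refine Submodule.smul_induction_on (p := fun x => x * y ∈ V O A (m + n)) hx ?_ ?_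
  · intro c hc a _
    show c • a * y ∈ V O A (m + n)
    rw [smul_mul_assoc, V, pow_add, ← smul_eq_mul, Submodule.smul_assoc]
    exact Submodule.smul_mem_smul hc (V_left a hy)
  · intro a b ha hb
    show (a + b) * y ∈ V O A (m + n)
    rw [add_mul]
    exact Submodule.add_mem _ ha hb

theorem V_pow {z : A} {M : ℕ} (hz : z ^ M ∈ V O A 1) (n : ℕ) : z ^ (M * n) ∈ V O A n := by
  induction n with
  | zero => simp [V]
  | succ n ih =>
    rw [mul_add, mul_one, pow_add]
    exact V_mul ih hz

theorem V_pow' {z : A} {M : ℕ} (hz : z ^ M ∈ V O A 1) {n k : ℕ} (hk : M * n ≤ k) : z ^ k ∈ V O A n := by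
  obtain ⟨t, rfl⟩ := Nat.exists_eq_add_of_le hk
  rw [pow_add]
  exact V_right _ (V_pow hz n)

theorem V_sub (h : ∀ x : A, (∀ n, x ∈ V O A n) → x = 0) {x y : A} (hxy : ∀ n, x - y ∈ V O A n) : x = y :=
  sub_eq_zero.mp (h _ hxy)

/-- a Cauchy sequence has a limit, in a finite module over a complete ring -/
theorem limit [IsAdicComplete (maximalIdeal O) O] [Module.Finite O A] (F : ℕ → A)
    (hF : ∀ n, F (n + 1) - F n ∈ V O A n) : ∃ L : A, ∀ n, L - F n ∈ V O A n := by
  classical
  obtain ⟨k, g, hg⟩ := Module.Finite.exists_fin (R := O) (M := A)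
  have key : ∀ n (x : A), x ∈ V O A n ↔ ∃ c : Fin k → O, (∀ j, c j ∈ maximalIdeal O ^ n) ∧ ∑ j, c j • g j = x := by
    intro n x
    rw [V, ← hg, Submodule.mem_ideal_smul_span_iff_exists_sum]
    constructor
    · rintro ⟨a, ha, hx⟩
      refine ⟨a, ha, ?_⟩
      rw [← hx, Finsupp.sum_fintype _ _ (fun i => by exact zero_smul O (g i))]
    · rintro ⟨c, hc, hx⟩
      refine ⟨Finsupp.equivFunOnFinite.symm c, fun i => hc i, ?_⟩
      rw [← hx, Finsupp.sum_fintype _ _ (fun i => by exact zero_smul O (g i))]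
      rfl
  have h1 : ∀ n, ∃ c : Fin k → O, (∀ j, c j ∈ maximalIdeal O ^ n) ∧ ∑ j, c j • g j = F (n + 1) - F n :=
    fun n => (key n _).mp (hF n)
  choose c hc1 hc2 using h1
  have hs : ∀ n, F n = F 0 + ∑ j, (∑ m ∈ Finset.range n, c m j) • g j := by
    intro n
    induction n with
    | zero => simp
    | succ n ih =>
      have h2 : F (n + 1) = F n + ∑ j, c n j • g j := by
        rw [hc2 n]
        abel
      rw [h2, ih, add_assoc, ← Finset.sum_add_distrib]
      congr 1
      refine Finset.sum_congr rfl fun j _ => ?_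
      rw [Finset.sum_range_succ, add_smul]
  have hlim : ∀ j, ∃ L : O, ∀ n, L - ∑ m ∈ Finset.range n, c m j ∈ maximalIdeal O ^ n := by
    intro j
    obtain ⟨L, hL⟩ := IsPrecomplete.prec' (I := maximalIdeal O) (M := O)
      (fun n => ∑ m ∈ Finset.range n, c m j) (by
        intro m n hmn
        rw [SModEq.sub_mem, smul_eq_mul, Ideal.mul_top]
        rw [← neg_sub]
        refine neg_mem ?_
        rw [← Finset.sum_Ico_eq_sub _ hmn]
        refine Submodule.sum_mem _ fun t ht => ?_
        exact Ideal.pow_le_pow_right (Finset.mem_Ico.mp ht).1 (hc1 t j))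
    refine ⟨L, fun n => ?_⟩
    have h3 := hL n
    rw [SModEq.sub_mem, smul_eq_mul, Ideal.mul_top] at h3
    rw [← neg_sub]
    exact neg_mem h3
  choose L hL using hlim
  refine ⟨F 0 + ∑ j, L j • g j, fun n => ?_⟩
  rw [key]
  refine ⟨fun j => L j - ∑ m ∈ Finset.range n, c m j, fun j => hL j n, ?_⟩
  rw [hs n, add_sub_add_left_eq_sub, ← Finset.sum_sub_distrib]
  refine Finset.sum_congr rfl fun j _ => ?_
  rw [sub_smul]

/-- `1 - y` is a unit for `y ∈ 𝔪 A` -/
theorem unit_one_sub_V [Module.Finite O A] {y : A} (hy : y ∈ V O A 1) : IsUnit (1 - y) := by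
  have hfg : (⊤ : Submodule O A).FG := Module.Finite.fg_top
  have hjac : maximalIdeal O ≤ Ideal.jacobson ⊥ := (IsLocalRing.jacobson_eq_maximalIdeal ⊥ bot_ne_top).ge
  have hr : ∃ r, (1 - y) * r = 1 := by
    have h : (⊤ : Submodule O A) ≤ LinearMap.range (LinearMap.mulLeft O (1 - y)) := by
      refine Submodule.le_of_le_smul_of_le_jacobson_bot hfg hjac ?_
      intro a _
      have h1 : a = (1 - y) * a + y * a := by
        rw [sub_mul, one_mul]
        abel
      rw [h1]
      refine Submodule.add_mem_sup ⟨a, rfl⟩ ?_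
      have h2 := V_right a hy
      rwa [V, pow_one] at h2
    obtain ⟨r, hr⟩ := h (Submodule.mem_top : (1 : A) ∈ ⊤)
    exact ⟨r, hr⟩
  have hl : ∃ l, l * (1 - y) = 1 := by
    have h : (⊤ : Submodule O A) ≤ LinearMap.range (LinearMap.mulRight O (1 - y)) := by
      refine Submodule.le_of_le_smul_of_le_jacobson_bot hfg hjac ?_
      intro a _
      have h1 : a = a * (1 - y) + a * y := by
        rw [mul_sub, mul_one]
        abel
      rw [h1]
      refine Submodule.add_mem_sup ⟨a, rfl⟩ ?_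
      have h2 := V_left a hy
      rwa [V, pow_one] at h2
    obtain ⟨r, hr⟩ := h (Submodule.mem_top : (1 : A) ∈ ⊤)
    exact ⟨r, hr⟩
  obtain ⟨r, hr⟩ := hr
  obtain ⟨l, hl⟩ := hl
  have hlr : l = r := by
    calc l = l * ((1 - y) * r) := by rw [hr, mul_one]
      _ = r := by rw [← mul_assoc, hl, one_mul]
  subst hlr
  exact ⟨⟨1 - y, l, hr, hl⟩, rfl⟩

end alg

/-! ## Lifting of idempotents -/

section lifting

variable {O A B : Type} [CommRing O] [IsLocalRing O] [Ring A] [Algebra O A] [Ring B] {f : A →+* B}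

theorem unit_one_sub [Module.Finite O A] (hJ : ∀ x, f x = 0 → ∃ M : ℕ, x ^ M ∈ V O A 1) {x : A} (hx : f x = 0) :
    IsUnit (1 - x) := by
  obtain ⟨M, hM⟩ := hJ x hx
  have h1 := unit_one_sub_V hM
  have hc : Commute (1 - x) (∑ i ∈ Finset.range M, x ^ i) := by
    refine Commute.sum_right _ _ _ fun i _ => ?_
    exact ((Commute.one_left x).sub_left (Commute.refl x)).pow_right i
  rw [← mul_neg_geom_sum x M, hc.isUnit_mul_iff] at h1
  exact h1.1

theorem idem_zero [Module.Finite O A] (hJ : ∀ x, f x = 0 → ∃ M : ℕ, x ^ M ∈ V O A 1) {x : A} (hx : f x = 0)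
    (hi : x * x = x) : x = 0 := by
  have h := unit_one_sub hJ hx
  have h1 : (1 - x) * x = 0 := by rw [sub_mul, one_mul, hi, sub_self]
  exact (h.mul_right_eq_zero).mp h1

theorem lift_idem [IsNoetherianRing O] [IsAdicComplete (maximalIdeal O) O] [Module.Finite O A]
    (hJ : ∀ x, f x = 0 → ∃ M : ℕ, x ^ M ∈ V O A 1) {x : A} (hx : f x * f x = f x) :
    ∃ e : A, e * e = e ∧ f e = f x ∧ (∀ w, w * x = 0 → w * e = 0) ∧ (∀ w, x * w = 0 → e * w = 0) := by
  have hH : ∀ y : A, (∀ n, y ∈ V O A n) → y = 0 := by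
    intro y hy
    refine IsHausdorff.haus' (I := maximalIdeal O) (M := A) y fun n => ?_
    rw [SModEq.sub_mem, sub_zero]
    exact hy n
  have hx0 : f (x ^ 2 - x) = 0 := by rw [map_sub, map_pow, pow_two, hx, sub_self]
  obtain ⟨M, hM⟩ := hJ _ hx0
  -- the evaluated Newton sequence
  let F : ℕ → A := fun n => aeval x (NE (M * n))
  have hz : ∀ n, ∀ c : A, (x ^ 2 - x) ^ (2 ^ (M * n)) * c ∈ V O A n := by
    intro n c
    refine V_right c (V_pow' hM ?_)
    exact Nat.lt_two_pow_self.le
  have hFz : ∀ n, F n ^ 2 - F n ∈ V O A n := by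
    intro n
    obtain ⟨c, hc⟩ := NE_idem (M * n)
    have h1 := congrArg (aeval x) hc
    rw [map_sub, map_pow, map_mul, map_pow, map_sub, map_pow, aeval_X] at h1
    show aeval x (NE (M * n)) ^ 2 - aeval x (NE (M * n)) ∈ V O A n
    rw [h1]
    exact hz n _
  have hFs : ∀ n, F (n + 1) - F n ∈ V O A n := by
    intro n
    obtain ⟨c, hc⟩ := NE_cauchy (show M * n ≤ M * (n + 1) from Nat.mul_le_mul_left _ (Nat.le_succ n))
    have h1 := congrArg (aeval x) hc
    rw [map_sub, map_mul, map_pow, map_sub, map_pow, aeval_X] at h1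
    show aeval x (NE (M * (n + 1))) - aeval x (NE (M * n)) ∈ V O A n
    rw [h1]
    exact hz n _
  have hFf : ∀ n, f (F n) = f x := by
    intro n
    obtain ⟨c, hc⟩ := NE_cauchy (Nat.zero_le (M * n))
    have h1 := congrArg (aeval x) hc
    rw [map_sub, map_mul, map_pow, map_sub, map_pow, aeval_X] at h1
    have h2 : (aeval x) (NE 0) = x := by simp only [NE, aeval_X]
    rw [h2, pow_zero, pow_one] at h1
    have h3 := congrArg f h1
    rw [map_sub, map_mul, hx0, zero_mul, sub_eq_zero] at h3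
    exact h3
  have hFX : ∀ n, ∃ c, F n = x * c ∧ F n = c * x := by
    intro n
    obtain ⟨c, hc⟩ := NE_X (M * n)
    refine ⟨aeval x c, ?_, ?_⟩
    · show aeval x (NE (M * n)) = _
      rw [hc, map_mul, aeval_X]
    · show aeval x (NE (M * n)) = _
      rw [hc, mul_comm, map_mul, aeval_X]
  obtain ⟨e, he⟩ := limit F hFs
  refine ⟨e, ?_, ?_, ?_, ?_⟩
  · refine V_sub hH fun n => ?_
    have h1 : e * e - e = e * (e - F n) + (e - F n) * F n + (F n ^ 2 - F n) - (e - F n) := by
      noncomm_ring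
    rw [h1]
    exact Submodule.sub_mem _ (Submodule.add_mem _ (Submodule.add_mem _ (V_left _ (he n)) (V_right _ (he n)))
      (hFz n)) (he n)
  · -- the kernel of f is closed
    let J : Submodule O A :=
      { carrier := {y | f y = 0}
        add_mem' := by
          intro a b ha hb
          show f (a + b) = 0
          rw [map_add, show f a = 0 from ha, show f b = 0 from hb, add_zero]
        zero_mem' := map_zero f
        smul_mem' := by
          intro c a ha
          show f (c • a) = 0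
          rw [Algebra.smul_def, map_mul, show f a = 0 from ha, mul_zero] }
    have h1 : J.mkQ (e - x) = 0 := by
      refine IsHausdorff.haus' (I := maximalIdeal O) (M := A ⧸ J) _ fun n => ?_
      rw [SModEq.sub_mem, sub_zero]
      have h2 : J.mkQ (e - x) = J.mkQ (e - F n) := by
        rw [← sub_eq_zero, ← map_sub, Submodule.mkQ_apply, Submodule.Quotient.mk_eq_zero]
        show f (e - x - (e - F n)) = 0
        rw [map_sub, map_sub, map_sub, hFf n, sub_self]
      rw [h2]
      have h3 : Submodule.map J.mkQ (V O A n) ≤ maximalIdeal O ^ n • ⊤ := by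
        rw [V, Submodule.map_smul'']
        exact Submodule.smul_mono le_rfl le_top
      exact h3 ⟨_, he n, rfl⟩
    rw [Submodule.mkQ_apply, Submodule.Quotient.mk_eq_zero] at h1
    have h2 : f (e - x) = 0 := h1
    rw [map_sub, sub_eq_zero] at h2
    exact h2
  · intro w hw
    refine hH _ fun n => ?_
    obtain ⟨c, hc, -⟩ := hFX n
    have h1 : w * e = w * (e - F n) := by
      rw [mul_sub, hc, ← mul_assoc w x, hw, zero_mul, sub_zero]
    rw [h1]
    exact V_left _ (he n)
  · intro w hw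
    refine hH _ fun n => ?_
    obtain ⟨c, -, hc⟩ := hFX n
    have h1 : e * w = (e - F n) * w := by
      rw [sub_mul, hc, mul_assoc c x, hw, mul_zero, sub_zero]
    rw [h1]
    exact V_right _ (he n)

/-- lifting of orthogonal families -/
theorem lift_orth [IsNoetherianRing O] [IsAdicComplete (maximalIdeal O) O] [Module.Finite O A] {K : Type}
    [DecidableEq K] (hf : Function.Surjective f)
    (hJ : ∀ x, f x = 0 → ∃ M : ℕ, x ^ M ∈ V O A 1) (ε : K → B) (hε : ∀ a, ε a * ε a = ε a)
    (hε' : ∀ a b, a ≠ b → ε a * ε b = 0) (s : Finset K) :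
    ∃ e : K → A, (∀ a ∈ s, e a * e a = e a) ∧ (∀ a ∈ s, f (e a) = ε a) ∧
      ∀ a ∈ s, ∀ b ∈ s, a ≠ b → e a * e b = 0 := by
  induction s using Finset.induction_on with
  | empty => exact ⟨fun _ => 0, by simp, by simp, by simp⟩
  | insert c s hc ih =>
    obtain ⟨e, he1, he2, he3⟩ := ih
    obtain ⟨x, hx⟩ := hf (ε c)
    have hl : ∀ a ∈ s, e a * ∑ b ∈ s, e b = e a := by
      intro a ha
      rw [Finset.mul_sum, Finset.sum_eq_single_of_mem a ha, he1 a ha]
      intro b hb hba
      exact he3 a ha b hb (Ne.symm hba)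
    have hr : ∀ a ∈ s, (∑ b ∈ s, e b) * e a = e a := by
      intro a ha
      rw [Finset.sum_mul, Finset.sum_eq_single_of_mem a ha, he1 a ha]
      intro b hb hba
      exact he3 b hb a ha hba
    have hfy : f ((1 - ∑ b ∈ s, e b) * x * (1 - ∑ b ∈ s, e b)) = ε c := by
      have h1 : f (∑ b ∈ s, e b) = ∑ b ∈ s, ε b := by
        rw [map_sum]
        exact Finset.sum_congr rfl he2
      have h2 : (∑ b ∈ s, ε b) * ε c = 0 := by
        rw [Finset.sum_mul]
        refine Finset.sum_eq_zero fun b hb => hε' _ _ ?_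
        rintro rfl
        exact hc hb
      have h3 : ε c * (∑ b ∈ s, ε b) = 0 := by
        rw [Finset.mul_sum]
        refine Finset.sum_eq_zero fun b hb => hε' _ _ ?_
        rintro rfl
        exact hc hb
      rw [map_mul, map_mul, map_sub, map_one, h1, hx, sub_mul, h2, one_mul, sub_zero, mul_sub, h3, mul_one, sub_zero]
    obtain ⟨e', h1, h2, h3, h4⟩ := lift_idem hJ (x := (1 - ∑ b ∈ s, e b) * x * (1 - ∑ b ∈ s, e b)) (by
      rw [hfy, hε])
    rw [hfy] at h2
    have h3' : ∀ a ∈ s, e a * e' = 0 := by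
      intro a ha
      refine h3 _ ?_
      have h5 : e a * (1 - ∑ b ∈ s, e b) = 0 := by rw [mul_sub, mul_one, hl a ha, sub_self]
      rw [← mul_assoc, ← mul_assoc, h5, zero_mul, zero_mul]
    have h4' : ∀ a ∈ s, e' * e a = 0 := by
      intro a ha
      refine h4 _ ?_
      have h5 : (1 - ∑ b ∈ s, e b) * e a = 0 := by rw [sub_mul, one_mul, hr a ha, sub_self]
      rw [mul_assoc, h5, mul_zero]
    have hne : ∀ a ∈ s, a ≠ c := by
      rintro a ha rfl
      exact hc ha
    refine ⟨Function.update e c e', ?_, ?_, ?_⟩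
    · intro a ha
      rcases Finset.mem_insert.mp ha with ha' | ha'
      · rw [ha', Function.update_self, h1]
      · rw [Function.update_of_ne (hne a ha'), he1 a ha']
    · intro a ha
      rcases Finset.mem_insert.mp ha with ha' | ha'
      · rw [ha', Function.update_self, h2]
      · rw [Function.update_of_ne (hne a ha'), he2 a ha']
    · intro a ha b hb hab
      rcases Finset.mem_insert.mp ha with ha' | ha'
      · rcases Finset.mem_insert.mp hb with hb' | hb'
        · exact absurd (ha'.trans hb'.symm) hab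
        · rw [ha', Function.update_self, Function.update_of_ne (hne b hb'), h4' b hb']
      · rcases Finset.mem_insert.mp hb with hb' | hb'
        · rw [hb', Function.update_self, Function.update_of_ne (hne a ha'), h3' a ha']
        · rw [Function.update_of_ne (hne a ha'), Function.update_of_ne (hne b hb'), he3 a ha' b hb' hab]

/-- lifting of an equivalence of idempotents -/
theorem lift_equiv [Module.Finite O A] (hf : Function.Surjective f)
    (hJ : ∀ x, f x = 0 → ∃ M : ℕ, x ^ M ∈ V O A 1) {e e' : A} (he : e * e = e) (he' : e' * e' = e') {p q : B}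
    (hp : f e * p = p) (hp' : p * f e' = p) (hq : f e' * q = q) (hq' : q * f e = q) (hpq : p * q = f e)
    (hqp : q * p = f e') :
    ∃ u v : A, f u = p ∧ f v = q ∧ e * u = u ∧ u * e' = u ∧ e' * v = v ∧ v * e = v ∧ u * v = e ∧ v * u = e' := by
  obtain ⟨p0, hp0⟩ := hf p
  obtain ⟨q0, hq0⟩ := hf q
  -- first approximations
  obtain ⟨u0, hu0⟩ : ∃ u0, u0 = e * p0 * e' := ⟨_, rfl⟩
  obtain ⟨v, hv⟩ : ∃ v, v = e' * q0 * e := ⟨_, rfl⟩
  have hfu0 : f u0 = p := by rw [hu0, map_mul, map_mul, hp0, hp, hp']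
  have hfv : f v = q := by rw [hv, map_mul, map_mul, hq0, hq, hq']
  have hu1 : e * u0 = u0 := by rw [hu0, ← mul_assoc, ← mul_assoc, he]
  have hu2 : u0 * e' = u0 := by rw [hu0, mul_assoc, he']
  have hv1 : e' * v = v := by rw [hv, ← mul_assoc, ← mul_assoc, he']
  have hv2 : v * e = v := by rw [hv, mul_assoc, he]
  obtain ⟨z, hz⟩ : ∃ z, z = e - u0 * v := ⟨_, rfl⟩
  have hfz : f z = 0 := by rw [hz, map_sub, map_mul, hfu0, hfv, hpq, sub_self]
  have hez : e * z = z := by rw [hz, mul_sub, he, ← mul_assoc, hu1]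
  have hze : z * e = z := by rw [hz, sub_mul, he, mul_assoc, hv2]
  obtain ⟨w, hw⟩ := unit_one_sub hJ hfz
  have ht1 : (1 - z) * (↑w⁻¹ : A) = 1 := by rw [← hw, Units.mul_inv]
  have ht2 : (↑w⁻¹ : A) * (1 - z) = 1 := by rw [← hw, Units.inv_mul]
  obtain ⟨t, ht⟩ : ∃ t : A, t = ↑w⁻¹ := ⟨_, rfl⟩
  rw [← ht] at ht1 ht2
  have hft : f t = 1 := by
    have h1 := congrArg f ht2
    rw [map_mul, map_sub, hfz, map_one, sub_zero, mul_one] at h1
    exact h1
  have huv : u0 * v = (1 - z) * e := by
    rw [sub_mul, one_mul, hze, hz]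
    abel
  have hu : e * t * u0 * v = e := by
    rw [mul_assoc _ u0 v, huv, ← mul_assoc, mul_assoc e t, ht2, mul_one, he]
  have h1 : f (e * t * u0) = p := by rw [map_mul, map_mul, hft, mul_one, hfu0, hp]
  have hvu : v * (e * t * u0) = e' := by
    have h2 : f (e' - v * (e * t * u0)) = 0 := by
      rw [map_sub, map_mul, h1, hfv, hqp, sub_self]
    have h3 : e' * (v * (e * t * u0)) = v * (e * t * u0) := by
      rw [← mul_assoc, hv1]
    have h4 : v * (e * t * u0) * e' = v * (e * t * u0) := by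
      rw [mul_assoc v, mul_assoc (e * t), hu2]
    have h5 : v * (e * t * u0) * (v * (e * t * u0)) = v * (e * t * u0) := by
      calc v * (e * t * u0) * (v * (e * t * u0)) = v * (e * t * u0 * v) * (e * t * u0) := by
            simp only [mul_assoc]
        _ = v * (e * t * u0) := by rw [hu, hv2]
    have h6 : e' - v * (e * t * u0) = 0 := by
      refine idem_zero hJ h2 ?_
      rw [sub_mul, mul_sub, mul_sub, he', h3, h4, h5, sub_self, sub_zero]
    exact (sub_eq_zero.mp h6).symm
  refine ⟨e * t * u0, v, h1, hfv, ?_, ?_, hv1, hv2, hu, hvu⟩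
  · rw [← mul_assoc, ← mul_assoc, he]
  · rw [mul_assoc, hu2]

end lifting

theorem lift : Pool.Agent.H499.CD.S_LIFT := by
  intro O A R I _ _ _ _ _ _ _ _ _ _ d f hf hJ'
  have hJ : ∀ x, f x = 0 → ∃ M : ℕ, x ^ M ∈ V O A 1 := by
    intro x hx
    obtain ⟨M, hM⟩ := hJ' x hx
    refine ⟨M, ?_⟩
    rw [V, pow_one]
    exact hM
  -- the standard matrix units
  let S : ∀ i, Fin (d i) → Fin (d i) → (∀ i, Matrix (Fin (d i)) (Fin (d i)) R) :=
    fun i a b => Pi.single i (Matrix.single a b 1)
  have hS1 : ∀ i a b c, S i a b * S i b c = S i a c := by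
    intro i a b c
    show Pi.single i _ * Pi.single i _ = Pi.single i _
    rw [← Pi.single_mul, Matrix.single_mul_single_same, one_mul]
  have hS2 : ∀ i a b c e, b ≠ c → S i a b * S i c e = 0 := by
    intro i a b c e hbc
    show Pi.single i _ * Pi.single i _ = 0
    rw [← Pi.single_mul, Matrix.single_mul_single_of_ne _ _ _ _ hbc, Pi.single_zero]
  have hS3 : ∀ i j, i ≠ j → ∀ a b c e, S i a b * S j c e = 0 := by
    intro i j hij a b c e
    funext l
    show S i a b l * S j c e l = 0
    by_cases hl : l = i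
    · subst hl
      rw [show S j c e l = 0 from Pi.single_eq_of_ne hij _, mul_zero]
    · rw [show S i a b l = 0 from Pi.single_eq_of_ne hl _, zero_mul]
  have hS4 : ∑ i, ∑ a, S i a a = 1 := by
    funext l
    rw [Finset.sum_apply, Finset.sum_eq_single l]
    · rw [Finset.sum_apply]
      have h1 : ∀ a, S l a a l = Matrix.single a a 1 := fun a => Pi.single_eq_same _ _
      rw [Finset.sum_congr rfl fun a _ => h1 a]
      exact Matrix.sum_single_one
    · intro i _ hi
      rw [Finset.sum_apply]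
      exact Finset.sum_eq_zero fun a _ => Pi.single_eq_of_ne (Ne.symm hi) _
    · intro h
      exact absurd (Finset.mem_univ _) h
  -- lift the diagonal
  obtain ⟨e0, h1, h2, h3⟩ := lift_orth (K := Σ i, Fin (d i)) hf hJ (fun x => S x.1 x.2 x.2)
    (fun x => hS1 _ _ _ _) (by
      rintro ⟨i, a⟩ ⟨j, b⟩ hab
      by_cases hij : i = j
      · subst hij
        refine hS2 _ _ _ _ _ ?_
        rintro rfl
        exact hab rfl
      · exact hS3 _ _ hij _ _ _ _) Finset.univ
  obtain ⟨e, he⟩ : ∃ e : ∀ i, Fin (d i) → A, ∀ i a, e i a = e0 ⟨i, a⟩ := ⟨fun i a => e0 ⟨i, a⟩, fun _ _ => rfl⟩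
  have he1 : ∀ i a, e i a * e i a = e i a := fun i a => by rw [he, h1 _ (Finset.mem_univ _)]
  have he2 : ∀ i a, f (e i a) = S i a a := fun i a => by rw [he, h2 _ (Finset.mem_univ _)]
  have he3 : ∀ i a b, a ≠ b → e i a * e i b = 0 := by
    intro i a b hab
    rw [he, he]
    refine h3 _ (Finset.mem_univ _) _ (Finset.mem_univ _) ?_
    intro h
    exact hab (eq_of_heq (Sigma.mk.inj h).2)
  have he4 : ∀ i j a b, i ≠ j → e i a * e j b = 0 := by
    intro i j a b hij
    rw [he, he]
    refine h3 _ (Finset.mem_univ _) _ (Finset.mem_univ _) ?_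
    intro h
    exact hij (Sigma.mk.inj h).1
  have he5 : ∑ i, ∑ a, e i a = 1 := by
    have hs : (∑ i, ∑ a, e i a) = ∑ x : Σ i, Fin (d i), e0 x := by
      rw [Fintype.sum_sigma]
      exact Finset.sum_congr rfl fun i _ => Finset.sum_congr rfl fun a _ => he i a
    have h5 : (1 - ∑ x : Σ i, Fin (d i), e0 x) = 0 := by
      refine idem_zero hJ ?_ ?_
      · rw [← hs, map_sub, map_one, map_sum]
        have h6 : ∀ i, f (∑ a, e i a) = ∑ a, S i a a := by
          intro i
          rw [map_sum]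
          exact Finset.sum_congr rfl fun a _ => he2 i a
        rw [Finset.sum_congr rfl fun i _ => h6 i, hS4, sub_self]
      · have h7 : (∑ x : Σ i, Fin (d i), e0 x) * (∑ x : Σ i, Fin (d i), e0 x) = ∑ x : Σ i, Fin (d i), e0 x := by
          rw [Finset.sum_mul]
          refine Finset.sum_congr rfl fun x _ => ?_
          rw [Finset.mul_sum, Finset.sum_eq_single_of_mem x (Finset.mem_univ _), h1 x (Finset.mem_univ _)]
          intro y _ hy
          exact h3 x (Finset.mem_univ _) y (Finset.mem_univ _) (Ne.symm hy)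
        rw [sub_mul, one_mul, mul_sub (∑ x : Σ i, Fin (d i), e0 x), mul_one, h7, sub_self, sub_zero]
    rw [hs]
    exact (sub_eq_zero.mp h5).symm
  -- the base point
  have key : ∀ i (a : Fin (d i)), ∃ u v : A, f u = S i ⟨0, a.pos⟩ a ∧ f v = S i a ⟨0, a.pos⟩ ∧
      e i ⟨0, a.pos⟩ * u = u ∧ u * e i a = u ∧ e i a * v = v ∧ v * e i ⟨0, a.pos⟩ = v ∧
      u * v = e i ⟨0, a.pos⟩ ∧ v * u = e i a := by
    intro i a
    refine lift_equiv hf hJ (he1 _ _) (he1 _ _) ?_ ?_ ?_ ?_ ?_ ?_
    · rw [he2, hS1]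
    · rw [he2, hS1]
    · rw [he2, hS1]
    · rw [he2, hS1]
    · rw [he2, hS1]
    · rw [he2, hS1]
  choose u v k1 k2 k3 k4 k5 k6 k7 k8 using key
  refine ⟨fun i a b => v i a * u i b, ?_, ?_, ?_, ?_, ?_⟩
  · intro i a b
    show f (v i a * u i b) = S i a b
    rw [map_mul, k1, k2, hS1]
  · intro i a b c
    show v i a * u i b * (v i b * u i c) = v i a * u i c
    calc v i a * u i b * (v i b * u i c) = v i a * (u i b * v i b) * u i c := by simp only [mul_assoc]
      _ = v i a * u i c := by rw [k7, k6]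
  · intro i a b c g hbc
    show v i a * u i b * (v i c * u i g) = 0
    rw [← k4 i b, ← k5 i c]
    calc v i a * (u i b * e i b) * (e i c * v i c * u i g) = v i a * u i b * (e i b * e i c) * (v i c * u i g) := by
          simp only [mul_assoc]
      _ = 0 := by rw [he3 i b c hbc, mul_zero, zero_mul]
  · intro i j hij a b c g
    show v i a * u i b * (v j c * u j g) = 0
    rw [← k4 i b, ← k5 j c]
    calc v i a * (u i b * e i b) * (e j c * v j c * u j g) = v i a * u i b * (e i b * e j c) * (v j c * u j g) := by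
          simp only [mul_assoc]
      _ = 0 := by rw [he4 i j b c hij, mul_zero, zero_mul]
  · rw [← he5]
    exact Finset.sum_congr rfl fun i _ => Finset.sum_congr rfl fun a _ => k8 i a

end Pool.Agent.H181.CD

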