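import Pool.Agent.H499.CD.Stm

/-! # MEM: the extension is a subquotient of a sum of reductions -/

set_option autoImplicit false

namespace Pool.Agent.H548.CD.MEM

open Matrix IsLocalRing Pool.Agent.H499.CD

section gen

variable {O G : Type} [CommRing O] [Group G]

/-- a subquotient -/
lemma subquot {Pc : Cls O G} (hP : Closed Pc) {L W E : Type} [AddCommGroup L] [Module O L]
    [AddCommGroup W] [Module O W] [AddCommGroup E] [Module O E] (lam : Representation O G L)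
    (τ : Representation O G W) (ε : Representation O G E) (Ψ : L →ₗ[O] W) (f : L →ₗ[O] E)
    (hΨ : ∀ g v, Ψ (lam g v) = τ g (Ψ v)) (hf : ∀ g v, f (lam g v) = ε g (f v))
    (hs : Function.Surjective f) (hk : ∀ v, Ψ v = 0 → f v = 0) (hW : Pc W τ) : Pc E ε := by
  have hst : ∀ g, ∀ w ∈ LinearMap.range Ψ, τ g w ∈ LinearMap.range Ψ := by
    rintro g _ ⟨v, rfl⟩
    exact ⟨lam g v, hΨ g v⟩
  let ν : Representation O G (LinearMap.range Ψ) :=
    { toFun := fun g => (τ g).restrict (hst g)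
      map_one' := by
        refine LinearMap.ext fun w => Subtype.ext ?_
        rw [LinearMap.coe_restrict_apply, map_one]
        rfl
      map_mul' := fun g h => by
        refine LinearMap.ext fun w => Subtype.ext ?_
        rw [LinearMap.coe_restrict_apply, map_mul]
        rfl }
  have h1 : Pc (LinearMap.range Ψ) ν := hP.sub _ _ ν τ (LinearMap.range Ψ).subtype
    (fun g v => rfl) (Submodule.subtype_injective _) hW
  have hk' : LinearMap.ker Ψ ≤ LinearMap.ker f := fun v hv =>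
    LinearMap.mem_ker.2 (hk v (LinearMap.mem_ker.1 hv))
  let q : LinearMap.range Ψ →ₗ[O] E :=
    ((LinearMap.ker Ψ).liftQ f hk') ∘ₗ (Ψ.quotKerEquivRange.symm : LinearMap.range Ψ →ₗ[O] _)
  have hq : ∀ v : L, q ⟨Ψ v, v, rfl⟩ = f v := by
    intro v
    have h2 : Ψ.quotKerEquivRange.symm ⟨Ψ v, v, rfl⟩ = Submodule.Quotient.mk v := by
      rw [LinearEquiv.symm_apply_eq]
      rfl
    show (LinearMap.ker Ψ).liftQ f hk' (Ψ.quotKerEquivRange.symm ⟨Ψ v, v, rfl⟩) = f v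
    rw [h2]
    rfl
  refine hP.quot _ _ ν ε q ?_ ?_ h1
  · rintro g ⟨_, v, rfl⟩
    have h3 : ν g ⟨Ψ v, v, rfl⟩ = ⟨Ψ (lam g v), lam g v, rfl⟩ := Subtype.ext (hΨ g v).symm
    rw [h3, hq, hq, hf]
  · intro e
    obtain ⟨v, rfl⟩ := hs e
    exact ⟨⟨Ψ v, v, rfl⟩, hq v⟩

/-- the product of representations -/
def piRep {ι : Type} {V : ι → Type} [∀ i, AddCommGroup (V i)] [∀ i, Module O (V i)]
    (ρ : ∀ i, Representation O G (V i)) : Representation O G (∀ i, V i) where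
  toFun g := LinearMap.pi fun i => (ρ i g) ∘ₗ LinearMap.proj i
  map_one' := by
    refine LinearMap.ext fun w => funext fun i => ?_
    show ρ i 1 (w i) = w i
    rw [map_one]; rfl
  map_mul' g h := by
    refine LinearMap.ext fun w => funext fun i => ?_
    show ρ i (g * h) (w i) = ρ i g (ρ i h (w i))
    rw [map_mul]; rfl

end gen

section main

variable {O G K I : Type} [CommRing O] [IsLocalRing O] [Group G] [Fintype I] [DecidableEq I]

lemma red_mul {a b c : Type} [Fintype b] (n : ℕ) (A : Matrix a b O) (B : Matrix b c O) :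
    red n (A * B) = red n A * red n B := Matrix.map_mul

lemma red_one {a : Type} [DecidableEq a] (n : ℕ) : red n (1 : Matrix a a O) = 1 :=
  Matrix.map_one _ (map_zero _) (map_one _)

lemma red_mulVec {a b : Type} [Fintype b] (n : ℕ) (A : Matrix a b O) (v : b → O) (x : a) :
    (Ideal.Quotient.mk (maximalIdeal O ^ n)) ((A *ᵥ v) x) =
      (red n A *ᵥ fun y => Ideal.Quotient.mk (maximalIdeal O ^ n) (v y)) x := by
  simp only [Matrix.mulVec, dotProduct, red, Matrix.map_apply, map_sum, map_mul]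

variable {n : ℕ} {d : I → ℕ} {ρ : ∀ i, G →* Matrix (Fin (d i)) (Fin (d i)) O}
  {R : G →* Matrix (Σ i, Fin (d i)) (Σ i, Fin (d i)) (K → O)} {T : Subalgebra O (K → O)}
  {φ : T →ₐ[O] Rn O n} {a : I → I → Submodule O (K → O)}

omit [Fintype I] [DecidableEq I] in
/-- `h (t y) = φ t h y` -/
lemma wm_smul {i j : I} {h : a i j →ₗ[O] Rn O n} (hh : h ∈ Wm T φ a i j) (t : T)
    (y y' : a i j) (hy : (y' : K → O) = (t : K → O) * (y : K → O)) : h y' = φ t * h y := by
  obtain ⟨c, hc⟩ := Ideal.Quotient.mk_surjective (φ t)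
  have h1 : φ (t - algebraMap O T c) = 0 := by
    rw [map_sub, AlgHom.commutes, ← hc]
    exact sub_self _
  have h2 := hh.2 _ h1 y (y' - c • y) (by
    rw [Submodule.coe_sub, Submodule.coe_smul, hy]
    show (t : K → O) * (y : K → O) - c • (y : K → O) =
      ((t : K → O) - algebraMap O (K → O) c) * (y : K → O)
    rw [sub_mul, Algebra.smul_def])
  rw [map_sub, map_smul, sub_eq_zero] at h2
  rw [h2, ← hc]
  exact Algebra.smul_def c (h y)

/-- the representation on the columns of type `j` -/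
def colRep (hG : GMA T φ a) (hR : GRep ρ R T φ a) (j : I) :
    Representation O G (∀ x : (Σ i, Fin (d i)), a x.1 j) where
  toFun g :=
    { toFun := fun v x => ⟨(R g *ᵥ fun y => (v y : K → O)) x, by
        refine Submodule.sum_mem _ fun y _ => ?_
        exact hG.mul _ _ _ _ _ (hR.mem g x y) (v y).2⟩
      map_add' := fun v w => by
        funext x
        apply Subtype.ext
        show (R g *ᵥ fun y => (v y : K → O) + (w y : K → O)) x = _
        exact congrFun (Matrix.mulVec_add (R g) (fun y => (v y : K → O)) (fun y => (w y : K → O))) x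
      map_smul' := fun c v => by
        funext x
        apply Subtype.ext
        show (R g *ᵥ fun y => c • (v y : K → O)) x = _
        exact congrFun (Matrix.mulVec_smul (R g) c (fun y => (v y : K → O))) x }
  map_one' := by
    refine LinearMap.ext fun v => funext fun x => Subtype.ext ?_
    show (R 1 *ᵥ fun y => (v y : K → O)) x = (v x : K → O)
    rw [map_one, Matrix.one_mulVec]
  map_mul' g h := by
    refine LinearMap.ext fun v => funext fun x => Subtype.ext ?_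
    show (R (g * h) *ᵥ fun y => (v y : K → O)) x = (R g *ᵥ (R h *ᵥ fun y => (v y : K → O))) x
    rw [map_mul, Matrix.mulVec_mulVec]

/-- the map to the reduction -/
def pj (a : I → I → Submodule O (K → O)) (j : I) (m : ℕ)
    (Q : K → Matrix (Σ i, Fin (d i)) (Σ i, Fin (d i)) O) (κ : K) :
    (∀ x : (Σ i, Fin (d i)), a x.1 j) →ₗ[O] ((Σ i, Fin (d i)) → Rn O m) where
  toFun v := red m (Q κ) *ᵥ fun x => Ideal.Quotient.mk (maximalIdeal O ^ m) ((v x : K → O) κ)
  map_add' v w := by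
    rw [← Matrix.mulVec_add]
    rfl
  map_smul' c v := by
    rw [RingHom.id_apply, ← Matrix.mulVec_smul]
    rfl

lemma pj_eqv (hG : GMA T φ a) (hR : GRep ρ R T φ a) (j : I) (m : ℕ)
    {r : K → G →* Matrix (Σ i, Fin (d i)) (Σ i, Fin (d i)) O}
    {P Q : K → Matrix (Σ i, Fin (d i)) (Σ i, Fin (d i)) O} (hQP : ∀ κ, Q κ * P κ = 1)
    (hPQr : ∀ g x y κ, R g x y κ = (P κ * r κ g * Q κ) x y) (κ : K) (g : G)
    (v : ∀ x : (Σ i, Fin (d i)), a x.1 j) :
    pj a j m Q κ (colRep hG hR j g v) = modRep m (r κ) g (pj a j m Q κ v) := by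
  show red m (Q κ) *ᵥ (fun x => Ideal.Quotient.mk (maximalIdeal O ^ m)
      (((R g *ᵥ fun y => (v y : K → O)) x) κ)) =
    red m (r κ g) *ᵥ (red m (Q κ) *ᵥ fun x => Ideal.Quotient.mk (maximalIdeal O ^ m) ((v x : K → O) κ))
  have h1 : (fun x => Ideal.Quotient.mk (maximalIdeal O ^ m)
      (((R g *ᵥ fun y => (v y : K → O)) x) κ)) =
      red m (P κ * r κ g * Q κ) *ᵥ fun x => Ideal.Quotient.mk (maximalIdeal O ^ m) ((v x : K → O) κ) := by
    funext x
    rw [← red_mulVec]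
    congr 1
    show (∑ y, R g x y * (v y : K → O)) κ = ∑ y, (P κ * r κ g * Q κ) x y * (v y : K → O) κ
    rw [Finset.sum_apply]
    refine Finset.sum_congr rfl fun y _ => ?_
    rw [Pi.mul_apply, hPQr]
  rw [h1, Matrix.mulVec_mulVec, Matrix.mulVec_mulVec, ← red_mul, ← red_mul]
  congr 2
  rw [← Matrix.mul_assoc, ← Matrix.mul_assoc, hQP, Matrix.one_mul]

lemma pj_ker (j : I) (m : ℕ) {P Q : K → Matrix (Σ i, Fin (d i)) (Σ i, Fin (d i)) O}
    (hPQ : ∀ κ, P κ * Q κ = 1) (κ : K) (v : ∀ x : (Σ i, Fin (d i)), a x.1 j)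
    (hv : pj a j m Q κ v = 0) (x : (Σ i, Fin (d i))) : (v x : K → O) κ ∈ maximalIdeal O ^ m := by
  have h1 : red m (P κ) *ᵥ (red m (Q κ) *ᵥ fun x => Ideal.Quotient.mk (maximalIdeal O ^ m)
      ((v x : K → O) κ)) = 0 := by
    have : (red m (Q κ) *ᵥ fun x => Ideal.Quotient.mk (maximalIdeal O ^ m) ((v x : K → O) κ)) = 0 := hv
    rw [this, Matrix.mulVec_zero]
  rw [Matrix.mulVec_mulVec, ← red_mul, hPQ, red_one, Matrix.one_mulVec] at h1
  exact Ideal.Quotient.eq_zero_iff_mem.1 (congrFun h1 x)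

end main

section ar

variable {O K : Type} [CommRing O] [IsLocalRing O] [IsNoetherianRing O] [Fintype K]

/-- Artin-Rees -/
lemma artin_rees (n : ℕ) (N : Submodule O (K → O)) : ∃ m : ℕ, ∀ m' ≥ m, ∀ y : N,
    (∀ κ, (y : K → O) κ ∈ maximalIdeal O ^ m') → ∀ h : N →ₗ[O] Rn O n, h y = 0 := by
  classical
  obtain ⟨k, hk⟩ := Ideal.exists_pow_inf_eq_pow_smul (maximalIdeal O) N
  refine ⟨n + k, fun m' hm' y hy h => ?_⟩
  have h1 : (y : K → O) ∈ maximalIdeal O ^ (n + k) • (⊤ : Submodule O (K → O)) ⊓ N := by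
    refine ⟨?_, y.2⟩
    have h2 : (y : K → O) = ∑ κ, (y : K → O) κ • (Pi.single κ 1 : K → O) := by
      funext κ
      rw [Finset.sum_apply]
      simp [Pi.single_apply]
    rw [h2]
    refine Submodule.sum_mem _ fun κ _ => ?_
    exact Submodule.smul_mem_smul (Ideal.pow_le_pow_right hm' (hy κ)) trivial
  rw [hk (n + k) (Nat.le_add_left _ _), Nat.add_sub_cancel] at h1
  have h3 : (y : K → O) ∈ maximalIdeal O ^ n • N := by
    have h4 : maximalIdeal O ^ n • (maximalIdeal O ^ k • (⊤ : Submodule O (K → O)) ⊓ N) ≤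
        maximalIdeal O ^ n • N := Submodule.smul_mono le_rfl inf_le_right
    exact h4 h1
  have h5 : y ∈ maximalIdeal O ^ n • (⊤ : Submodule O N) := by
    have h6 : Submodule.map N.subtype (maximalIdeal O ^ n • (⊤ : Submodule O N)) =
        maximalIdeal O ^ n • N := by
      rw [Submodule.map_smul'', Submodule.map_top, Submodule.range_subtype]
    rw [← h6] at h3
    obtain ⟨z, hz, hzy⟩ := h3
    have : z = y := Subtype.ext hzy
    rwa [← this]
  refine Submodule.smul_induction_on h5 ?_ ?_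
  · intro c hc z _
    rw [map_smul, Algebra.smul_def]
    have : algebraMap O (Rn O n) c = 0 := Ideal.Quotient.eq_zero_iff_mem.2 hc
    rw [this, zero_mul]
  · intro z z' hz hz'
    rw [map_add, hz, hz', add_zero]

end ar

section fin

variable {O G K I : Type} [CommRing O] [IsLocalRing O] [Group G] [Fintype I] [DecidableEq I]
  {n : ℕ} {d : I → ℕ} {ρ : ∀ i, G →* Matrix (Fin (d i)) (Fin (d i)) O}
  {R : G →* Matrix (Σ i, Fin (d i)) (Σ i, Fin (d i)) (K → O)} {T : Subalgebra O (K → O)}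
  {φ : T →ₐ[O] Rn O n} {a : I → I → Submodule O (K → O)}

omit [Fintype I] [DecidableEq I] in
/-- `φ` as a map on `a j j` -/
def phj (hG : GMA T φ a) (j : I) : a j j →ₗ[O] Rn O n where
  toFun x := φ ⟨x, (hG.diag j _).1 x.2⟩
  map_add' x y := by
    rw [← map_add]
    rfl
  map_smul' c x := by
    rw [RingHom.id_apply, ← map_smul]
    rfl

/-- the products -/
def pr (hG : GMA T φ a) {i l j : I} (u : a i l) (v : a l j) : a i j :=
  ⟨(u : K → O) * (v : K → O), hG.mul _ _ _ _ _ u.2 v.2⟩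

/-- the entries of `R` -/
def Rm (hR : GRep ρ R T φ a) (g : G) (x y : (Σ i, Fin (d i))) : a x.1 y.1 := ⟨R g x y, hR.mem g x y⟩

lemma colRep_apply (hG : GMA T φ a) (hR : GRep ρ R T φ a) (j : I) (g : G)
    (v : ∀ x : (Σ i, Fin (d i)), a x.1 j) (x : (Σ i, Fin (d i))) :
    colRep hG hR j g v x = ∑ l, ∑ s : Fin (d l), pr hG (Rm hR g x ⟨l, s⟩) (v ⟨l, s⟩) := by
  apply Subtype.ext
  show (∑ y, R g x y * (v y : K → O)) = _
  rw [Submodule.coe_sum, Fintype.sum_sigma]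
  refine Finset.sum_congr rfl fun l _ => ?_
  rw [Submodule.coe_sum]
  rfl

/-- the diagonal part -/
lemma phj_eqv (hG : GMA T φ a) (hR : GRep ρ R T φ a) (j : I) (g : G)
    (v : ∀ x : (Σ i, Fin (d i)), a x.1 j) (q : Fin (d j)) :
    phj hG j (colRep hG hR j g v ⟨j, q⟩) =
      (red n (ρ j g) *ᵥ fun s => phj hG j (v ⟨j, s⟩)) q := by
  rw [colRep_apply, map_sum, Finset.sum_eq_single j]
  · rw [map_sum]
    refine Finset.sum_congr rfl fun s _ => ?_
    have h1 : R g ⟨j, q⟩ ⟨j, s⟩ ∈ T := (hG.diag j _).1 (hR.mem g ⟨j, q⟩ ⟨j, s⟩)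
    have h2 := hR.diag g j q s h1
    show φ _ = red n (ρ j g) q s * φ ⟨(v ⟨j, s⟩ : K → O), _⟩
    have h3 : red n (ρ j g) q s = φ ⟨_, h1⟩ := h2.symm
    rw [h3, ← map_mul]
    rfl
  · intro l _ hl
    rw [map_sum]
    refine Finset.sum_eq_zero fun s _ => ?_
    exact hG.ker j l hl.symm _ _ _ (hR.mem g ⟨j, q⟩ ⟨l, s⟩) (v ⟨l, s⟩).2
  · intro h; exact absurd (Finset.mem_univ j) h

/-- the off-diagonal part -/
lemma h_eqv (hG : GMA T φ a) (hR : GRep ρ R T φ a) {i j : I} (hij : i ≠ j)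
    {h : a i j →ₗ[O] Rn O n} (hh : h ∈ Wm T φ a i j) (g : G)
    (v : ∀ x : (Σ i, Fin (d i)), a x.1 j) (p : Fin (d i)) :
    h (colRep hG hR j g v ⟨i, p⟩) =
      (red n (ρ i g) *ᵥ fun s => h (v ⟨i, s⟩)) p +
      ∑ s, h (Rm hR g ⟨i, p⟩ ⟨j, s⟩) * phj hG j (v ⟨j, s⟩) := by
  rw [colRep_apply, map_sum, Fintype.sum_eq_add i j hij]
  · congr 1
    · rw [map_sum]
      refine Finset.sum_congr rfl fun s _ => ?_
      have h1 : R g ⟨i, p⟩ ⟨i, s⟩ ∈ T := (hG.diag i _).1 (hR.mem g ⟨i, p⟩ ⟨i, s⟩)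
      have h2 := hR.diag g i p s h1
      have h3 : red n (ρ i g) p s = φ ⟨_, h1⟩ := h2.symm
      show h _ = red n (ρ i g) p s * h (v ⟨i, s⟩)
      rw [h3]
      exact wm_smul hh ⟨_, h1⟩ (v ⟨i, s⟩) _ rfl
    · rw [map_sum]
      refine Finset.sum_congr rfl fun s _ => ?_
      rw [mul_comm]
      refine wm_smul hh ⟨(v ⟨j, s⟩ : K → O), (hG.diag j _).1 (v ⟨j, s⟩).2⟩ (Rm hR g ⟨i, p⟩ ⟨j, s⟩) _ ?_
      exact mul_comm _ _
  · rintro l ⟨hl, hl'⟩
    rw [map_sum]
    refine Finset.sum_eq_zero fun s _ => ?_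
    exact hh.1 l hl hl' _ (hR.mem g ⟨i, p⟩ ⟨l, s⟩) _ (v ⟨l, s⟩).2 _ rfl

/-- the map from the pairs of columns -/
def ff (hG : GMA T φ a) {i j : I} (h : a i j →ₗ[O] Rn O n) :
    ((∀ x : (Σ i, Fin (d i)), a x.1 j) × (∀ x : (Σ i, Fin (d i)), a x.1 i)) →ₗ[O]
      (Fin (d i) → Rn O n) × (Fin (d j) → Rn O n) where
  toFun v := (fun p => h (v.1 ⟨i, p⟩) + phj hG i (v.2 ⟨i, p⟩), fun q => phj hG j (v.1 ⟨j, q⟩))
  map_add' v w := by
    refine Prod.ext (funext fun p => ?_) (funext fun q => ?_)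
    · show h (v.1 ⟨i, p⟩ + w.1 ⟨i, p⟩) + phj hG i (v.2 ⟨i, p⟩ + w.2 ⟨i, p⟩) =
        (h (v.1 ⟨i, p⟩) + phj hG i (v.2 ⟨i, p⟩)) + (h (w.1 ⟨i, p⟩) + phj hG i (w.2 ⟨i, p⟩))
      rw [map_add, map_add]
      abel
    · exact map_add (phj hG j) _ _
  map_smul' c v := by
    refine Prod.ext (funext fun p => ?_) (funext fun q => ?_)
    · show h (c • v.1 ⟨i, p⟩) + phj hG i (c • v.2 ⟨i, p⟩) =
        c • (h (v.1 ⟨i, p⟩) + phj hG i (v.2 ⟨i, p⟩))
      rw [map_smul, map_smul, smul_add]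
    · exact map_smul (phj hG j) _ _

/-- a column with prescribed entries of type `j` -/
lemma exists_col (hG : GMA T φ a) (j : I) (u : Fin (d j) → Rn O n) :
    ∃ v : ∀ x : (Σ i, Fin (d i)), a x.1 j, (∀ q, phj hG j (v ⟨j, q⟩) = u q) ∧
      ∀ x : (Σ i, Fin (d i)), x.1 ≠ j → v x = 0 := by
  choose t ht using fun q => Ideal.Quotient.mk_surjective (u q)
  have hm : ∀ (l : I) (_ : l = j) (c : O), algebraMap O (K → O) c ∈ a l j := by
    rintro l rfl c
    exact (hG.diag l _).2 (T.algebraMap_mem c)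
  refine ⟨fun x => if hx : x.1 = j then
    ⟨algebraMap O (K → O) (t (hx ▸ x.2)), hm _ hx _⟩ else 0, ?_, ?_⟩
  · intro q
    have h1 : (if hx : (⟨j, q⟩ : Σ i, Fin (d i)).1 = j then
      (⟨algebraMap O (K → O) (t (hx ▸ (⟨j, q⟩ : Σ i, Fin (d i)).2)), hm _ hx _⟩ :
        a (⟨j, q⟩ : Σ i, Fin (d i)).1 j) else 0) = ⟨algebraMap O (K → O) (t q), hm _ rfl _⟩ :=
      dif_pos rfl
    show phj hG j (if hx : (⟨j, q⟩ : Σ i, Fin (d i)).1 = j then
      (⟨algebraMap O (K → O) (t (hx ▸ (⟨j, q⟩ : Σ i, Fin (d i)).2)), hm _ hx _⟩ :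
        a (⟨j, q⟩ : Σ i, Fin (d i)).1 j) else 0) = u q
    rw [h1, ← ht q]
    exact φ.commutes (t q)
  · intro x hx
    exact dif_neg hx

end fin

/-- MEM -/
theorem t_MEM : S_MEM := by
  intro O G K I _ _ _ _ _ _ _ _ n d ρ r P Q R T φ a hPQ hQP hPQr hG hR Pc hP hPc i j hij h hh c hc
  obtain ⟨m1, hm1⟩ := artin_rees (K := K) n (a i j)
  obtain ⟨m2, hm2⟩ := artin_rees (K := K) n (a i i)
  obtain ⟨m3, hm3⟩ := artin_rees (K := K) n (a j j)
  set m := m1 + m2 + m3 with hm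
  let lam : Representation O G ((∀ x : (Σ i, Fin (d i)), a x.1 j) × (∀ x : (Σ i, Fin (d i)), a x.1 i)) :=
    { toFun := fun g => (colRep hG hR j g).prodMap (colRep hG hR i g)
      map_one' := by
        rw [map_one, map_one]
        rfl
      map_mul' := fun g g' => by
        rw [map_mul, map_mul]
        rfl }
  let Ψ : ((∀ x : (Σ i, Fin (d i)), a x.1 j) × (∀ x : (Σ i, Fin (d i)), a x.1 i)) →ₗ[O]
      (∀ _ : K ⊕ K, ((Σ i, Fin (d i)) → Rn O m)) :=
    LinearMap.pi fun s => Sum.elim (fun κ => pj a j m Q κ ∘ₗ LinearMap.fst O _ _)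
      (fun κ => pj a i m Q κ ∘ₗ LinearMap.snd O _ _) s
  refine subquot hP lam (piRep fun s : K ⊕ K => modRep m (r (Sum.elim id id s))) _ Ψ (ff hG h)
    ?_ ?_ ?_ ?_ ?_
  · intro g v
    funext s
    rcases s with κ | κ
    · exact pj_eqv hG hR j m hQP hPQr κ g v.1
    · exact pj_eqv hG hR i m hQP hPQr κ g v.2
  · intro g v
    refine Prod.ext (funext fun p => ?_) (funext fun q => ?_)
    · show h (colRep hG hR j g v.1 ⟨i, p⟩) + phj hG i (colRep hG hR i g v.2 ⟨i, p⟩) =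
        (red n (ρ i g) *ᵥ (fun p => h (v.1 ⟨i, p⟩) + phj hG i (v.2 ⟨i, p⟩))) p +
        ((c : G → Matrix (Fin (d i)) (Fin (d j)) (Rn O n)) g *ᵥ fun q => phj hG j (v.1 ⟨j, q⟩)) p
      rw [h_eqv hG hR hij hh, phj_eqv]
      have h1 : (fun p => h (v.1 ⟨i, p⟩) + phj hG i (v.2 ⟨i, p⟩)) =
        (fun p => h (v.1 ⟨i, p⟩)) + (fun p => phj hG i (v.2 ⟨i, p⟩)) := rfl
      have h2 : ∑ s, h (Rm hR g ⟨i, p⟩ ⟨j, s⟩) * phj hG j (v.1 ⟨j, s⟩) =
        ((c : G → Matrix (Fin (d i)) (Fin (d j)) (Rn O n)) g *ᵥ fun q => phj hG j (v.1 ⟨j, q⟩)) p := by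
        refine Finset.sum_congr rfl fun s _ => ?_
        exact congrArg (fun z => z * phj hG j (v.1 ⟨j, s⟩)) (hc g p s).symm
      rw [h1, h2, Matrix.mulVec_add, Pi.add_apply]
      abel
    · exact phj_eqv hG hR j g v.1 q
  · rintro ⟨u, u'⟩
    obtain ⟨v, hv, hv0⟩ := exists_col (d := d) hG j u'
    obtain ⟨w, hw, -⟩ := exists_col (d := d) hG i u
    refine ⟨(v, w), Prod.ext (funext fun p => ?_) (funext fun q => ?_)⟩
    · show h (v ⟨i, p⟩) + phj hG i (w ⟨i, p⟩) = u p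
      rw [hv0 ⟨i, p⟩ hij, map_zero, zero_add, hw]
    · exact hv q
  · intro v hv
    have h1 : ∀ κ, pj a j m Q κ v.1 = 0 := fun κ => congrFun hv (Sum.inl κ)
    have h2 : ∀ κ, pj a i m Q κ v.2 = 0 := fun κ => congrFun hv (Sum.inr κ)
    refine Prod.ext (funext fun p => ?_) (funext fun q => ?_)
    · show h (v.1 ⟨i, p⟩) + phj hG i (v.2 ⟨i, p⟩) = 0
      rw [hm1 m (by omega) _ (fun κ => pj_ker j m hPQ κ v.1 (h1 κ) ⟨i, p⟩) h,
        hm2 m (by omega) _ (fun κ => pj_ker i m hPQ κ v.2 (h2 κ) ⟨i, p⟩) (phj hG i), add_zero]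
    · exact hm3 m (by omega) _ (fun κ => pj_ker j m hPQ κ v.1 (h1 κ) ⟨j, q⟩) (phj hG j)
  · exact hP.sum _ _ _ _ (fun g v s => rfl) fun s => hPc _ _

end Pool.Agent.H548.CD.MEM
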