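import Pool.Agent.H499.CD.Stm

/-! Congruence modules (helper499), job NIL (helper628). -/

set_option autoImplicit false

namespace Pool.Agent.H628.CD.NIL

open Pool.Agent.H499.CD Matrix Polynomial

section

variable {k G I X : Type} [Field k] [Group G] [Fintype I] [DecidableEq I] [Fintype X] [DecidableEq X]
  {d : I → ℕ}

/-- the ring of coefficients -/
abbrev SS (k : Type) [Field k] {I : Type} (d : I → ℕ) : Type := MvPolynomial (Σ i, Fin (d i)) k

/-- the product of the matrix algebras -/
abbrev PP (k : Type) [Field k] {I : Type} (d : I → ℕ) (X : Type) : Type :=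
  Matrix X X (SS k d) × (∀ i, Matrix (Fin (d i)) (Fin (d i)) (SS k d))

/-- the map to the product -/
noncomputable def FF (ρ : ∀ i, G →* Matrix (Fin (d i)) (Fin (d i)) k) (r : G →* Matrix X X k) : G →* PP k d X where
  toFun g := ((r g).map MvPolynomial.C, fun i => (ρ i g).map MvPolynomial.C)
  map_one' := by
    refine Prod.ext ?_ (funext fun i => ?_)
    · show (r 1).map _ = 1
      rw [map_one]
      exact Matrix.map_one _ (map_zero _) (map_one _)
    · show (ρ i 1).map _ = 1
      rw [map_one]
      exact Matrix.map_one _ (map_zero _) (map_one _)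
  map_mul' g h := by
    refine Prod.ext ?_ (funext fun i => ?_)
    · show (r (g * h)).map (MvPolynomial.C : k →+* SS k d) =
        (r g).map (MvPolynomial.C : k →+* SS k d) * (r h).map (MvPolynomial.C : k →+* SS k d)
      rw [map_mul]
      exact Matrix.map_mul
    · show (ρ i (g * h)).map (MvPolynomial.C : k →+* SS k d) =
        (ρ i g).map (MvPolynomial.C : k →+* SS k d) * (ρ i h).map (MvPolynomial.C : k →+* SS k d)
      rw [map_mul]
      exact Matrix.map_mul

/-- the difference of the traces -/
noncomputable def tau (k : Type) [Field k] {I X : Type} [Fintype I] [Fintype X] (d : I → ℕ) :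
    PP k d X →ₗ[SS k d] SS k d where
  toFun z := z.1.trace - ∑ i, (z.2 i).trace
  map_add' z w := by
    rw [Prod.fst_add, Prod.snd_add, Matrix.trace_add]
    have : ∀ i, ((z.2 + w.2) i).trace = (z.2 i).trace + (w.2 i).trace := fun i => by
      rw [Pi.add_apply, Matrix.trace_add]
    rw [Finset.sum_congr rfl (fun i _ => this i), Finset.sum_add_distrib]
    ring
  map_smul' c z := by
    rw [Prod.smul_fst, Prod.smul_snd, Matrix.trace_smul]
    have : ∀ i, ((c • z.2) i).trace = c • (z.2 i).trace := fun i => by
      rw [Pi.smul_apply, Matrix.trace_smul]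
    rw [Finset.sum_congr rfl (fun i _ => this i), ← Finset.smul_sum, RingHom.id_apply, smul_sub]

theorem tau_adj (ρ : ∀ i, G →* Matrix (Fin (d i)) (Fin (d i)) k) (r : G →* Matrix X X k)
    (htr : ∀ g, (r g).trace = ∑ i, (ρ i g).trace) (z : PP k d X)
    (hz : z ∈ Algebra.adjoin (SS k d) (Set.range (FF ρ r))) : tau k d z = 0 := by
  have h1 : z ∈ Submodule.span (SS k d) (Set.range (FF ρ r)) := by
    have h2 : z ∈ Subalgebra.toSubmodule (Algebra.adjoin (SS k d) (Set.range (FF ρ r))) := hz
    rw [Algebra.adjoin_eq_span] at h2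
    have h3 : Submonoid.closure (Set.range (FF ρ r)) = MonoidHom.mrange (FF ρ r) := by
      rw [← MonoidHom.coe_mrange, Submonoid.closure_eq]
    rw [h3, MonoidHom.coe_mrange] at h2
    exact h2
  have h4 : Submodule.span (SS k d) (Set.range (FF ρ r)) ≤ LinearMap.ker (tau k d) := by
    rw [Submodule.span_le]
    rintro _ ⟨g, rfl⟩
    show ((r g).map MvPolynomial.C).trace - ∑ i, ((ρ i g).map MvPolynomial.C).trace = 0
    have h5 : ∀ {n : Type} [Fintype n] (M : Matrix n n k),
        (M.map (MvPolynomial.C : k →+* SS k d)).trace = MvPolynomial.C M.trace := by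
      intro n _ M
      unfold Matrix.trace
      rw [map_sum]
      rfl
    rw [h5, htr g, map_sum, sub_eq_zero]
    exact Finset.sum_congr rfl (fun i _ => (h5 _).symm)
  exact h4 h1

theorem aeval_diag {n R : Type} [Fintype n] [DecidableEq n] [CommRing R] (v : n → R) (q : R[X]) :
    aeval (Matrix.diagonal v) q = Matrix.diagonal (fun p => q.eval (v p)) := by
  induction q using Polynomial.induction_on' with
  | add p q hp hq =>
    rw [map_add, hp, hq, Matrix.diagonal_add]
    congr 1
    funext p
    rw [eval_add]
  | monomial m a =>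
    rw [aeval_monomial, Matrix.diagonal_pow, Matrix.algebraMap_eq_diagonal, Matrix.diagonal_mul_diagonal]
    congr 1
    funext p
    rw [eval_monomial]
    rfl

theorem t_NIL : S_NIL := by
  intro k G I X _ _ _ _ _ _ d ρ r hcard htr hspan c hc
  classical
  set S := SS k d with hS
  set Z := (Σ i, Fin (d i)) with hZ
  set E : Z → ∀ i, Matrix (Fin (d i)) (Fin (d i)) k :=
    fun x i => Matrix.diagonal (fun p => if (⟨i, p⟩ : Z) = x then 1 else 0) with hE
  have hu : ∀ x : Z, ∃ u : G →₀ k, (u.sum fun g s => s • (fun i => ρ i g)) = E x := by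
    intro x
    have h1 : E x ∈ Submodule.span k (Set.range fun (g : G) i => ρ i g) := by
      rw [hspan]
      exact Submodule.mem_top
    exact Finsupp.mem_span_range_iff_exists_finsupp.1 h1
  choose u hu using hu
  set Cc : k →+* S := MvPolynomial.C with hCc
  have hadj : ∀ v : G →₀ k, (((v.sum fun g s => s • r g).map Cc,
      fun i => (v.sum fun g s => s • ρ i g).map Cc) : PP k d X) ∈
        Algebra.adjoin S (Set.range (FF ρ r)) := by
    intro v
    have h1 : (((v.sum fun g s => s • r g).map Cc,
        fun i => (v.sum fun g s => s • ρ i g).map Cc) : PP k d X) = v.sum fun g s => Cc s • FF ρ r g := by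
      unfold Finsupp.sum
      refine Prod.ext ?_ (funext fun i => ?_)
      · rw [Prod.fst_sum]
        show (RingHom.mapMatrix Cc) _ = _
        rw [map_sum]
        refine Finset.sum_congr rfl (fun g _ => ?_)
        refine Matrix.ext fun a b => ?_
        show Cc (v g * r g a b) = Cc (v g) * Cc (r g a b)
        rw [map_mul]
      · rw [Prod.snd_sum, Finset.sum_apply]
        show (RingHom.mapMatrix Cc) _ = _
        rw [map_sum]
        refine Finset.sum_congr rfl (fun g _ => ?_)
        refine Matrix.ext fun a b => ?_
        show Cc (v g * ρ i g a b) = Cc (v g) * Cc (ρ i g a b)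
        rw [map_mul]
    rw [h1]
    exact Subalgebra.sum_mem _ (fun g _ => Subalgebra.smul_mem _ (Algebra.subset_adjoin (Set.mem_range_self g)) _)
  set w : Matrix X X S := ∑ x : Z, (MvPolynomial.X x : S) • ((u x).sum fun g s => s • r g).map Cc +
    (c.sum fun g s => s • r g).map Cc with hw
  have hW : ((w, fun i => Matrix.diagonal (fun p => (MvPolynomial.X ⟨i, p⟩ : S))) : PP k d X) ∈
      Algebra.adjoin S (Set.range (FF ρ r)) := by
    have h1 : ((w, fun i => Matrix.diagonal (fun p => (MvPolynomial.X ⟨i, p⟩ : S))) : PP k d X) =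
        ∑ x : Z, (MvPolynomial.X x : S) • (((((u x).sum fun g s => s • r g).map Cc,
          fun i => ((u x).sum fun g s => s • ρ i g).map Cc) : PP k d X)) +
        ((((c.sum fun g s => s • r g).map Cc, fun i => (c.sum fun g s => s • ρ i g).map Cc) : PP k d X)) := by
      refine Prod.ext ?_ (funext fun i => ?_)
      · rw [Prod.fst_add, Prod.fst_sum]
        rfl
      · rw [Prod.snd_add, Prod.snd_sum, Pi.add_apply, Finset.sum_apply]
        have h2 : (c.sum fun g s => s • ρ i g).map Cc = 0 := by
          rw [hc i]
          exact Matrix.map_zero _ (map_zero _)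
        have h3 : ∀ x : Z, ((u x).sum fun g s => s • ρ i g) = E x i := by
          intro x
          have h4 := congrFun (hu x) i
          rw [← h4]
          unfold Finsupp.sum
          rw [Finset.sum_apply]
          rfl
        show Matrix.diagonal (fun p => (MvPolynomial.X (⟨i, p⟩ : Z) : S)) =
          (∑ x : Z, (MvPolynomial.X x : S) • ((u x).sum fun g s => s • ρ i g).map Cc) +
          (c.sum fun g s => s • ρ i g).map Cc
        rw [h2, add_zero]
        rw [Finset.sum_congr rfl (fun x _ => by rw [h3 x])]
        refine Matrix.ext fun p q => ?_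
        rw [Matrix.sum_apply]
        by_cases hpq : p = q
        · subst hpq
          rw [Matrix.diagonal_apply_eq, Finset.sum_eq_single (⟨i, p⟩ : Z)]
          · rw [Matrix.smul_apply, Matrix.map_apply, hE]
            show _ = _ • Cc (Matrix.diagonal _ p p)
            rw [Matrix.diagonal_apply_eq, if_pos rfl, map_one, smul_eq_mul, mul_one]
          · intro x _ hx
            rw [Matrix.smul_apply, Matrix.map_apply, hE]
            show _ • Cc (Matrix.diagonal _ p p) = 0
            rw [Matrix.diagonal_apply_eq, if_neg (Ne.symm hx), map_zero, smul_zero]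
          · intro h
            exact absurd (Finset.mem_univ _) h
        · rw [Matrix.diagonal_apply_ne _ hpq]
          symm
          refine Finset.sum_eq_zero (fun x _ => ?_)
          rw [Matrix.smul_apply, Matrix.map_apply, hE]
          show _ • Cc (Matrix.diagonal _ p q) = 0
          rw [Matrix.diagonal_apply_ne _ hpq, map_zero, smul_zero]
    rw [h1]
    exact Subalgebra.add_mem _ (Subalgebra.sum_mem _ (fun x _ => Subalgebra.smul_mem _ (hadj _) _)) (hadj _)
  have htau : ∀ q : S[X], (aeval w q).trace = ∑ x : Z, q.eval (MvPolynomial.X x : S) := by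
    intro q
    set W : PP k d X := (w, fun i => Matrix.diagonal (fun p => (MvPolynomial.X ⟨i, p⟩ : S))) with hWd
    have h1 : aeval W q ∈ Algebra.adjoin S (Set.range (FF ρ r)) := by
      have h2 := Polynomial.aeval_subalgebra_coe q (Algebra.adjoin S (Set.range (FF ρ r))) ⟨W, hW⟩
      rw [← h2]
      exact Subtype.property _
    have h3 := tau_adj ρ r htr _ h1
    have h4 : (aeval W q).1 = aeval w q :=
      (Polynomial.aeval_algHom_apply (AlgHom.fst S _ _) W q).symm
    have h5 : ∀ i, (aeval W q).2 i = Matrix.diagonal (fun p => q.eval (MvPolynomial.X ⟨i, p⟩ : S)) := by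
      intro i
      have h6 := (Polynomial.aeval_algHom_apply ((Pi.evalAlgHom S _ i).comp (AlgHom.snd S (Matrix X X S)
        (∀ i, Matrix (Fin (d i)) (Fin (d i)) S))) W q).symm
      refine h6.trans ?_
      exact aeval_diag _ q
    have h7 : (aeval W q).1.trace - ∑ i, ((aeval W q).2 i).trace = 0 := h3
    rw [h4, sub_eq_zero] at h7
    rw [h7, Fintype.sum_sigma]
    refine Finset.sum_congr rfl (fun i _ => ?_)
    rw [h5 i, Matrix.trace_diagonal]
  set χ := w.charpoly with hχ
  have hroot : ∀ x : Z, χ.eval (MvPolynomial.X x : S) = 0 := by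
    intro x
    have h1 := htau (χ * ∏ x' ∈ Finset.univ.erase x, (Polynomial.X - Polynomial.C (MvPolynomial.X x' : S)))
    rw [map_mul, hχ, Matrix.aeval_self_charpoly, zero_mul, Matrix.trace_zero,
      Finset.sum_eq_single x] at h1
    · rw [eval_mul, eval_prod] at h1
      rcases mul_eq_zero.1 h1.symm with h2 | h2
      · exact h2
      · exfalso
        rw [Finset.prod_eq_zero_iff] at h2
        obtain ⟨x', hx', h3⟩ := h2
        rw [eval_sub, eval_X, eval_C, sub_eq_zero] at h3
        exact (Finset.mem_erase.1 hx').1 (MvPolynomial.X_injective h3).symm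
    · intro x' _ hx'
      rw [eval_mul, eval_prod, Finset.prod_eq_zero (Finset.mem_erase.2 ⟨hx', Finset.mem_univ _⟩), mul_zero]
      rw [eval_sub, eval_X, eval_C, sub_self]
    · intro h
      exact absurd (Finset.mem_univ x) h
  have hmon : χ.Monic := Matrix.charpoly_monic _
  have hprod : χ = ∏ x : Z, (Polynomial.X - Polynomial.C (MvPolynomial.X x : S)) := by
    have hm2 : (∏ x : Z, (Polynomial.X - Polynomial.C (MvPolynomial.X x : S))).Monic :=
      monic_prod_of_monic _ _ (fun x _ => monic_X_sub_C _)
    refine (Polynomial.eq_of_monic_of_dvd_of_natDegree_le hm2 hmon ?_ ?_)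
    · have h1 : (Finset.univ.val.map (fun x : Z => (MvPolynomial.X x : S))) ≤ χ.roots := by
        rw [Multiset.le_iff_subset (Multiset.Nodup.map MvPolynomial.X_injective Finset.univ.nodup)]
        intro y hy
        obtain ⟨x, _, rfl⟩ := Multiset.mem_map.1 hy
        rw [mem_roots hmon.ne_zero]
        exact hroot x
      have h2 := (Multiset.prod_X_sub_C_dvd_iff_le_roots hmon.ne_zero _).2 h1
      rw [Multiset.map_map] at h2
      exact h2
    · rw [hχ, Matrix.charpoly_natDegree_eq_dim, natDegree_prod_of_monic _ _ (fun x _ => monic_X_sub_C _)]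
      rw [Finset.sum_congr rfl (fun x _ => natDegree_X_sub_C _), Finset.sum_const, smul_eq_mul, mul_one,
        Finset.card_univ, Fintype.card_sigma, hcard]
      simp
  set ev : S →+* k := MvPolynomial.eval (fun _ => 0) with hev
  have hy : w.map ev = c.sum fun g s => s • r g := by
    rw [hw]
    show (RingHom.mapMatrix ev) _ = _
    rw [map_add, map_sum, Finset.sum_eq_zero, zero_add]
    · refine Matrix.ext fun a b => ?_
      show ev (Cc _) = _
      rw [hev, hCc, MvPolynomial.eval_C]
    · intro x _
      refine Matrix.ext fun a b => ?_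
      show ev ((MvPolynomial.X x : S) * _) = 0
      rw [map_mul, hev, MvPolynomial.eval_X, zero_mul]
  have hcp : (c.sum fun g s => s • r g).charpoly = Polynomial.X ^ (Fintype.card X) := by
    rw [← hy, Matrix.charpoly_map, ← hχ, hprod, Polynomial.map_prod]
    rw [Finset.prod_congr rfl (fun x _ => by
      rw [Polynomial.map_sub, Polynomial.map_X, Polynomial.map_C, hev, MvPolynomial.eval_X, map_zero, sub_zero])]
    rw [Finset.prod_const, Finset.card_univ, Fintype.card_sigma, hcard]
    simp
  have h := Matrix.aeval_self_charpoly (c.sum fun g s => s • r g)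
  rw [hcp, map_pow, aeval_X] at h
  exact h

end

end Pool.Agent.H628.CD.NIL
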