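import Pool.Agent.H499.CD.Stm

/-! Congruence modules (helper499), job PERM (helper628). -/

set_option autoImplicit false

namespace Pool.Agent.H628.CD.PERM

open Pool.Agent.H499.CD

theorem claim {O C R Y J : Type} [CommRing O] [CommRing C] [CommRing R] [Algebra O C] [Algebra O R]
    [DecidableEq Y] (T : Subalgebra O C) (φ : T →ₐ[O] R) (b : J → J → Set C) (t : Y → J)
    (h1 : ∀ j x, x ∈ b j j ↔ x ∈ T)
    (h2 : ∀ i j l x y, x ∈ b i j → y ∈ b j l → x * y ∈ b i l)
    (h3 : ∀ i j, i ≠ j → ∀ x y (h : x * y ∈ T), x ∈ b i j → y ∈ b j i → φ ⟨x * y, h⟩ = 0) :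
    ∀ (S : Finset Y) (σ : Equiv.Perm Y) (y : Y → C), (∀ p, p ∉ S → σ p = p) →
      (∀ p ∈ S, y p ∈ b (t (σ p)) (t p)) →
      ∃ h : ∏ p ∈ S, y p ∈ T, ((∃ p ∈ S, t (σ p) ≠ t p ∨ ∃ h' : y p ∈ T, φ ⟨y p, h'⟩ = 0) → φ ⟨_, h⟩ = 0) := by
  intro S
  induction S using Finset.induction_on with
  | empty =>
    intro σ y _ _
    refine ⟨by rw [Finset.prod_empty]; exact T.one_mem, ?_⟩
    rintro ⟨p, hp, _⟩
    exact absurd hp (Finset.notMem_empty p)
  | insert a S ha ih =>
    intro σ y hσ hy
    by_cases haa : σ a = a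
    · obtain ⟨h, hb⟩ := ih σ y (fun p hp => by
        by_cases hpa : p = a
        · rw [hpa, haa]
        · exact hσ p (fun h => (Finset.mem_insert.1 h).elim hpa hp)) (fun p hp => hy p (Finset.mem_insert_of_mem hp))
      have hya : y a ∈ T := by
        have := hy a (Finset.mem_insert_self _ _)
        rw [haa] at this
        exact (h1 (t a) _).1 this
      refine ⟨by rw [Finset.prod_insert ha]; exact T.mul_mem hya h, ?_⟩
      rintro ⟨p, hp, hbad⟩
      have e : ∀ h', (⟨∏ p ∈ insert a S, y p, h'⟩ : T) = ⟨y a, hya⟩ * ⟨_, h⟩ :=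
        fun h' => Subtype.ext (Finset.prod_insert ha)
      rw [e, map_mul]
      rcases Finset.mem_insert.1 hp with rfl | hp
      · rcases hbad with hbad | ⟨h', hbad⟩
        · exact absurd (by rw [haa]) hbad
        · rw [hbad, zero_mul]
      · rw [hb ⟨p, hp, hbad⟩, mul_zero]
    · obtain ⟨c, hc⟩ : ∃ c, σ c = a := σ.surjective a
      have hca : c ≠ a := by
        rintro rfl
        exact haa hc
      have hcS : c ∈ S := by
        by_contra hcS
        have h4 := hσ c (fun h => (Finset.mem_insert.1 h).elim hca hcS)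
        exact hca (h4.symm.trans hc)
      set σ' : Equiv.Perm Y := Equiv.swap a (σ a) * σ with hσ'
      set y' : Y → C := Function.update y c (y a * y c) with hy'
      have hσa : σ' a = a := by
        rw [hσ', Equiv.Perm.mul_apply, Equiv.swap_apply_right]
      have hσc : σ' c = σ a := by
        rw [hσ', Equiv.Perm.mul_apply, hc, Equiv.swap_apply_left]
      have hσp : ∀ p, p ≠ a → p ≠ c → σ' p = σ p := by
        intro p hpa hpc
        rw [hσ', Equiv.Perm.mul_apply, Equiv.swap_apply_of_ne_of_ne]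
        · intro h
          exact hpc (σ.injective (h.trans hc.symm))
        · intro h
          exact hpa (σ.injective h)
      have hyc : y' c = y a * y c := Function.update_self ..
      have hyp : ∀ p, p ≠ c → y' p = y p := fun p hp => Function.update_of_ne hp _ _
      have hya := hy a (Finset.mem_insert_self _ _)
      have hyc0 := hy c (Finset.mem_insert_of_mem hcS)
      rw [hc] at hyc0
      obtain ⟨h, hb⟩ := ih σ' y' (fun p hp => by
        by_cases hpa : p = a
        · rw [hpa, hσa]
        · have hpc : p ≠ c := fun h => hp (h ▸ hcS)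
          rw [hσp p hpa hpc]
          exact hσ p (fun h => (Finset.mem_insert.1 h).elim hpa hp)) (fun p hp => by
        by_cases hpc : p = c
        · rw [hpc, hyc, hσc]
          exact h2 _ _ _ _ _ hya hyc0
        · have hpa : p ≠ a := fun h => ha (h ▸ hp)
          rw [hσp p hpa hpc, hyp p hpc]
          exact hy p (Finset.mem_insert_of_mem hp))
      have hprod : ∏ p ∈ insert a S, y p = ∏ p ∈ S, y' p := by
        rw [Finset.prod_insert ha, hy', Finset.prod_update_of_mem hcS, mul_assoc,
          Finset.prod_eq_mul_prod_sdiff_singleton_of_mem hcS]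
      refine ⟨by rw [hprod]; exact h, ?_⟩
      rintro ⟨p, hp, hbad⟩
      have e : ∀ h', (⟨∏ p ∈ insert a S, y p, h'⟩ : T) = ⟨_, h⟩ := fun h' => Subtype.ext hprod
      rw [e]
      apply hb
      by_cases hpp : p ≠ a ∧ p ≠ c
      · have hpS : p ∈ S := (Finset.mem_insert.1 hp).resolve_left hpp.1
        refine ⟨p, hpS, ?_⟩
        rw [hσp p hpp.1 hpp.2, hyp p hpp.2]
        exact hbad
      · refine ⟨c, hcS, ?_⟩
        rw [hσc, hyc]
        by_cases hil : t (σ a) = t c
        · right
          rw [← hil] at hyc0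
          by_cases hij : t (σ a) = t a
          · rw [hij] at hya hyc0
            have hyaT : y a ∈ T := (h1 _ _).1 hya
            have hycT : y c ∈ T := (h1 _ _).1 hyc0
            have e2 : ∀ h', (⟨y a * y c, h'⟩ : T) = ⟨y a, hyaT⟩ * ⟨y c, hycT⟩ := fun h' => rfl
            refine ⟨T.mul_mem hyaT hycT, ?_⟩
            rw [e2, map_mul]
            have hpp' : p = a ∨ p = c := by
              by_contra hcon
              push Not at hcon
              exact hpp hcon
            rcases hpp' with rfl | rfl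
            · rcases hbad with hbad | ⟨h', hbad⟩
              · exact absurd hij hbad
              · rw [hbad, zero_mul]
            · rcases hbad with hbad | ⟨h', hbad⟩
              · rw [hc, ← hij] at hbad
                exact absurd hil hbad
              · rw [hbad, mul_zero]
          · have hT : y a * y c ∈ T := (h1 _ _).1 (h2 _ _ _ _ _ hya hyc0)
            exact ⟨hT, h3 _ _ hij _ _ hT hya hyc0⟩
        · exact Or.inl hil

theorem t_PERM : S_PERM := by
  intro O C R Y J _ _ _ _ _ _ _ T φ b t D D' h1 h2 h3 h4 h5 h6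
  have key : ∀ σ : Equiv.Perm Y, ∃ z : T, (z : C) = ∏ p, D (σ p) p ∧ φ z = ∏ p, D' (σ p) p := by
    intro σ
    obtain ⟨h, hb⟩ := claim T φ b t h1 h2 h3 Finset.univ σ (fun p => D (σ p) p)
      (fun p hp => absurd (Finset.mem_univ p) hp) (fun p _ => h4 _ _)
    by_cases hty : ∃ p, t (σ p) ≠ t p
    · obtain ⟨p, hp⟩ := hty
      refine ⟨⟨_, h⟩, rfl, ?_⟩
      rw [hb ⟨p, Finset.mem_univ p, Or.inl hp⟩]
      exact (Finset.prod_eq_zero (f := fun p => D' (σ p) p) (Finset.mem_univ p) (h6 _ _ hp)).symm
    · push Not at hty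
      have hT : ∀ p, D (σ p) p ∈ T := fun p => by
        have := h4 (σ p) p
        rw [hty p] at this
        exact (h1 _ _).1 this
      refine ⟨∏ p, ⟨D (σ p) p, hT p⟩, ?_, ?_⟩
      · rw [SubmonoidClass.coe_finsetProd]
      · rw [map_prod]
        exact Finset.prod_congr rfl (fun p _ => h5 _ _ (hT p) (hty p))
  choose z hz1 hz2 using key
  have hdet : D.det = ((∑ σ : Equiv.Perm Y, ((Equiv.Perm.sign σ : ℤ)) • z σ : T) : C) := by
    rw [Matrix.det_apply]
    rw [AddSubmonoidClass.coe_finsetSum]
    refine Finset.sum_congr rfl (fun σ _ => ?_)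
    rw [Units.smul_def, ← hz1 σ]
    rfl
  refine ⟨hdet ▸ Subtype.property _, ?_⟩
  have e : ∀ h, (⟨D.det, h⟩ : T) = ∑ σ : Equiv.Perm Y, ((Equiv.Perm.sign σ : ℤ)) • z σ :=
    fun h => Subtype.ext hdet
  rw [e, map_sum, Matrix.det_apply]
  refine Finset.sum_congr rfl (fun σ _ => ?_)
  rw [map_zsmul, hz2, Units.smul_def]

end Pool.Agent.H628.CD.PERM
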