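import Pool.Agent.H499.CD.Stm

set_option autoImplicit false

/-! # CD, job SEL: the classes in a closed class of extensions form a submodule -/

namespace Pool.Agent.H603.CD

open Matrix IsLocalRing Pool.Agent.H499.CD

section

variable {O G : Type} [CommRing O] [Group G]

/-- the restriction to an invariant submodule -/
def subRep {V : Type} [AddCommGroup V] [Module O V] (ρ : Representation O G V) (L : Submodule O V)
    (hL : ∀ g, ∀ v ∈ L, ρ g v ∈ L) : Representation O G L where
  toFun g := (ρ g).restrict (hL g)
  map_one' := by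
    ext v
    show ρ 1 (v : V) = v
    rw [map_one]
    rfl
  map_mul' g h := by
    ext v
    show ρ (g * h) (v : V) = ρ g (ρ h (v : V))
    rw [map_mul]
    rfl

/-- the direct sum of two representations on the same module -/
def sumRep {V : Type} [AddCommGroup V] [Module O V] (ρ : Bool → Representation O G V) :
    Representation O G (Bool → V) where
  toFun g := LinearMap.pi fun i => (ρ i g).comp (LinearMap.proj i)
  map_one' := by
    refine LinearMap.ext fun v => funext fun i => ?_
    show ρ i 1 (v i) = v i
    rw [map_one]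
    rfl
  map_mul' g h := by
    refine LinearMap.ext fun v => funext fun i => ?_
    show ρ i (g * h) (v i) = ρ i g (ρ i h (v i))
    rw [map_mul]
    rfl

/-- subquotients -/
theorem subq {Pc : Cls O G} (hP : Closed Pc) {V U : Type} [AddCommGroup V] [Module O V]
    [AddCommGroup U] [Module O U] (ρ : Representation O G V) (σ : Representation O G U)
    (L : Submodule O V) (hL : ∀ g, ∀ v ∈ L, ρ g v ∈ L) (F : V →ₗ[O] U)
    (hF : ∀ g, ∀ v ∈ L, F (ρ g v) = σ g (F v)) (hs : ∀ u, ∃ v ∈ L, F v = u) (h : Pc V ρ) :
    Pc U σ := by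
  have h1 : Pc L (subRep ρ L hL) :=
    hP.sub L V (subRep ρ L hL) ρ L.subtype (fun g v => rfl) L.injective_subtype h
  refine hP.quot L U (subRep ρ L hL) σ (F.comp L.subtype) (fun g v => ?_) ?_ h1
  · show F (ρ g (v : V)) = σ g (F (v : V))
    exact hF g v v.2
  · intro u
    obtain ⟨v, hv, hvu⟩ := hs u
    exact ⟨⟨v, hv⟩, hvu⟩

end

theorem main : S_SEL := by
  intro O G a b _ _ _ _ _ _ _ n τ ρ Pc hP
  have hsum : ∀ c c' : Coc n τ ρ, Pc _ (extRep n τ ρ c) → Pc _ (extRep n τ ρ c') →
      Pc _ (sumRep (fun i : Bool => if i then extRep n τ ρ c else extRep n τ ρ c')) := by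
    intro c c' h h'
    refine hP.sum Bool (fun _ => (a → Rn O n) × (b → Rn O n))
      (fun i : Bool => if i then extRep n τ ρ c else extRep n τ ρ c') _ (fun g v i => rfl) ?_
    intro i
    cases i
    · exact h'
    · exact h
  have hext : ∀ (c : Coc n τ ρ) (g : G) (v : (a → Rn O n) × (b → Rn O n)),
      extRep n τ ρ c g v = (red n (ρ g) *ᵥ v.1 + (c : G → Matrix a b (Rn O n)) g *ᵥ v.2,
        red n (τ g) *ᵥ v.2) := fun _ _ _ => rfl
  have hs1 : ∀ (c c' : Coc n τ ρ) (g : G) (w : Bool → (a → Rn O n) × (b → Rn O n)),
      sumRep (fun i : Bool => if i then extRep n τ ρ c else extRep n τ ρ c') g w true =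
        extRep n τ ρ c g (w true) := fun _ _ _ _ => rfl
  have hs2 : ∀ (c c' : Coc n τ ρ) (g : G) (w : Bool → (a → Rn O n) × (b → Rn O n)),
      sumRep (fun i : Bool => if i then extRep n τ ρ c else extRep n τ ρ c') g w false =
        extRep n τ ρ c' g (w false) := fun _ _ _ _ => rfl
  refine ⟨fun c c' h h' => ?_, fun t c h => ?_, fun c c' h hc' => ?_⟩
  · -- the sum
    let L : Submodule O (Bool → (a → Rn O n) × (b → Rn O n)) :=
      { carrier := {w | (w true).2 = (w false).2}
        add_mem' := fun {x y} hx hy => by
          show (x true + y true).2 = (x false + y false).2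
          rw [Prod.snd_add, Prod.snd_add, hx, hy]
        zero_mem' := rfl
        smul_mem' := fun s x hx => by
          show (s • x true).2 = (s • x false).2
          rw [Prod.smul_snd, Prod.smul_snd, hx] }
    let F : (Bool → (a → Rn O n) × (b → Rn O n)) →ₗ[O] (a → Rn O n) × (b → Rn O n) :=
      { toFun := fun w => ((w true).1 + (w false).1, (w true).2)
        map_add' := fun x y => by
          refine Prod.ext ?_ ?_
          · show (x true + y true).1 + (x false + y false).1 =
              ((x true).1 + (x false).1) + ((y true).1 + (y false).1)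
            rw [Prod.fst_add, Prod.fst_add]
            abel
          · rfl
        map_smul' := fun s x => by
          refine Prod.ext ?_ ?_
          · show (s • x true).1 + (s • x false).1 = s • ((x true).1 + (x false).1)
            rw [Prod.smul_fst, Prod.smul_fst, smul_add]
          · rfl }
    have hFd : ∀ w, F w = ((w true).1 + (w false).1, (w true).2) := fun _ => rfl
    refine subq hP _ _ L ?_ F ?_ ?_ (hsum c c' h h')
    · intro g w hw
      have hw' : (w true).2 = (w false).2 := hw
      show (sumRep (fun i : Bool => if i then extRep n τ ρ c else extRep n τ ρ c') g w true).2 =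
        (sumRep (fun i : Bool => if i then extRep n τ ρ c else extRep n τ ρ c') g w false).2
      rw [hs1, hs2, hext, hext]
      show red n (τ g) *ᵥ (w true).2 = red n (τ g) *ᵥ (w false).2
      rw [hw']
    · intro g w hw
      have hw' : (w true).2 = (w false).2 := hw
      rw [hFd, hFd, hs1, hs2, hext, hext, hext]
      refine Prod.ext ?_ rfl
      show (red n (ρ g) *ᵥ (w true).1 + (c : G → Matrix a b (Rn O n)) g *ᵥ (w true).2) +
          (red n (ρ g) *ᵥ (w false).1 + (c' : G → Matrix a b (Rn O n)) g *ᵥ (w false).2) =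
        red n (ρ g) *ᵥ ((w true).1 + (w false).1) +
          ((c : G → Matrix a b (Rn O n)) g + (c' : G → Matrix a b (Rn O n)) g) *ᵥ (w true).2
      rw [Matrix.mulVec_add, Matrix.add_mulVec, hw']
      abel
    · rintro ⟨x, y⟩
      refine ⟨fun i => if i then (x, y) else (0, y), rfl, ?_⟩
      rw [hFd]
      show (x + 0, y) = (x, y)
      rw [add_zero]
  · -- multiples
    let L : Submodule O (Bool → (a → Rn O n) × (b → Rn O n)) :=
      { carrier := {w | (w false).2 = 0}
        add_mem' := fun {x y} hx hy => by
          show (x false + y false).2 = 0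
          rw [Prod.snd_add, hx, hy, add_zero]
        zero_mem' := rfl
        smul_mem' := fun s x hx => by
          show (s • x false).2 = 0
          rw [Prod.smul_snd, hx, smul_zero] }
    let F : (Bool → (a → Rn O n) × (b → Rn O n)) →ₗ[O] (a → Rn O n) × (b → Rn O n) :=
      { toFun := fun w => (t • (w true).1 + (w false).1, (w true).2)
        map_add' := fun x y => by
          refine Prod.ext ?_ ?_
          · show t • (x true + y true).1 + (x false + y false).1 =
              (t • (x true).1 + (x false).1) + (t • (y true).1 + (y false).1)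
            rw [Prod.fst_add, Prod.fst_add, smul_add]
            abel
          · rfl
        map_smul' := fun s x => by
          refine Prod.ext ?_ ?_
          · show t • (s • x true).1 + (s • x false).1 = s • (t • (x true).1 + (x false).1)
            rw [Prod.smul_fst, Prod.smul_fst, smul_add, smul_comm]
          · rfl }
    have hFd : ∀ w, F w = (t • (w true).1 + (w false).1, (w true).2) := fun _ => rfl
    refine subq hP _ _ L ?_ F ?_ ?_ (hsum c c h h)
    · intro g w hw
      have hw' : (w false).2 = 0 := hw
      show (sumRep (fun i : Bool => if i then extRep n τ ρ c else extRep n τ ρ c) g w false).2 = 0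
      rw [hs2, hext]
      show red n (τ g) *ᵥ (w false).2 = 0
      rw [hw', Matrix.mulVec_zero]
    · intro g w hw
      have hw' : (w false).2 = 0 := hw
      rw [hFd, hFd, hs1, hs2, hext, hext, hext]
      refine Prod.ext ?_ rfl
      show t • (red n (ρ g) *ᵥ (w true).1 + (c : G → Matrix a b (Rn O n)) g *ᵥ (w true).2) +
          (red n (ρ g) *ᵥ (w false).1 + (c : G → Matrix a b (Rn O n)) g *ᵥ (w false).2) =
        red n (ρ g) *ᵥ (t • (w true).1 + (w false).1) +
          (t • (c : G → Matrix a b (Rn O n)) g) *ᵥ (w true).2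
      rw [Matrix.mulVec_add, Matrix.smul_mulVec, hw', Matrix.mulVec_zero, add_zero, smul_add,
        Matrix.mulVec_smul]
      abel
    · rintro ⟨x, y⟩
      refine ⟨fun i => if i then (0, y) else (x, 0), rfl, ?_⟩
      rw [hFd]
      show (t • 0 + x, y) = (x, y)
      rw [smul_zero, zero_add]
  · -- coboundaries
    obtain ⟨x, hx⟩ := hc'
    let F : (a → Rn O n) × (b → Rn O n) →ₗ[O] (a → Rn O n) × (b → Rn O n) :=
      { toFun := fun v => (v.1 - x *ᵥ v.2, v.2)
        map_add' := fun u v => by
          refine Prod.ext ?_ rfl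
          show (u.1 + v.1) - x *ᵥ (u.2 + v.2) = (u.1 - x *ᵥ u.2) + (v.1 - x *ᵥ v.2)
          rw [Matrix.mulVec_add]
          abel
        map_smul' := fun s v => by
          refine Prod.ext ?_ rfl
          show s • v.1 - x *ᵥ (s • v.2) = s • (v.1 - x *ᵥ v.2)
          rw [Matrix.mulVec_smul, smul_sub] }
    have hFd : ∀ v, F v = (v.1 - x *ᵥ v.2, v.2) := fun _ => rfl
    refine hP.quot _ _ (extRep n τ ρ c) (extRep n τ ρ (c + c')) F ?_ ?_ h
    · intro g v
      rw [hFd, hFd, hext, hext]
      refine Prod.ext ?_ rfl
      show (red n (ρ g) *ᵥ v.1 + (c : G → Matrix a b (Rn O n)) g *ᵥ v.2) -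
          x *ᵥ (red n (τ g) *ᵥ v.2) =
        red n (ρ g) *ᵥ (v.1 - x *ᵥ v.2) +
          ((c : G → Matrix a b (Rn O n)) g + (c' : G → Matrix a b (Rn O n)) g) *ᵥ v.2
      rw [hx g, Matrix.mulVec_sub, Matrix.add_mulVec, Matrix.sub_mulVec, Matrix.mulVec_mulVec,
        Matrix.mulVec_mulVec]
      abel
    · rintro ⟨u, v⟩
      refine ⟨(u + x *ᵥ v, v), ?_⟩
      rw [hFd]
      show (u + x *ᵥ v - x *ᵥ v, v) = (u, v)
      rw [add_sub_cancel_right]

end Pool.Agent.H603.CD
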