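import Pool.Agent.H499.CD.Stm

/-! Congruence modules (helper499), job SMITH (helper628). -/

set_option autoImplicit false

namespace Pool.Agent.H628.CD.SMITH

open Pool.Agent.H499.CD IsLocalRing Module

variable {O : Type} [CommRing O] [IsDomain O] [IsDiscreteValuationRing O]

theorem pow_eq {ϖ : O} (hϖ : Irreducible ϖ) (n : ℕ) : maximalIdeal O ^ n = Ideal.span {ϖ ^ n} := by
  rw [hϖ.maximalIdeal_eq, Ideal.span_singleton_pow]

omit [IsDiscreteValuationRing O] in
theorem len_ge {ϖ : O} (hϖ : Irreducible ϖ) (e : ℕ) :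
    (e : ℕ∞) ≤ Module.length O (O ⧸ Ideal.span {ϖ ^ e}) := by
  induction e with
  | zero => simp
  | succ e ih =>
    have hle : Ideal.span {ϖ ^ (e + 1)} ≤ Ideal.span {ϖ ^ e} := by
      rw [Ideal.span_singleton_le_span_singleton]
      exact pow_dvd_pow _ (Nat.le_succ e)
    set g := Submodule.factor hle with hg
    have hgs : Function.Surjective g := Submodule.factor_surjective hle
    rw [Module.length_eq_add_of_exact (LinearMap.ker g).subtype g (Submodule.subtype_injective _) hgs
      (LinearMap.exact_subtype_ker_map g)]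
    have hnt : Nontrivial (LinearMap.ker g) := by
      rw [Submodule.nontrivial_iff_ne_bot, Submodule.ne_bot_iff]
      refine ⟨Submodule.Quotient.mk (ϖ ^ e), ?_, ?_⟩
      · rw [LinearMap.mem_ker]
        show Submodule.Quotient.mk (ϖ ^ e) = 0
        rw [Submodule.Quotient.mk_eq_zero]
        exact Ideal.mem_span_singleton_self _
      · intro h
        rw [Submodule.Quotient.mk_eq_zero, Ideal.mem_span_singleton] at h
        have h2 := (pow_dvd_pow_iff hϖ.ne_zero hϖ.not_isUnit).1 h
        omega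
    have h1 : 1 ≤ Module.length O (LinearMap.ker g) :=
      Order.one_le_iff_pos.2 (Module.length_pos_iff.2 hnt)
    push_cast
    rw [add_comm]
    exact add_le_add h1 ih

theorem len_chain {R A B D : Type} [CommRing R] [AddCommGroup A] [Module R A] [AddCommGroup B] [Module R B]
    [AddCommGroup D] [Module R D] (Φ : A →ₗ[R] B) (Ψ : A →ₗ[R] D) (hs : Function.Surjective Ψ)
    (hk : LinearMap.ker Φ ≤ LinearMap.ker Ψ) : Module.length R D ≤ Module.length R B := by
  have h1 : Module.length R D ≤ Module.length R (A ⧸ LinearMap.ker Φ) := by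
    apply Module.length_le_of_surjective ((LinearMap.ker Φ).liftQ Ψ hk)
    intro z
    obtain ⟨c, hc⟩ := hs z
    exact ⟨Submodule.Quotient.mk c, hc⟩
  have h2 : Module.length R (A ⧸ LinearMap.ker Φ) ≤ Module.length R B := by
    apply Module.length_le_of_injective ((LinearMap.ker Φ).liftQ Φ le_rfl)
    exact LinearMap.ker_eq_bot.1 (Submodule.ker_liftQ_eq_bot _ _ _ le_rfl)
  exact h1.trans h2

set_option maxHeartbeats 1000000 in
theorem t_SMITH : S_SMITH := by
  intro O K _ _ _ _ n ϖ N M hϖ hMN hn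
  obtain ⟨m, ⟨b⟩⟩ := Submodule.nonempty_basis_of_pid (Pi.basisFun O K) N
  obtain ⟨k, snf⟩ := (M.comap N.subtype).smithNormalForm b
  set bM := snf.bM with hbM
  have hϖ0 : ϖ ≠ 0 := hϖ.ne_zero
  have hmem : ∀ j, snf.a j • bM (snf.f j) ∈ M.comap N.subtype := by
    intro j
    rw [← snf.snf j]
    exact (snf.bN j).2
  have hrepr : ∀ x ∈ M.comap N.subtype, ∀ i, (∀ j, snf.f j = i → snf.a j ∣ bM.repr x i) ∧
      ((∀ j, snf.f j ≠ i) → bM.repr x i = 0) := by
    intro x hx i
    have hx2 : x = ∑ j, (snf.bN.repr ⟨x, hx⟩ j * snf.a j) • bM (snf.f j) := by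
      have h1 := congrArg (fun z : (M.comap N.subtype) => (z : N)) (snf.bN.sum_repr ⟨x, hx⟩)
      simp only at h1
      refine h1.symm.trans ?_
      rw [AddSubmonoidClass.coe_finsetSum]
      refine Finset.sum_congr rfl (fun j _ => ?_)
      rw [SetLike.val_smul, snf.snf j, smul_smul]
    have hx3 : bM.repr x i = ∑ j, (snf.bN.repr ⟨x, hx⟩ j * snf.a j) * (if snf.f j = i then 1 else 0) := by
      conv_lhs => rw [hx2]
      rw [map_sum, Finsupp.finsetSum_apply]
      refine Finset.sum_congr rfl (fun j _ => ?_)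
      rw [map_smul, Basis.repr_self, Finsupp.smul_apply, Finsupp.single_apply, smul_eq_mul]
    constructor
    · intro j hj
      rw [hx3]
      refine Finset.dvd_sum (fun j' _ => ?_)
      by_cases hj' : snf.f j' = i
      · have : j' = j := snf.f.injective (hj'.trans hj.symm)
        rw [this, if_pos hj, mul_one]
        exact dvd_mul_left _ _
      · rw [if_neg hj', mul_zero]
        exact dvd_zero _
    · intro hj
      rw [hx3]
      refine Finset.sum_eq_zero (fun j _ => ?_)
      rw [if_neg (hj j), mul_zero]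
  have hex : ∀ i, ∃ e : ℕ, e ≤ n ∧ ϖ ^ e • bM i ∈ M.comap N.subtype ∧
      ∀ x ∈ M.comap N.subtype, ϖ ^ e ∣ bM.repr x i := by
    intro i
    have h1 : ϖ ^ n • bM i ∈ M.comap N.subtype := hn _ (bM i).2
    have h2 : bM.repr (ϖ ^ n • bM i) i = ϖ ^ n := by
      rw [map_smul, Basis.repr_self, Finsupp.smul_apply, Finsupp.single_eq_same, smul_eq_mul, mul_one]
    by_cases hi : ∃ j, snf.f j = i
    · obtain ⟨j, hj⟩ := hi
      have h3 := (hrepr _ h1 i).1 j hj
      rw [h2] at h3
      obtain ⟨e, he, hass⟩ := (dvd_prime_pow hϖ.prime n).1 h3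
      refine ⟨e, he, ?_, ?_⟩
      · obtain ⟨u, hu⟩ := hass
        rw [← hu, mul_comm, mul_smul, ← hj]
        exact Submodule.smul_mem _ _ (hmem j)
      · intro x hx
        exact hass.symm.dvd.trans ((hrepr x hx i).1 j hj)
    · push Not at hi
      have h3 := (hrepr _ h1 i).2 hi
      rw [h2] at h3
      exact absurd h3 (pow_ne_zero _ hϖ0)
  choose e he1 he2 he3 using hex
  refine ⟨m, fun p => (bM p : K → O), e, fun p => (bM p).2, ?_, fun p => he2 p, ?_⟩
  · intro x hx
    have h1 := congrArg (fun z : N => (z : K → O)) (bM.sum_repr ⟨x, hx⟩)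
    simp only at h1
    rw [← h1, AddSubmonoidClass.coe_finsetSum]
    refine Submodule.sum_mem _ (fun p _ => ?_)
    exact Submodule.smul_mem _ _ (Submodule.subset_span ⟨p, rfl⟩)
  · have hI : maximalIdeal O ^ n = Ideal.span {ϖ ^ n} := pow_eq hϖ n
    set mkn : O →ₗ[O] Rn O n := Submodule.mkQ (maximalIdeal O ^ n) with hmkn
    have hmk0 : ∀ z : O, mkn z = 0 ↔ ϖ ^ n ∣ z := by
      intro z
      rw [hmkn, Submodule.mkQ_apply, Submodule.Quotient.mk_eq_zero, hI, Ideal.mem_span_singleton]
    set H : Fin m → Van n N M := fun p => ⟨mkn ∘ₗ (ϖ ^ (n - e p) • bM.coord p), by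
      intro x hx
      show mkn (ϖ ^ (n - e p) * bM.repr x p) = 0
      rw [hmk0]
      obtain ⟨w, hw⟩ := he3 p x hx
      rw [hw]
      refine ⟨w, ?_⟩
      rw [← mul_assoc, ← pow_add, Nat.sub_add_cancel (he1 p)]⟩ with hH
    set Φ : (Fin m → O) →ₗ[O] Van n N M := Fintype.linearCombination O H with hΦ
    have hΦe : ∀ c q, ((Φ c : Van n N M) : N →ₗ[O] Rn O n) (bM q) = mkn (c q * ϖ ^ (n - e q)) := by
      intro c q
      rw [hΦ, Fintype.linearCombination_apply, AddSubmonoidClass.coe_finsetSum, LinearMap.sum_apply,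
        Finset.sum_eq_single q]
      · show c q • mkn (ϖ ^ (n - e q) * bM.repr (bM q) q) = _
        rw [Basis.repr_self, Finsupp.single_eq_same, mul_one, ← map_smul, smul_eq_mul]
      · intro p _ hp
        show c p • mkn (ϖ ^ (n - e p) * bM.repr (bM q) p) = _
        rw [Basis.repr_self, Finsupp.single_eq_of_ne hp, mul_zero, map_zero, smul_zero]
      · intro h
        exact absurd (Finset.mem_univ q) h
    set Ψ : (Fin m → O) →ₗ[O] (∀ p : Fin m, O ⧸ Ideal.span {ϖ ^ e p}) :=
      LinearMap.pi (fun p => (Submodule.mkQ (Ideal.span {ϖ ^ e p})) ∘ₗ LinearMap.proj p) with hΨ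
    have hΨs : Function.Surjective Ψ := by
      intro z
      choose c hc using fun p => Submodule.Quotient.mk_surjective _ (z p)
      exact ⟨c, funext hc⟩
    have hker : LinearMap.ker Φ ≤ LinearMap.ker Ψ := by
      intro c hc
      rw [LinearMap.mem_ker] at hc ⊢
      funext p
      show Submodule.Quotient.mk (c p) = 0
      rw [Submodule.Quotient.mk_eq_zero, Ideal.mem_span_singleton]
      have h1 := hΦe c p
      rw [hc] at h1
      have h2 := (hmk0 _).1 h1.symm
      have h3 : ϖ ^ n = ϖ ^ e p * ϖ ^ (n - e p) := by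
        rw [← pow_add, Nat.add_sub_cancel' (he1 p)]
      rw [h3] at h2
      exact (mul_dvd_mul_iff_right (pow_ne_zero _ hϖ0)).1 h2
    have h1 : Module.length O (∀ p : Fin m, O ⧸ Ideal.span {ϖ ^ e p}) ≤ Module.length O (Van n N M) :=
      len_chain Φ Ψ hΨs hker
    refine le_trans ?_ h1
    rw [Module.length_pi_of_fintype, Nat.cast_sum]
    exact Finset.sum_le_sum (fun p _ => len_ge hϖ (e p))

end Pool.Agent.H628.CD.SMITH
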