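import Pool.Agent.H499.CD.Stm

/-! Job STD: matrix units over a local ring are conjugate to the standard ones. -/

set_option autoImplicit false

namespace Pool.Agent.H189.CD

open Matrix IsLocalRing Pool.Agent.H499.CD

/-- an idempotent matrix which is zero modulo the maximal ideal is zero -/
theorem idem_zero {O X : Type} [CommRing O] [IsLocalRing O] [Fintype X] [DecidableEq X] (e : Matrix X X O)
    (he : e * e = e) (h0 : e.map (residue O) = 0) : e = 0 := by
  have h1 : (1 - e).map (residue O) = 1 := by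
    rw [Matrix.map_sub _ (map_sub _), h0, sub_zero, Matrix.map_one _ (map_zero _) (map_one _)]
  have h2 : residue O (1 - e).det = 1 := by
    rw [RingHom.map_det, RingHom.mapMatrix_apply, h1, Matrix.det_one]
  have h3 : IsUnit (1 - e).det := by
    rw [← residue_ne_zero_iff_isUnit, h2]
    exact one_ne_zero
  have h4 : IsUnit (1 - e) := (Matrix.isUnit_iff_isUnit_det _).2 h3
  have h5 : (1 - e) * e = 0 := by rw [sub_mul, one_mul, he, sub_self]
  exact (h4.mul_right_eq_zero).1 h5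

theorem std : S_STD := by
  intro O I _ _ _ _ _ _ d E h1 h2 h3 hsum hne
  have hw : ∀ i a, ∃ w : (Σ i, Fin (d i)) → O, E i a a *ᵥ w = w ∧ ∃ y, residue O (w y) ≠ 0 := by
    intro i a
    have hres : (E i a a).map (residue O) ≠ 0 := fun h => hne i a (idem_zero _ (h1 i a a a) h)
    have hex : ∃ y x, residue O (E i a a y x) ≠ 0 := by
      by_contra hcon
      push Not at hcon
      exact hres (Matrix.ext fun y x => hcon y x)
    obtain ⟨y, x, hyx⟩ := hex
    refine ⟨E i a a *ᵥ Pi.single x 1, ?_, y, ?_⟩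
    · rw [Matrix.mulVec_mulVec, h1]
    · rw [Matrix.mulVec_single_one]
      exact hyx
  choose w hw1 hw2 using hw
  let z : ∀ i, Fin (d i) → Fin (d i) := fun i a => ⟨0, lt_of_le_of_lt (Nat.zero_le a.1) a.2⟩
  have hz : ∀ i a b, z i a = z i b := fun i a b => rfl
  let v : (Σ i, Fin (d i)) → (Σ i, Fin (d i)) → O := fun x => E x.1 x.2 (z x.1 x.2) *ᵥ w x.1 (z x.1 x.2)
  have hv : ∀ i a, v ⟨i, a⟩ = E i a (z i a) *ᵥ w i (z i a) := fun i a => rfl
  have hv1 : ∀ i a b, E i a b *ᵥ v ⟨i, b⟩ = v ⟨i, a⟩ := by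
    intro i a b
    rw [hv, hv, Matrix.mulVec_mulVec, h1, hz i b a]
  have hv0 : ∀ i a b x, x ≠ ⟨i, b⟩ → E i a b *ᵥ v x = 0 := by
    rintro i a b ⟨j, c⟩ hx
    rw [hv, Matrix.mulVec_mulVec]
    by_cases hij : i = j
    · subst hij
      have hbc : b ≠ c := by
        rintro rfl
        exact hx rfl
      rw [h2 i a b c _ hbc, Matrix.zero_mulVec]
    · rw [h3 i j hij, Matrix.zero_mulVec]
  have hv2 : ∀ x, ∃ y, residue O (v x y) ≠ 0 := by
    rintro ⟨i, a⟩
    by_contra hcon
    push Not at hcon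
    obtain ⟨y, hy⟩ := hw2 i (z i a)
    apply hy
    have h4 : E i (z i a) a *ᵥ v ⟨i, a⟩ = w i (z i a) := by
      rw [hv, Matrix.mulVec_mulVec, h1, hw1]
    rw [← h4, Matrix.mulVec, dotProduct, map_sum]
    refine Finset.sum_eq_zero fun t _ => ?_
    rw [map_mul, hcon t, mul_zero]
  let Q : Matrix (Σ i, Fin (d i)) (Σ i, Fin (d i)) O := Matrix.of fun y x => v x y
  have hQ : ∀ i a b, E i a b * Q = Q * Matrix.single ⟨i, a⟩ ⟨i, b⟩ 1 := by
    intro i a b
    ext y x
    have h5 : (E i a b * Q) y x = (E i a b *ᵥ v x) y := rfl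
    rw [h5]
    by_cases hx : x = ⟨i, b⟩
    · subst hx
      rw [hv1, Matrix.mul_single_apply_same, mul_one]
      rfl
    · rw [hv0 i a b x hx, Matrix.mul_single_apply_of_ne _ _ _ _ _ hx]
      rfl
  have hdet : IsUnit Q.det := by
    rw [← residue_ne_zero_iff_isUnit, RingHom.map_det, RingHom.mapMatrix_apply]
    intro h0
    obtain ⟨c, hc, hc0⟩ := (Matrix.exists_mulVec_eq_zero_iff).2 h0
    apply hc
    funext x
    obtain ⟨i, a⟩ := x
    obtain ⟨y, hy⟩ := hv2 ⟨i, a⟩
    have h6 : ((E i a a * Q).map (residue O)) *ᵥ c = 0 := by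
      rw [Matrix.map_mul, ← Matrix.mulVec_mulVec, hc0, Matrix.mulVec_zero]
    have h7 := congrFun h6 y
    rw [hQ, Matrix.mulVec, dotProduct, Finset.sum_eq_single (⟨i, a⟩ : Σ i, Fin (d i))] at h7
    · rw [Matrix.map_apply, Matrix.mul_single_apply_same, mul_one, Pi.zero_apply] at h7
      rcases mul_eq_zero.1 h7 with h8 | h8
      · exact absurd h8 hy
      · rw [h8]; rfl
    · intro x _ hx
      rw [Matrix.map_apply, Matrix.mul_single_apply_of_ne _ _ _ _ _ hx, map_zero, zero_mul]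
    · intro h9
      exact absurd (Finset.mem_univ _) h9
  refine ⟨Q⁻¹, Q, Matrix.nonsing_inv_mul _ hdet, Matrix.mul_nonsing_inv _ hdet, fun i a b => ?_⟩
  rw [Matrix.mul_assoc, hQ, ← Matrix.mul_assoc, Matrix.nonsing_inv_mul _ hdet, Matrix.one_mul]

end Pool.Agent.H189.CD
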