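import Pool.Agent.H499.CD.Gal
import Pool.Agent.H499.CD.MEM
import Pool.Agent.H499.CD.EXT
import Pool.Agent.H499.CD.PERM
import Pool.Agent.H499.CD.STD
import Pool.Agent.H499.CD.BURN
import Pool.Agent.H499.CD.SEL
import Pool.Agent.H499.CD.CHEB
import Pool.Agent.H499.CD.CYC
import Pool.Agent.H499.CD.GMA
import Pool.Agent.H499.CD.SMITH
import Pool.Agent.H499.CD.LEN
import Pool.Agent.H499.CD.LIFT
import Pool.Agent.H499.CD.NIL
import Pool.Agent.H499.CD.PHI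

/-!
# Congruence modules and lengths of Selmer groups: the theorem for Galois representations
-/

set_option autoImplicit false

namespace Pool.Agent.H499.CD

open Matrix IsLocalRing NumberField IsDedekindDomain Topology
open Pool.Agent.W401.Cheb (GK IsFrob)
open Pool.Agent.H499.CM (UpperDensityLE)

theorem t_GMA : S_GMA :=
  Pool.Agent.H294.CD.gma (Pool.Agent.H307.CD.phi Pool.Agent.H628.CD.NIL.t_NIL) Pool.Agent.H181.CD.lift
    Pool.Agent.H189.CD.std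

theorem main_gal {F O : Type} [Field F] [NumberField F] [CommRing O] [IsDomain O]
    [IsDiscreteValuationRing O] [IsAdicComplete (maximalIdeal O) O] {S : Set (HeightOneSpectrum (𝓞 F))}
    (hS : UpperDensityLE (fun v => v ∈ S) 0) {s : ℕ} {d : Fin s → ℕ}
    (ρ : ∀ i, GK F →* Matrix (Fin (d i)) (Fin (d i)) O)
    (hρ : ∀ i m, IsOpen {g | ∀ x y, (ρ i g - 1) x y ∈ maximalIdeal O ^ m}) (hd : ∀ i, 0 < d i)
    (hirr : ∀ i, Submodule.span (ResidueField O) (Set.range fun σ => (ρ i σ).map (residue O)) = ⊤)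
    (hne : ∀ i j, i ≠ j → ∃ σ, residue O (ρ i σ).trace ≠ residue O (ρ j σ).trace)
    {K : Type} [Fintype K] (r : K → GK F →* Matrix (Fin (∑ i, d i)) (Fin (∑ i, d i)) O)
    (hr : ∀ κ m, IsOpen {g | ∀ x y, (r κ g - 1) x y ∈ maximalIdeal O ^ m})
    (hr' : ∀ κ, Cong ρ (r κ) → Irr (r κ)) (Pc : Cls O (GK F)) (hPc : Closed Pc)
    (hP : ∀ κ, Cong ρ (r κ) → ∀ m, Pc _ (modRep m (r κ))) (n : ℕ) (hn0 : n ≠ 0)
    (T : Subalgebra O (K → O))
    (hT : T = Algebra.adjoin O {x | ∃ v ∉ S, ∃ σ, IsFrob v σ ∧ x = fun κ => (r κ σ⁻¹).trace})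
    (hn : (n : ℕ∞) ≤ Module.length O (T ⧸ (Ideal.span {x : T | ∃ v ∉ S, ∃ σ, IsFrob v σ ∧
      ∀ κ, (x : K → O) κ = (r κ σ⁻¹).trace - ∑ i, (ρ i σ⁻¹).trace} : Ideal T))) : Concl n ρ Pc := by
  classical
  -- the generators
  set ι : Type := {σ : GK F // ∃ v ∉ S, IsFrob v σ} with hι
  have hmem : ∀ σ : ι, (fun κ => (r κ (σ : GK F)⁻¹).trace) ∈ T := by
    rintro ⟨σ, v, hv, hσ⟩
    rw [hT]
    exact Algebra.subset_adjoin ⟨v, hv, σ, hσ, rfl⟩
  set x : ι → T := fun σ => ⟨_, hmem σ⟩ with hx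
  set c : ι → O := fun σ => ∑ i, (ρ i (σ : GK F)⁻¹).trace with hc
  have hadj : Algebra.adjoin O (Set.range x) = ⊤ := by
    have h1 := Algebra.adjoin_adjoin_coe_preimage (R := O)
      (s := {x : K → O | ∃ v ∉ S, ∃ σ, IsFrob v σ ∧ x = fun κ => (r κ σ⁻¹).trace})
    subst hT
    refine Eq.trans ?_ h1
    congr 1
    ext y
    constructor
    · rintro ⟨⟨σ, v, hv, hσ⟩, rfl⟩
      exact ⟨v, hv, σ, hσ, rfl⟩
    · rintro ⟨v, hv, σ, hσ, h2⟩
      exact ⟨⟨σ, v, hv, hσ⟩, Subtype.ext h2.symm⟩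
  have hideal : {x : T | ∃ v ∉ S, ∃ σ, IsFrob v σ ∧
      ∀ κ, (x : K → O) κ = (r κ σ⁻¹).trace - ∑ i, (ρ i σ⁻¹).trace} = Set.range fun i => x i - algebraMap O T (c i) := by
    ext y
    constructor
    · rintro ⟨v, hv, σ, hσ, h2⟩
      refine ⟨⟨σ, v, hv, hσ⟩, Subtype.ext ?_⟩
      funext κ
      exact (h2 κ).symm
    · rintro ⟨⟨σ, v, hv, hσ⟩, rfl⟩
      exact ⟨v, hv, σ, hσ, fun κ => rfl⟩
  rw [hideal] at hn
  obtain ⟨φ, hφ⟩ := Pool.Agent.H996.CD.cyc_proof O T ι x c n hadj hn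
  have htr := Pool.Agent.H921.CD.t_CHEB O (GK F) K (Fin s) (Fin (∑ i, d i)) n d ρ r {σ | ∃ v ∉ S, IsFrob v σ}
    (dense_fr hS) hr hρ T φ (fun σ hσ => ⟨hmem ⟨σ, hσ⟩, hφ ⟨σ, hσ⟩⟩)
  have hspan := Pool.Agent.H703.CD.burn (ResidueField O) (GK F) (Fin s) d
    (fun i => ((residue O).mapMatrix : Matrix (Fin (d i)) (Fin (d i)) O →+* _).toMonoidHom.comp (ρ i)) hd
    (fun i => hirr i) (fun i j hij => by
      obtain ⟨σ, hσ⟩ := hne i j hij
      refine ⟨σ, ?_⟩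
      have h3 : ∀ i, ((((residue O).mapMatrix : Matrix (Fin (d i)) (Fin (d i)) O →+* _).toMonoidHom.comp (ρ i)) σ).trace =
          residue O (ρ i σ).trace := fun i => (AddMonoidHom.map_trace (residue O : O →+* _) (ρ i σ)).symm
      rw [h3, h3]
      exact hσ)
  have e : Fin (∑ i, d i) ≃ Σ i, Fin (d i) := finSigmaFinEquiv.symm
  have hcg : ∀ κ, Cong ρ (rix e (r κ)) → Cong ρ (r κ) := fun κ h g => by
    rw [← rix_trace e]
    exact h g
  refine core_loc t_GMA (Pool.Agent.H628.CD.LEN.len Pool.Agent.H628.CD.PERM.t_PERM Pool.Agent.H628.CD.SMITH.t_SMITH)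
    Pool.Agent.H980.CD.t_EXT Pool.Agent.H548.CD.MEM.t_MEM Pool.Agent.H996.CD.red_proof hn0 hd hspan
    (r := fun κ => rix e (r κ)) (fun κ h => rix_irr e _ (hr' κ (hcg κ h))) (T := T) (φ := φ) ?_ Pc hPc
    (fun κ h m => rix_cls e _ hPc m (hP κ (hcg κ h) m))
  intro g
  have h4 : (fun κ => (rix e (r κ) g).trace) = fun κ => (r κ g).trace := funext fun κ => rix_trace e _ g
  rw [h4]
  exact htr g

end Pool.Agent.H499.CD
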