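import Pool.Agent.H499.CD.Stm

/-!
# Congruence modules and lengths of Selmer groups: the assembly for abstract groups
-/

set_option autoImplicit false

namespace Pool.Agent.H499.CD

open Matrix IsLocalRing

section

variable {O G : Type} [CommRing O] [IsDomain O] [IsDiscreteValuationRing O] [IsAdicComplete (maximalIdeal O) O]
  [Group G]

/-- the conclusion: subspaces of the cocycles, independent of the coboundaries, with extensions in the class, whose
lengths have sum at least `n` over every cut -/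
def Concl {I : Type} [Fintype I] [DecidableEq I] (n : ℕ) {d : I → ℕ}
    (ρ : ∀ i, G →* Matrix (Fin (d i)) (Fin (d i)) O) (Pc : Cls O G) : Prop :=
  ∃ W : ∀ i j : I, Submodule O (G → Matrix (Fin (d i)) (Fin (d j)) (Rn O n)),
    (∀ i j, i ≠ j → ∀ c ∈ W i j, ∃ h : c ∈ Coc n (ρ j) (ρ i), Pc _ (extRep n (ρ j) (ρ i) ⟨c, h⟩)) ∧
    (∀ i j, i ≠ j → ∀ c ∈ W i j, c ∈ Cob n (ρ j) (ρ i) → c = 0) ∧
    ∀ S : Finset I, S.Nonempty → Sᶜ.Nonempty → (n : ℕ∞) ≤ ∑ i ∈ S, ∑ j ∈ Sᶜ, Module.length O (W i j)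

theorem len_range {O M N : Type} [Ring O] [AddCommGroup M] [Module O M] [AddCommGroup N] [Module O N]
    (f : M →ₗ[O] N) (hf : ∀ x, f x = 0 → x = 0) : Module.length O M = Module.length O (LinearMap.range f) :=
  (LinearEquiv.ofInjective f ((injective_iff_map_eq_zero f).2 hf)).length_eq

/-- the theorem for local data -/
theorem core_hyp (hGMA : S_GMA) (hLEN : S_LEN) (hEXT : S_EXT) (hMEM : S_MEM) {K I : Type} [Fintype K] [Nonempty K]
    [Fintype I] [DecidableEq I] {n : ℕ} {d : I → ℕ} {ρ : ∀ i, G →* Matrix (Fin (d i)) (Fin (d i)) O}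
    {r : K → G →* Matrix (Σ i, Fin (d i)) (Σ i, Fin (d i)) O} {T : Subalgebra O (K → O)} {φ : T →ₐ[O] Rn O n}
    (H : Hyp n ρ r T φ) (Pc : Cls O G) (hP : Closed Pc) (hr : ∀ κ m, Pc _ (modRep m (r κ))) : Concl n ρ Pc := by
  classical
  obtain ⟨P, Q, a, R, hPQ, hQP, hR, hG, hGR⟩ := hGMA O G K I n d ρ r T φ H
  choose F hF1 hF2 using hEXT O G K I n d ρ R T φ a H.pos hG hGR
  refine ⟨fun i j => if h : i ≠ j then LinearMap.range ((Coc n (ρ j) (ρ i)).subtype ∘ₗ F i j h) else ⊥, ?_, ?_, ?_⟩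
  · intro i j hij c hc
    beta_reduce at hc
    rw [dif_pos hij] at hc
    obtain ⟨h, rfl⟩ := hc
    refine ⟨(F i j hij h).2, ?_⟩
    exact hMEM O G K I n d ρ r P Q R T φ a hPQ hQP hR hG hGR Pc hP hr i j hij h.1 h.2 _ fun g p q => hF1 i j hij h g p q
  · intro i j hij c hc hcob
    beta_reduce at hc
    rw [dif_pos hij] at hc
    obtain ⟨h, rfl⟩ := hc
    have h0 := hF2 i j hij h hcob
    rw [h0, map_zero]
  · intro S h1 h2
    refine (hLEN O K I n T φ a hG S h1 h2).trans ?_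
    refine Finset.sum_le_sum fun i hi => Finset.sum_le_sum fun j hj => ?_
    have hij : i ≠ j := by
      rintro rfl
      exact (Finset.mem_compl.1 hj) hi
    beta_reduce
    rw [dif_pos hij]
    refine le_of_eq (len_range _ ?_)
    intro x hx
    have h3 : ((F i j hij x : Coc n (ρ j) (ρ i)) : G → Matrix (Fin (d i)) (Fin (d j)) (Rn O n)) = 0 := hx
    refine hF2 i j hij x ?_
    rw [h3]
    exact Submodule.zero_mem _

/-- the traces of `r κ` and `∑ ρ i` are congruent modulo `𝔪` -/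
def Cong {X I : Type} [Fintype X] [DecidableEq X] [Fintype I] {d : I → ℕ}
    (ρ : ∀ i, G →* Matrix (Fin (d i)) (Fin (d i)) O) (r : G →* Matrix X X O) : Prop :=
  ∀ g, (r g).trace - ∑ i, (ρ i g).trace ∈ maximalIdeal O

/-- the theorem for a general `T` -/
theorem core_loc (hGMA : S_GMA) (hLEN : S_LEN) (hEXT : S_EXT) (hMEM : S_MEM) (hRED : S_RED) {K I : Type} [Fintype K]
    [Fintype I] [DecidableEq I] {n : ℕ} (hn : n ≠ 0) {d : I → ℕ} {ρ : ∀ i, G →* Matrix (Fin (d i)) (Fin (d i)) O}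
    (hd : ∀ i, 0 < d i)
    (hspan : Submodule.span (ResidueField O) (Set.range fun (g : G) i => (ρ i g).map (residue O)) = ⊤)
    {r : K → G →* Matrix (Σ i, Fin (d i)) (Σ i, Fin (d i)) O} (hirr : ∀ κ, Cong ρ (r κ) → Irr (r κ))
    {T : Subalgebra O (K → O)} {φ : T →ₐ[O] Rn O n}
    (htr : ∀ g, ∃ h : (fun κ => (r κ g).trace) ∈ T, φ ⟨_, h⟩ = Ideal.Quotient.mk _ (∑ i, (ρ i g).trace))
    (Pc : Cls O G) (hP : Closed Pc) (hr : ∀ κ, Cong ρ (r κ) → ∀ m, Pc _ (modRep m (r κ))) : Concl n ρ Pc := by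
  obtain ⟨s, T', φ', hs, h1, h2⟩ := hRED O K n T φ hn
  have hcong : ∀ κ : s, Cong ρ (r κ) := by
    intro κ g
    obtain ⟨h3, h4⟩ := htr g
    obtain ⟨h5, h6⟩ := h1 ⟨_, h3⟩
    have h7 : φ' (⟨_, h5⟩ - algebraMap O T' (∑ i, (ρ i g).trace)) = 0 := by
      rw [map_sub, h6, h4, AlgHom.commutes]
      exact sub_self _
    exact h2 _ h7 κ
  have : Nonempty s := hs.to_subtype
  refine core_hyp hGMA hLEN hEXT hMEM (K := s) (r := fun κ => r κ) (T := T') (φ := φ') ?_ Pc hP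
    fun κ m => hr κ (hcong κ) m
  refine ⟨hn, hd, hspan, fun κ => hirr κ (hcong κ), fun g => ?_, fun g h => ?_, h2⟩
  · obtain ⟨h3, h4⟩ := htr g
    exact (h1 ⟨_, h3⟩).1
  · obtain ⟨h3, h4⟩ := htr g
    obtain ⟨h5, h6⟩ := h1 ⟨_, h3⟩
    exact h6.trans h4

end

end Pool.Agent.H499.CD
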