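import Pool.Agent.H499.CD.Core
import Pool.Agent.H499.ES.Gal

/-!
# Congruence modules and lengths of Selmer groups: Galois representations
-/

set_option autoImplicit false

namespace Pool.Agent.H499.CD

open Matrix IsLocalRing NumberField IsDedekindDomain Topology
open Pool.Agent.W401.Cheb (GK IsFrob)
open Pool.Agent.H499.CM (UpperDensityLE)

theorem dense_fr {F : Type} [Field F] [NumberField F] {S : Set (HeightOneSpectrum (𝓞 F))}
    (hS : UpperDensityLE (fun v => v ∈ S) 0) : Dense {σ : GK F | ∃ v ∉ S, IsFrob v σ} := by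
  have h := Pool.Agent.H499.ES.dense_frob hS
  have h2 := (inv_surjective.denseRange (f := fun g : GK F => g⁻¹)).dense_image continuous_inv h
  refine h2.mono ?_
  rintro _ ⟨g, ⟨v, hv, σ, hσ, rfl⟩, rfl⟩
  exact ⟨v, hv, by simpa using hσ⟩

section reindex

variable {O G : Type} [CommRing O] [IsDomain O] [IsDiscreteValuationRing O] [Group G] {X Y : Type} [Fintype X]
  [DecidableEq X] [Fintype Y] [DecidableEq Y]

/-- change of the index set -/
def rix (e : X ≃ Y) (r : G →* Matrix X X O) : G →* Matrix Y Y O where
  toFun g := (r g).submatrix e.symm e.symm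
  map_one' := by rw [map_one, Matrix.submatrix_one_equiv]
  map_mul' g h := by rw [map_mul, Matrix.submatrix_mul_equiv]

theorem rix_trace (e : X ≃ Y) (r : G →* Matrix X X O) (g : G) : (rix e r g).trace = (r g).trace :=
  Fintype.sum_equiv e.symm _ _ fun _ => rfl

theorem rix_irr (e : X ≃ Y) (r : G →* Matrix X X O) (h : Irr r) : Irr (rix e r) := by
  intro W hW
  set f : (Y → FractionRing O) ≃ₗ[FractionRing O] (X → FractionRing O) :=
    LinearEquiv.funCongrLeft (FractionRing O) (FractionRing O) e with hf
  have h1 := h (W.map (f : (Y → FractionRing O) →ₗ[FractionRing O] (X → FractionRing O))) (by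
    rintro g _ ⟨w, hw, rfl⟩
    refine ⟨_, hW g w hw, ?_⟩
    funext x
    show (((rix e r g).map (algebraMap O (FractionRing O))) *ᵥ w) (e x) =
      (((r g).map (algebraMap O (FractionRing O))) *ᵥ (fun x => w (e x))) x
    rw [Matrix.mulVec, Matrix.mulVec, dotProduct, dotProduct]
    refine (Fintype.sum_equiv e _ _ fun y => ?_).symm
    show algebraMap O (FractionRing O) (r g x y) * w (e y) =
      algebraMap O (FractionRing O) (r g (e.symm (e x)) (e.symm (e y))) * w (e y)
    rw [Equiv.symm_apply_apply, Equiv.symm_apply_apply])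
  rcases h1 with h1 | h1
  · left
    exact Submodule.map_eq_bot_iff.1 h1
  · right
    refine Submodule.map_injective_of_injective f.injective ?_
    rw [h1]
    exact (Submodule.map_top _ |>.trans (LinearEquiv.range f)).symm

theorem rix_cls (e : X ≃ Y) (r : G →* Matrix X X O) {Pc : Cls O G} (hP : Closed Pc) (m : ℕ)
    (h : Pc _ (modRep m r)) : Pc _ (modRep m (rix e r)) := by
  refine hP.sub _ _ (modRep m (rix e r)) (modRep m r)
    (LinearMap.funLeft O (Rn O m) e) ?_ (LinearMap.funLeft_injective_of_surjective _ _ _ e.surjective) h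
  intro g v
  funext x
  show (red m (rix e r g) *ᵥ v) (e x) = (red m (r g) *ᵥ (fun x => v (e x))) x
  rw [Matrix.mulVec, Matrix.mulVec, dotProduct, dotProduct]
  refine (Fintype.sum_equiv e _ _ fun y => ?_).symm
  show Ideal.Quotient.mk _ (r g x y) * v (e y) =
    Ideal.Quotient.mk _ (r g (e.symm (e x)) (e.symm (e y))) * v (e y)
  rw [Equiv.symm_apply_apply, Equiv.symm_apply_apply]

theorem rix_cont [TopologicalSpace G] (e : X ≃ Y) (r : G →* Matrix X X O) (m : ℕ)
    (h : IsOpen {g | ∀ x y, (r g - 1) x y ∈ maximalIdeal O ^ m}) :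
    IsOpen {g | ∀ x y, (rix e r g - 1) x y ∈ maximalIdeal O ^ m} := by
  have h1 : {g | ∀ x y, (rix e r g - 1) x y ∈ maximalIdeal O ^ m} =
      {g | ∀ x y, (r g - 1) x y ∈ maximalIdeal O ^ m} := by
    have h2 : ∀ g x y, (rix e r g - 1) (e x) (e y) = (r g - 1) x y := by
      intro g x y
      show r g (e.symm (e x)) (e.symm (e y)) - (1 : Matrix Y Y O) (e x) (e y) = r g x y - (1 : Matrix X X O) x y
      rw [Equiv.symm_apply_apply, Equiv.symm_apply_apply, Matrix.one_apply, Matrix.one_apply]
      simp only [EmbeddingLike.apply_eq_iff_eq]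
    ext g
    constructor
    · intro h3 x y
      rw [← h2]
      exact h3 _ _
    · intro h3 x y
      have := h3 (e.symm x) (e.symm y)
      rw [← h2, Equiv.apply_symm_apply, Equiv.apply_symm_apply] at this
      exact this
  rw [h1]
  exact h

end reindex

end Pool.Agent.H499.CD
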