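import Pool.Agent.H499.CD.Stm

/-!
# Congruence modules: the algebra generated by the representations and the homomorphism to the product of matrix algebras
-/

set_option autoImplicit false

namespace Pool.Agent.H307.CD

open Matrix IsLocalRing Pool.Agent.H499.CD

section gen

variable {O : Type} [CommRing O]

theorem mono_mem {M : Type} [AddCommGroup M] [Module O M] {I : Ideal O} {N P : Submodule O M} (h : N ≤ P) {x : M}
    (hx : x ∈ I • N) : x ∈ I • P :=
  (smul_mono_right I h : I • N ≤ I • P) hx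

/-- a dependent family is in `I • ⊤` if all its members are -/
theorem pi_mem {ι : Type} [Fintype ι] [DecidableEq ι] (M : ι → Type) [∀ i, AddCommGroup (M i)] [∀ i, Module O (M i)]
    (I : Ideal O) (x : ∀ i, M i) (h : ∀ i, x i ∈ I • (⊤ : Submodule O (M i))) :
    x ∈ I • (⊤ : Submodule O (∀ i, M i)) := by
  have e : x = ∑ i, LinearMap.single O M i (x i) := by
    funext j
    rw [Finset.sum_apply, Finset.sum_eq_single j]
    · simp
    · intro b _ hb
      simp [LinearMap.single_apply, Pi.single_eq_of_ne hb.symm]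
    · intro h; exact absurd (Finset.mem_univ _) h
  rw [e]
  refine Submodule.sum_mem _ fun i _ => ?_
  have h1 : LinearMap.single O M i (x i) ∈ (I • (⊤ : Submodule O (M i))).map (LinearMap.single O M i) :=
    Submodule.mem_map_of_mem (h i)
  rw [Submodule.map_smul''] at h1
  exact mono_mem le_top h1

theorem ring_mem {I : Ideal O} {x : O} (h : x ∈ I) : x ∈ I • (⊤ : Submodule O O) := by
  rw [smul_eq_mul, Ideal.mul_top]
  exact h

theorem mul_mem_smul {R : Type} [Ring R] [Algebra O R] {I : Ideal O} (y z : R) (hz : z ∈ I • (⊤ : Submodule O R)) :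
    y * z ∈ I • (⊤ : Submodule O R) := by
  have h1 : LinearMap.mulLeft O y z ∈ (I • (⊤ : Submodule O R)).map (LinearMap.mulLeft O y) :=
    Submodule.mem_map_of_mem hz
  rw [Submodule.map_smul''] at h1
  exact mono_mem le_top h1

theorem pow_mem_smul {R : Type} [Ring R] [Algebra O R] {I : Ideal O} (y : R) (hy : y ∈ I • (⊤ : Submodule O R))
    (m : ℕ) : y ^ m ∈ I ^ m • (⊤ : Submodule O R) := by
  induction m with
  | zero => rw [pow_zero, pow_zero, Ideal.one_eq_top, Submodule.top_smul]; trivial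
  | succ m ih =>
    have h1 : LinearMap.mulRight O y (y ^ m) ∈ (I ^ m • (⊤ : Submodule O R)).map (LinearMap.mulRight O y) :=
      Submodule.mem_map_of_mem ih
    rw [Submodule.map_smul''] at h1
    rw [pow_succ, pow_succ, Submodule.mul_smul]
    refine mono_mem ?_ h1
    rintro _ ⟨w, -, rfl⟩
    exact mul_mem_smul w y hy

/-- consequence of the Artin-Rees lemma -/
theorem artin_rees {R : Type} [Ring R] [Algebra O R] [Module.Finite O R] [IsNoetherianRing O] (I : Ideal O)
    (A : Subalgebra O R) : ∃ k : ℕ, ∀ x : A, (x : R) ∈ I ^ k • (⊤ : Submodule O R) → x ∈ I • (⊤ : Submodule O A) := by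
  obtain ⟨k, hk⟩ := Ideal.exists_pow_inf_eq_pow_smul I (Subalgebra.toSubmodule A)
  refine ⟨k + 1, fun x hx => ?_⟩
  have h1 : (x : R) ∈ I ^ (k + 1) • (⊤ : Submodule O R) ⊓ Subalgebra.toSubmodule A := ⟨hx, x.2⟩
  rw [hk (k + 1) (Nat.le_succ k), Nat.add_sub_cancel_left, pow_one] at h1
  have h2 : (x : R) ∈ I • (Subalgebra.toSubmodule A) := mono_mem inf_le_right h1
  have h3 : Subalgebra.toSubmodule A = (⊤ : Submodule O A).map A.val.toLinearMap := by
    rw [Submodule.map_top]
    ext y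
    constructor
    · intro hy; exact ⟨⟨y, hy⟩, rfl⟩
    · rintro ⟨z, rfl⟩; exact z.2
  rw [h3, ← Submodule.map_smul''] at h2
  obtain ⟨y, hy, hyx⟩ := h2
  have : y = x := Subtype.ext hyx
  rwa [this] at hy

/-- factorisation through the range -/
theorem exists_fac {R M₁ M₂ : Type} [Ring R] [Ring M₁] [Ring M₂] [Algebra O R] [Algebra O M₁] [Algebra O M₂]
    (e₁ : R →ₐ[O] M₁) (e₂ : R →ₐ[O] M₂) (h : ∀ c, e₁ c = 0 → e₂ c = 0) :
    ∃ Φ : e₁.range →ₐ[O] M₂, ∀ c (hc : e₁ c ∈ e₁.range), Φ ⟨e₁ c, hc⟩ = e₂ c := by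
  classical
  have hwd : ∀ c c', e₁ c = e₁ c' → e₂ c = e₂ c' := by
    intro c c' hc
    have h1 := h (c - c') (by rw [map_sub, hc, sub_self])
    rw [map_sub, sub_eq_zero] at h1
    exact h1
  have hs : ∀ x : e₁.range, ∃ c, e₁ c = x := fun x => x.2
  choose s hs using hs
  refine ⟨⟨⟨⟨⟨fun x => e₂ (s x), ?_⟩, ?_⟩, ?_, ?_⟩, ?_⟩, ?_⟩
  · rw [← map_one e₂]
    apply hwd
    rw [hs, map_one]; rfl
  · intro x y
    show e₂ (s (x * y)) = e₂ (s x) * e₂ (s y)
    rw [← map_mul]
    apply hwd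
    rw [hs, map_mul, hs, hs]; rfl
  · show e₂ (s 0) = 0
    rw [← map_zero e₂]
    apply hwd
    rw [hs, map_zero]; rfl
  · intro x y
    show e₂ (s (x + y)) = e₂ (s x) + e₂ (s y)
    rw [← map_add]
    apply hwd
    rw [hs, map_add, hs, hs]; rfl
  · intro r
    show e₂ (s (algebraMap O _ r)) = algebraMap O _ r
    rw [← e₂.commutes]
    apply hwd
    rw [hs, e₁.commutes]; rfl
  · intro c hc
    show e₂ (s _) = e₂ c
    apply hwd
    rw [hs]

end gen

section loc

variable {O G K I : Type} [CommRing O] [IsLocalRing O] [Group G] [Fintype I] [DecidableEq I]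

/-- the tuple of the reductions -/
def rb (n : ℕ) {d : I → ℕ} (ρ : ∀ i, G →* Matrix (Fin (d i)) (Fin (d i)) O) :
    G →* (∀ i, Matrix (Fin (d i)) (Fin (d i)) (Rn O n)) where
  toFun g i := red n (ρ i g)
  map_one' := by
    funext i
    rw [map_one]
    exact Matrix.map_one _ (map_zero _) (map_one _)
  map_mul' g h := by
    funext i
    rw [map_mul]
    exact Matrix.map_mul

theorem mat_mem {a b : Type} [Fintype a] [Fintype b] [DecidableEq a] [DecidableEq b] (J : Ideal O) (x : Matrix a b O)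
    (h : ∀ p q, x p q ∈ J) : x ∈ J • (⊤ : Submodule O (Matrix a b O)) :=
  pi_mem (fun _ : a => b → O) J x fun p => pi_mem (fun _ : b => O) J (x p) fun q => ring_mem (h p q)

theorem mat_mem' {a b : Type} [Fintype a] [Fintype b] [DecidableEq a] [DecidableEq b] [Fintype K] [DecidableEq K]
    (J : Ideal O) (x : Matrix a b (K → O)) (h : ∀ p q κ, x p q κ ∈ J) :
    x ∈ J • (⊤ : Submodule O (Matrix a b (K → O))) :=
  pi_mem (fun _ : a => b → K → O) J x fun p => pi_mem (fun _ : b => K → O) J (x p) fun q =>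
    pi_mem (fun _ : K => O) J (x p q) fun κ => ring_mem (h p q κ)

theorem pow_mat_mem {X : Type} [Fintype X] [DecidableEq X] [Fintype K] [DecidableEq K] (J : Ideal O)
    (M : Matrix X X (K → O)) (h : ∀ p q κ, M p q κ ∈ J) (k : ℕ) :
    M ^ k ∈ J ^ k • (⊤ : Submodule O (Matrix X X (K → O))) := by
  have h1 := mat_mem' J M h
  exact pow_mem_smul M h1 k

theorem span_top {d : I → ℕ} (ρ : ∀ i, G →* Matrix (Fin (d i)) (Fin (d i)) O)
    (h : Submodule.span (ResidueField O) (Set.range fun (g : G) i => (ρ i g).map (residue O)) = ⊤) :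
    Submodule.span O (Set.range fun (g : G) i => ρ i g) = ⊤ := by
  have key : ∀ y ∈ Submodule.span (ResidueField O) (Set.range fun (g : G) i => (ρ i g).map (residue O)),
      ∃ w ∈ Submodule.span O (Set.range fun (g : G) i => ρ i g), ∀ i, (w i).map (residue O) = y i := by
    intro y hy
    induction hy using Submodule.span_induction with
    | mem y hy =>
      obtain ⟨g, rfl⟩ := hy
      exact ⟨_, Submodule.subset_span ⟨g, rfl⟩, fun i => rfl⟩
    | zero => exact ⟨0, Submodule.zero_mem _, fun i => by ext p q; simp⟩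
    | add y z _ _ hy hz =>
      obtain ⟨w, hw, hw'⟩ := hy
      obtain ⟨w₂, hw₂, hw₂'⟩ := hz
      refine ⟨w + w₂, Submodule.add_mem _ hw hw₂, fun i => ?_⟩
      rw [Pi.add_apply, Pi.add_apply, ← hw', ← hw₂']
      ext p q; simp
    | smul a y _ hy =>
      obtain ⟨w, hw, hw'⟩ := hy
      obtain ⟨o, rfl⟩ := residue_surjective a
      refine ⟨o • w, Submodule.smul_mem _ _ hw, fun i => ?_⟩
      rw [Pi.smul_apply, Pi.smul_apply, ← hw']
      ext p q; simp
  rw [eq_top_iff]
  refine Submodule.le_of_le_smul_of_le_jacobson_bot (I := maximalIdeal O) Module.Finite.fg_top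
    (maximalIdeal_le_jacobson _) ?_
  intro w _
  obtain ⟨w', hw', e⟩ := key (fun i => (w i).map (residue O)) (by rw [h]; trivial)
  have e2 : w = w' + (w - w') := by abel
  rw [e2]
  refine Submodule.add_mem_sup hw' ?_
  refine pi_mem _ _ _ fun i => mat_mem _ _ fun p q => ?_
  rw [← residue_eq_zero_iff, Pi.sub_apply, Matrix.sub_apply, map_sub, sub_eq_zero]
  have e3 := congrFun (congrFun (e i) p) q
  rw [Matrix.map_apply, Matrix.map_apply] at e3
  exact e3.symm

theorem span_rb (n : ℕ) {d : I → ℕ} (ρ : ∀ i, G →* Matrix (Fin (d i)) (Fin (d i)) O)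
    (h : Submodule.span (ResidueField O) (Set.range fun (g : G) i => (ρ i g).map (residue O)) = ⊤) :
    Submodule.span O (Set.range (rb n ρ)) = ⊤ := by
  let f : (∀ i, Matrix (Fin (d i)) (Fin (d i)) O) →ₗ[O] (∀ i, Matrix (Fin (d i)) (Fin (d i)) (Rn O n)) :=
    { toFun := fun w i => red n (w i)
      map_add' := fun w w' => by
        funext i
        ext p q
        simp [red]
      map_smul' := fun o w => by
        funext i
        ext p q
        simp only [red, Matrix.map_apply, Pi.smul_apply, Matrix.smul_apply, RingHom.id_apply]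
        rfl }
  have hf : Function.Surjective f := by
    intro w
    have h2 : ∀ i p q, ∃ o : O, Ideal.Quotient.mk (maximalIdeal O ^ n) o = w i p q := fun i p q =>
      Ideal.Quotient.mk_surjective _
    choose o ho using h2
    refine ⟨fun i => Matrix.of (o i), ?_⟩
    funext i
    ext p q
    exact ho i p q
  have e : Set.range (rb n ρ) = f '' (Set.range fun (g : G) i => ρ i g) := by
    ext y
    constructor
    · rintro ⟨g, rfl⟩
      exact ⟨_, ⟨g, rfl⟩, rfl⟩
    · rintro ⟨_, ⟨g, rfl⟩, rfl⟩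
      exact ⟨g, rfl⟩
  rw [e, ← Submodule.map_span, span_top ρ h, Submodule.map_top, LinearMap.range_eq_top]
  exact hf

theorem ex_e1 [Fintype K] {X : Type} [Fintype X] [DecidableEq X] (R : G →* Matrix X X (K → O)) (T : Subalgebra O (K → O)) :
    ∃ e : MonoidAlgebra T G →ₐ[O] Matrix X X (K → O), ∀ g (t : T), e (MonoidAlgebra.single g t) = (t : K → O) • R g := by
  refine ⟨MonoidAlgebra.liftNCAlgHom (((Algebra.ofId (K → O) (Matrix X X (K → O))).restrictScalars O).comp T.val) R
    (fun x y => Algebra.commutes _ _), fun g t => ?_⟩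
  rw [Algebra.smul_def, MonoidAlgebra.coe_liftNCAlgHom]
  exact MonoidAlgebra.liftNC_single _ _ _ _

theorem ex_e2 (n : ℕ) {d : I → ℕ} (R : G →* (∀ i, Matrix (Fin (d i)) (Fin (d i)) (Rn O n))) (T : Subalgebra O (K → O))
    (φ : T →ₐ[O] Rn O n) :
    ∃ e : MonoidAlgebra T G →ₐ[O] (∀ i, Matrix (Fin (d i)) (Fin (d i)) (Rn O n)), ∀ g (t : T),
      e (MonoidAlgebra.single g t) = φ t • R g := by
  refine ⟨MonoidAlgebra.liftNCAlgHom
    (((Algebra.ofId (Rn O n) (∀ i, Matrix (Fin (d i)) (Fin (d i)) (Rn O n))).restrictScalars O).comp φ) R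
    (fun x y => show Commute (algebraMap (Rn O n) (∀ i, Matrix (Fin (d i)) (Fin (d i)) (Rn O n)) (φ x)) (R y) from
      Algebra.commutes (φ x) (R y)), fun g t => ?_⟩
  rw [Algebra.smul_def, MonoidAlgebra.coe_liftNCAlgHom]
  exact MonoidAlgebra.liftNC_single _ _ _ _

end loc

section main

variable {O G K I : Type} [CommRing O] [IsLocalRing O] [Group G] [Fintype I] [DecidableEq I] {n : ℕ} {d : I → ℕ}
  {ρ : ∀ i, G →* Matrix (Fin (d i)) (Fin (d i)) O} {r : K → G →* Matrix (Σ i, Fin (d i)) (Σ i, Fin (d i)) O}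
  {T : Subalgebra O (K → O)} {φ : T →ₐ[O] Rn O n}
  {e₁ : MonoidAlgebra T G →ₐ[O] Matrix (Σ i, Fin (d i)) (Σ i, Fin (d i)) (K → O)}
  {e₂ : MonoidAlgebra T G →ₐ[O] (∀ i, Matrix (Fin (d i)) (Fin (d i)) (Rn O n))}

theorem sum_e1 (he₁ : ∀ g (t : T), e₁ (MonoidAlgebra.single g t) = (t : K → O) • fam r g) (c : MonoidAlgebra T G) :
    e₁ c = c.coeff.sum fun g s => (s : K → O) • fam r g := by
  conv_lhs => rw [← MonoidAlgebra.sum_coeff_single c]
  rw [map_finsuppSum]
  simp only [he₁]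

theorem sum_e2 (he₂ : ∀ g (t : T), e₂ (MonoidAlgebra.single g t) = φ t • rb n ρ g) (c : MonoidAlgebra T G) :
    e₂ c = c.coeff.sum fun g s => φ s • rb n ρ g := by
  conv_lhs => rw [← MonoidAlgebra.sum_coeff_single c]
  rw [map_finsuppSum]
  simp only [he₂]

theorem trace_e (H : Hyp n ρ r T φ) (he₁ : ∀ g (t : T), e₁ (MonoidAlgebra.single g t) = (t : K → O) • fam r g)
    (he₂ : ∀ g (t : T), e₂ (MonoidAlgebra.single g t) = φ t • rb n ρ g) (c : MonoidAlgebra T G) :
    ∃ h : (e₁ c).trace ∈ T, φ ⟨_, h⟩ = ∑ i, (e₂ c i).trace := by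
  induction c using MonoidAlgebra.induction_linear with
  | zero =>
    have h0 : (e₁ 0).trace = 0 := by rw [map_zero, Matrix.trace_zero]
    have hm : (e₁ 0).trace ∈ T := by rw [h0]; exact T.zero_mem
    refine ⟨hm, ?_⟩
    have e : (⟨(e₁ 0).trace, hm⟩ : T) = 0 := Subtype.ext h0
    rw [e, map_zero, map_zero]
    simp
  | add x y hx hy =>
    obtain ⟨hx1, hx2⟩ := hx
    obtain ⟨hy1, hy2⟩ := hy
    have h0 : (e₁ (x + y)).trace = (e₁ x).trace + (e₁ y).trace := by rw [map_add, Matrix.trace_add]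
    have hm : (e₁ (x + y)).trace ∈ T := by
      rw [h0]; exact T.add_mem hx1 hy1
    refine ⟨hm, ?_⟩
    have e : (⟨(e₁ (x + y)).trace, hm⟩ : T) = ⟨_, hx1⟩ + ⟨_, hy1⟩ := Subtype.ext h0
    rw [e, map_add, hx2, hy2, map_add, ← Finset.sum_add_distrib]
    refine Finset.sum_congr rfl fun i _ => ?_
    rw [Pi.add_apply, Matrix.trace_add]
  | single g t =>
    have ht : (e₁ (MonoidAlgebra.single g t)).trace = (t : K → O) * (fun κ => (r κ g).trace) := by
      rw [he₁, Matrix.trace_smul, smul_eq_mul]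
      congr 1
      funext κ
      simp only [Matrix.trace, Matrix.diag, Finset.sum_apply]
      rfl
    have hm : (e₁ (MonoidAlgebra.single g t)).trace ∈ T := by
      rw [ht]; exact T.mul_mem t.2 (H.tr g)
    refine ⟨hm, ?_⟩
    have e : (⟨(e₁ (MonoidAlgebra.single g t)).trace, hm⟩ : T) = t * ⟨_, H.tr g⟩ := Subtype.ext ht
    rw [e, map_mul, H.tr_eq g (H.tr g), map_sum, Finset.mul_sum]
    refine Finset.sum_congr rfl fun i _ => ?_
    rw [he₂, Pi.smul_apply, Matrix.trace_smul, smul_eq_mul]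
    congr 1
    simp only [rb, red, Matrix.trace, Matrix.diag, map_sum]
    rfl

/-- the second map is determined by the first one -/
theorem ker_e (H : Hyp n ρ r T φ) (he₁ : ∀ g (t : T), e₁ (MonoidAlgebra.single g t) = (t : K → O) • fam r g)
    (he₂ : ∀ g (t : T), e₂ (MonoidAlgebra.single g t) = φ t • rb n ρ g) (c : MonoidAlgebra T G) (hc : e₁ c = 0) :
    e₂ c = 0 := by
  have hspan := span_rb n ρ H.span
  have h2 : ∀ w : (∀ i, Matrix (Fin (d i)) (Fin (d i)) (Rn O n)), ∑ i, (e₂ c i * w i).trace = 0 := by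
    intro w
    have hw : w ∈ Submodule.span O (Set.range (rb n ρ)) := by rw [hspan]; trivial
    induction hw using Submodule.span_induction with
    | mem w hw =>
      obtain ⟨g, rfl⟩ := hw
      obtain ⟨h3, h4⟩ := trace_e H he₁ he₂ (c * MonoidAlgebra.single g 1)
      have h0 : (e₁ (c * MonoidAlgebra.single g 1)).trace = 0 := by rw [map_mul, hc, zero_mul, Matrix.trace_zero]
      have e : (⟨_, h3⟩ : T) = 0 := Subtype.ext h0
      rw [e, map_zero, map_mul, he₂, map_one, one_smul] at h4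
      exact h4.symm
    | zero => simp
    | add x y _ _ hx hy =>
      simp only [Pi.add_apply, Matrix.mul_add, Matrix.trace_add, Finset.sum_add_distrib, hx, hy, add_zero]
    | smul a y _ hy =>
      simp only [Pi.smul_apply, Matrix.mul_smul, Matrix.trace_smul, ← Finset.smul_sum, hy, smul_zero]
  funext i
  ext p q
  have h3 := h2 (Pi.single i (Matrix.single q p 1))
  rw [Finset.sum_eq_single i] at h3
  · rw [Pi.single_eq_same, Matrix.trace_mul_comm, Matrix.trace_single_mul, one_smul] at h3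
    exact h3
  · intro j _ hj
    rw [Pi.single_eq_of_ne hj, Matrix.mul_zero, Matrix.trace_zero]
  · intro h; exact absurd (Finset.mem_univ _) h

/-- the elements of the kernel are nilpotent modulo the maximal ideal -/
theorem nil_e (h1 : S_NIL) (H : Hyp n ρ r T φ)
    (he₁ : ∀ g (t : T), e₁ (MonoidAlgebra.single g t) = (t : K → O) • fam r g)
    (he₂ : ∀ g (t : T), e₂ (MonoidAlgebra.single g t) = φ t • rb n ρ g) (c : MonoidAlgebra T G) (hc : e₂ c = 0)
    (κ : K) (p q : Σ i, Fin (d i)) : ((e₁ c) ^ (Fintype.card (Σ i, Fin (d i)))) p q κ ∈ maximalIdeal O := by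
  have hnm : maximalIdeal O ^ n ≤ maximalIdeal O := Ideal.pow_le_self H.pos_n
  obtain ⟨pn, hpn⟩ : ∃ pn : Rn O n →+* ResidueField O, ∀ o : O, pn (Ideal.Quotient.mk _ o) = residue O o :=
    ⟨Ideal.Quotient.factor hnm, fun o => rfl⟩
  have hres : ∀ t : T, pn (φ t) = residue O ((t : K → O) κ) := by
    intro t
    obtain ⟨o, ho⟩ := Ideal.Quotient.mk_surjective (φ t)
    have h2 : φ (t - algebraMap O T o) = 0 := by
      rw [map_sub, φ.commutes, ← ho]
      exact sub_self _
    have h3 := H.loc _ h2 κ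
    rw [← ho, hpn]
    symm
    rw [← sub_eq_zero, ← map_sub, residue_eq_zero_iff]
    exact h3
  have hs₂ := sum_e2 he₂ c
  have hs₁ := sum_e1 he₁ c
  -- the reduction at `κ`
  obtain ⟨ev, hev⟩ : ∃ ev : Matrix (Σ i, Fin (d i)) (Σ i, Fin (d i)) (K → O) →+*
      Matrix (Σ i, Fin (d i)) (Σ i, Fin (d i)) (ResidueField O), ∀ M p q, ev M p q = residue O (M p q κ) :=
    ⟨RingHom.mapMatrix ((residue O).comp (Pi.evalRingHom (fun _ => O) κ)), fun M p q => rfl⟩
  have hnil := h1 (ResidueField O) G I (Σ i, Fin (d i)) d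
    (fun i => (RingHom.mapMatrix (residue O)).toMonoidHom.comp (ρ i))
    ((RingHom.mapMatrix (residue O)).toMonoidHom.comp (r κ)) (by simp) (by
      intro g
      have h2 := hres ⟨_, H.tr g⟩
      rw [H.tr_eq g (H.tr g), hpn] at h2
      have h3 : ∀ {X : Type} [Fintype X] (M : Matrix X X O), (M.map (residue O)).trace = residue O M.trace := by
        intro X _ M
        simp [Matrix.trace]
      show ((r κ g).map (residue O)).trace = ∑ i, ((ρ i g).map (residue O)).trace
      rw [h3, Finset.sum_congr rfl fun i _ => h3 (ρ i g), ← map_sum]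
      exact h2.symm) H.span
    (c.coeff.mapRange (fun t : T => residue O ((t : K → O) κ)) (by simp)) (by
      intro i
      rw [Finsupp.sum_mapRange_index (by intro g; rw [zero_smul])]
      ext a b
      have h2 := congrFun (congrFun (congrFun (hs₂.symm.trans hc) i) a) b
      rw [Finsupp.sum, Finset.sum_apply, Matrix.sum_apply] at h2
      have h3 := congrArg pn h2
      rw [map_sum] at h3
      rw [Finsupp.sum, Matrix.sum_apply]
      refine Eq.trans ?_ (h3.trans (map_zero pn))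
      refine Finset.sum_congr rfl fun g _ => ?_
      show residue O ((c.coeff g : K → O) κ) * residue O (ρ i g a b) =
        pn (φ (c.coeff g) * Ideal.Quotient.mk _ (ρ i g a b))
      rw [map_mul, hres, hpn])
  have he : ((c.coeff.mapRange (fun t : T => residue O ((t : K → O) κ)) (by simp)).sum fun g s =>
      s • ((RingHom.mapMatrix (residue O)).toMonoidHom.comp (r κ)) g) = ev (e₁ c) := by
    rw [Finsupp.sum_mapRange_index (by intro g; rw [zero_smul])]
    ext a b
    rw [hev, hs₁, Finsupp.sum, Finsupp.sum, Matrix.sum_apply, Matrix.sum_apply, Finset.sum_apply, map_sum]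
    refine Finset.sum_congr rfl fun g _ => ?_
    show residue O ((c.coeff g : K → O) κ) * residue O (r κ g a b) = residue O ((c.coeff g : K → O) κ * r κ g a b)
    rw [map_mul]
  rw [he, ← map_pow] at hnil
  rw [← residue_eq_zero_iff, ← hev, hnil]
  rfl

end main

theorem phi (h1 : S_NIL) : S_PHI := by
  classical
  intro O G K I _ _ _ _ _ _ _ _ n d ρ r T φ H
  obtain ⟨e₁, he₁⟩ := ex_e1 (fam r) T
  obtain ⟨e₂, he₂⟩ := ex_e2 n (rb n ρ) T φ
  obtain ⟨Φ, hΦ⟩ := exists_fac (O := O) (R := MonoidAlgebra T G)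
    (M₁ := Matrix (Σ i, Fin (d i)) (Σ i, Fin (d i)) (K → O)) (M₂ := ∀ i, Matrix (Fin (d i)) (Fin (d i)) (Rn O n))
    e₁ e₂ (ker_e H he₁ he₂)
  refine ⟨e₁.range, Φ, ?_, ?_, ?_, ?_, ?_, ?_⟩
  · intro g
    have e : e₁ (MonoidAlgebra.single g 1) = fam r g := by rw [he₁]; exact one_smul _ _
    have hm : fam r g ∈ e₁.range := ⟨_, e⟩
    refine ⟨hm, ?_⟩
    have h2 := hΦ (MonoidAlgebra.single g 1) ⟨_, rfl⟩
    rw [he₂, map_one, one_smul] at h2
    have e3 : (⟨fam r g, hm⟩ : e₁.range) = ⟨e₁ (MonoidAlgebra.single g 1), ⟨_, rfl⟩⟩ := Subtype.ext e.symm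
    rw [e3, h2]
    rfl
  · intro x hx
    obtain ⟨c, hc⟩ := hx
    exact ⟨c.coeff, (sum_e1 he₁ c).symm.trans hc⟩
  · intro t x
    obtain ⟨c, hc⟩ := x.2
    have hx : x = ⟨e₁ c, ⟨c, rfl⟩⟩ := Subtype.ext hc.symm
    have e : e₁ (MonoidAlgebra.single 1 t * c) = (t : K → O) • (x : Matrix (Σ i, Fin (d i)) (Σ i, Fin (d i)) (K → O)) := by
      rw [map_mul, he₁, map_one, smul_mul_assoc, one_mul, hx]
    have hm : (t : K → O) • (x : Matrix (Σ i, Fin (d i)) (Σ i, Fin (d i)) (K → O)) ∈ e₁.range := ⟨_, e⟩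
    refine ⟨hm, ?_⟩
    have e3 : (⟨(t : K → O) • (x : Matrix (Σ i, Fin (d i)) (Σ i, Fin (d i)) (K → O)), hm⟩ : e₁.range) =
      ⟨e₁ (MonoidAlgebra.single 1 t * c), ⟨_, rfl⟩⟩ := Subtype.ext e.symm
    rw [e3, hx, hΦ, hΦ, map_mul, he₂, map_one, smul_mul_assoc, one_mul]
  · have h2 : LinearMap.range Φ.toLinearMap = ⊤ := by
      rw [eq_top_iff, ← span_rb n ρ H.span, Submodule.span_le]
      rintro _ ⟨g, rfl⟩
      refine ⟨⟨e₁ (MonoidAlgebra.single g 1), ⟨_, rfl⟩⟩, ?_⟩
      show Φ _ = _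
      rw [hΦ, he₂, map_one, one_smul]
    rw [LinearMap.range_eq_top] at h2
    exact h2
  · intro x
    obtain ⟨c, hc⟩ := x.2
    have hx : x = ⟨e₁ c, ⟨c, rfl⟩⟩ := Subtype.ext hc.symm
    rw [hx, hΦ]
    exact trace_e H he₁ he₂ c
  · -- the kernel
    intro x hx0
    obtain ⟨c, hc⟩ := x.2
    have hx : x = ⟨e₁ c, ⟨c, rfl⟩⟩ := Subtype.ext hc.symm
    rw [hx, hΦ] at hx0
    obtain ⟨k, hk⟩ := artin_rees (maximalIdeal O) e₁.range
    refine ⟨Fintype.card (Σ i, Fin (d i)) * k, hk _ ?_⟩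
    have e : ((x ^ (Fintype.card (Σ i, Fin (d i)) * k) : e₁.range) : Matrix (Σ i, Fin (d i)) (Σ i, Fin (d i)) (K → O)) =
        (e₁ c ^ Fintype.card (Σ i, Fin (d i))) ^ k := by
      rw [← pow_mul, hx]
      rfl
    rw [e]
    have h5 := pow_mat_mem (maximalIdeal O) (e₁ c ^ Fintype.card (Σ i, Fin (d i)))
      (fun p q κ => nil_e h1 H he₁ he₂ c hx0 κ p q) k
    exact h5

end Pool.Agent.H307.CD
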