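import Mathlib

/-!
# Congruence modules and lengths of Selmer groups, several pieces: definitions and the jobs

`O` is a complete discrete valuation ring, `𝔪` its maximal ideal, `T` a subalgebra of `K → O` for a finite set `K`,
`φ : T → O/𝔪^n` an `O`-algebra homomorphism, `r κ` (`κ ∈ K`) representations of a group `G` on `O ^ X` with
traces in `T`, and `φ(tr r(g)) = ∑ tr ρ_i(g)` modulo `𝔪 ^ n`.
-/

set_option autoImplicit false

namespace Pool.Agent.H499.CD

open Matrix IsLocalRing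

/-- `O / 𝔪 ^ n` -/
abbrev Rn (O : Type) [CommRing O] [IsLocalRing O] (n : ℕ) : Type := O ⧸ (maximalIdeal O ^ n)

section defs

variable {O G : Type} [CommRing O] [IsLocalRing O] [Group G]

/-- the reduction modulo `𝔪 ^ n` of a matrix -/
def red {a b : Type} (n : ℕ) (M : Matrix a b O) : Matrix a b (Rn O n) := M.map (Ideal.Quotient.mk _)

/-- the representation of `G` on `(O/𝔪^n)^a` -/
def modRep {a : Type} [Fintype a] [DecidableEq a] (n : ℕ) (M : G →* Matrix a a O) :
    Representation O G (a → Rn O n) where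
  toFun g :=
    { toFun := fun v => red n (M g) *ᵥ v
      map_add' := fun v w => Matrix.mulVec_add _ v w
      map_smul' := fun c v => Matrix.mulVec_smul _ c v }
  map_one' := by
    have h : red n (1 : Matrix a a O) = 1 := Matrix.map_one _ (map_zero _) (map_one _)
    refine LinearMap.ext fun v => ?_
    show red n (M 1) *ᵥ v = v
    rw [map_one, h, Matrix.one_mulVec]
  map_mul' g h := by
    have h' : red n (M g * M h) = red n (M g) * red n (M h) := Matrix.map_mul
    refine LinearMap.ext fun v => ?_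
    show red n (M (g * h)) *ᵥ v = red n (M g) *ᵥ (red n (M h) *ᵥ v)
    rw [map_mul, h', Matrix.mulVec_mulVec]

/-- the matrix cocycles of the extensions `0 → ρ → U → τ → 0` modulo `𝔪 ^ n`: the matrices `(ρ c; 0 τ)` form a
representation; this is `Z¹(G, Hom(τ, ρ) ⊗ O/𝔪^n)` -/
def Coc {a b : Type} [Fintype a] [Fintype b] [DecidableEq a] [DecidableEq b] (n : ℕ) (τ : G →* Matrix b b O)
    (ρ : G →* Matrix a a O) : Submodule O (G → Matrix a b (Rn O n)) where
  carrier := {c | ∀ g h, c (g * h) = red n (ρ g) * c h + c g * red n (τ h)}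
  add_mem' := by
    intro c c' h h' x y
    rw [Pi.add_apply, Pi.add_apply, Pi.add_apply, h, h', Matrix.mul_add, Matrix.add_mul]
    abel
  zero_mem' := by
    intro x y
    rw [Pi.zero_apply, Pi.zero_apply, Pi.zero_apply, Matrix.mul_zero, Matrix.zero_mul, add_zero]
  smul_mem' := by
    intro t c h x y
    rw [Pi.smul_apply, Pi.smul_apply, Pi.smul_apply, h, Matrix.mul_smul, Matrix.smul_mul, smul_add]

/-- the coboundaries -/
def Cob {a b : Type} [Fintype a] [Fintype b] [DecidableEq a] [DecidableEq b] (n : ℕ) (τ : G →* Matrix b b O)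
    (ρ : G →* Matrix a a O) : Submodule O (G → Matrix a b (Rn O n)) where
  carrier := {c | ∃ x : Matrix a b (Rn O n), ∀ g, c g = red n (ρ g) * x - x * red n (τ g)}
  add_mem' := by
    rintro c c' ⟨x, h⟩ ⟨x', h'⟩
    refine ⟨x + x', fun g => ?_⟩
    rw [Pi.add_apply, h, h', Matrix.mul_add, Matrix.add_mul]
    abel
  zero_mem' := ⟨0, fun g => by rw [Pi.zero_apply, Matrix.mul_zero, Matrix.zero_mul, sub_zero]⟩
  smul_mem' := by
    rintro t c ⟨x, h⟩
    refine ⟨t • x, fun g => ?_⟩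
    rw [Pi.smul_apply, h, Matrix.mul_smul, Matrix.smul_mul, smul_sub]

/-- the extension given by the cocycle `c`: `G` acts on `(O/𝔪^n)^a × (O/𝔪^n)^b` by `(ρ c; 0 τ)` -/
def extRep {a b : Type} [Fintype a] [Fintype b] [DecidableEq a] [DecidableEq b] (n : ℕ) (τ : G →* Matrix b b O)
    (ρ : G →* Matrix a a O) (c : Coc n τ ρ) : Representation O G ((a → Rn O n) × (b → Rn O n)) where
  toFun g :=
    { toFun := fun v => (red n (ρ g) *ᵥ v.1 + (c : G → Matrix a b (Rn O n)) g *ᵥ v.2, red n (τ g) *ᵥ v.2)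
      map_add' := fun v w => by
        rw [Prod.fst_add, Prod.snd_add, Matrix.mulVec_add, Matrix.mulVec_add, Matrix.mulVec_add, Prod.mk_add_mk]
        congr 1
        abel
      map_smul' := fun t v => by
        rw [Prod.smul_fst, Prod.smul_snd, Matrix.mulVec_smul, Matrix.mulVec_smul, Matrix.mulVec_smul,
          RingHom.id_apply, Prod.smul_mk, smul_add] }
  map_one' := by
    have h : red n (1 : Matrix a a O) = 1 := Matrix.map_one _ (map_zero _) (map_one _)
    have h' : red n (1 : Matrix b b O) = 1 := Matrix.map_one _ (map_zero _) (map_one _)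
    have hc : (c : G → Matrix a b (Rn O n)) 1 = 0 := by
      have h1 := c.2 1 1
      rw [mul_one, map_one, map_one, h, h', Matrix.one_mul, Matrix.mul_one] at h1
      exact left_eq_add.1 h1
    refine LinearMap.ext fun v => ?_
    show (red n (ρ 1) *ᵥ v.1 + (c : G → Matrix a b (Rn O n)) 1 *ᵥ v.2, red n (τ 1) *ᵥ v.2) = v
    rw [hc, map_one, map_one, h, h', Matrix.one_mulVec, Matrix.zero_mulVec, Matrix.one_mulVec, add_zero]
  map_mul' g h := by
    have h1 : red n (ρ g * ρ h) = red n (ρ g) * red n (ρ h) := Matrix.map_mul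
    have h2 : red n (τ g * τ h) = red n (τ g) * red n (τ h) := Matrix.map_mul
    refine LinearMap.ext fun v => ?_
    show (red n (ρ (g * h)) *ᵥ v.1 + (c : G → Matrix a b (Rn O n)) (g * h) *ᵥ v.2, red n (τ (g * h)) *ᵥ v.2) =
      (red n (ρ g) *ᵥ (red n (ρ h) *ᵥ v.1 + (c : G → Matrix a b (Rn O n)) h *ᵥ v.2) +
        (c : G → Matrix a b (Rn O n)) g *ᵥ (red n (τ h) *ᵥ v.2), red n (τ g) *ᵥ (red n (τ h) *ᵥ v.2))
    rw [c.2 g h, map_mul, map_mul, h1, h2, Matrix.mulVec_add, Matrix.add_mulVec, Matrix.mulVec_mulVec,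
      Matrix.mulVec_mulVec, Matrix.mulVec_mulVec, Matrix.mulVec_mulVec, add_assoc]

/-- a property of representations of `G` on `O`-modules -/
abbrev Cls (O G : Type) [CommRing O] [Group G] : Type 1 :=
  ∀ (V : Type) [AddCommGroup V] [Module O V], Representation O G V → Prop

/-- a class of representations of `G` on `O`-modules which is closed under subrepresentations, quotients and finite
direct sums -/
structure Closed (P : Cls O G) : Prop where
  sub : ∀ (V W : Type) [AddCommGroup V] [Module O V] [AddCommGroup W] [Module O W] (ρ : Representation O G V)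
    (τ : Representation O G W) (f : V →ₗ[O] W), (∀ g v, f (ρ g v) = τ g (f v)) → Function.Injective f →
    P W τ → P V ρ
  quot : ∀ (V W : Type) [AddCommGroup V] [Module O V] [AddCommGroup W] [Module O W] (ρ : Representation O G V)
    (τ : Representation O G W) (f : V →ₗ[O] W), (∀ g v, f (ρ g v) = τ g (f v)) → Function.Surjective f →
    P V ρ → P W τ
  sum : ∀ (ι : Type) [Fintype ι] (V : ι → Type) [∀ i, AddCommGroup (V i)] [∀ i, Module O (V i)]
    (ρ : ∀ i, Representation O G (V i)) (τ : Representation O G (∀ i, V i)), (∀ g v i, τ g v i = ρ i g (v i)) →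
    (∀ i, P (V i) (ρ i)) → P (∀ i, V i) τ

end defs

/-! ### The abstract GMA -/

section gma

variable {O K I : Type} [CommRing O] [IsLocalRing O]

/-- a family of submodules `a i j` of `K → O` (the entries of a generalised matrix algebra over `T`) -/
structure GMA {n : ℕ} (T : Subalgebra O (K → O)) (φ : T →ₐ[O] Rn O n) (a : I → I → Submodule O (K → O)) : Prop where
  diag : ∀ i x, x ∈ a i i ↔ x ∈ T
  mul : ∀ i j l x y, x ∈ a i j → y ∈ a j l → x * y ∈ a i l
  ker : ∀ i j, i ≠ j → ∀ x y (h : x * y ∈ T), x ∈ a i j → y ∈ a j i → φ ⟨x * y, h⟩ = 0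
  ne : ∀ i j κ, ∃ x ∈ a i j, x κ ≠ 0

/-- the linear maps `a i j → O/𝔪^n` which are zero on the products `(a i l)(a l j)`, `l ≠ i, j`, and on `ker φ · a i j` -/
def Wm {n : ℕ} (T : Subalgebra O (K → O)) (φ : T →ₐ[O] Rn O n) (a : I → I → Submodule O (K → O)) (i j : I) :
    Submodule O (a i j →ₗ[O] Rn O n) where
  carrier := {h | (∀ l, l ≠ i → l ≠ j → ∀ u ∈ a i l, ∀ v ∈ a l j, ∀ y : a i j, (y : K → O) = u * v → h y = 0) ∧
    (∀ t : T, φ t = 0 → ∀ y y' : a i j, (y' : K → O) = (t : K → O) * (y : K → O) → h y' = 0)}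
  add_mem' := by
    rintro h h' ⟨h1, h2⟩ ⟨h3, h4⟩
    refine ⟨fun l hl hl' u hu v hv y hy => ?_, fun t ht y y' hy => ?_⟩
    · rw [LinearMap.add_apply, h1 l hl hl' u hu v hv y hy, h3 l hl hl' u hu v hv y hy, add_zero]
    · rw [LinearMap.add_apply, h2 t ht y y' hy, h4 t ht y y' hy, add_zero]
  zero_mem' := ⟨fun _ _ _ _ _ _ _ _ _ => rfl, fun _ _ _ _ _ => rfl⟩
  smul_mem' := by
    rintro c h ⟨h1, h2⟩
    refine ⟨fun l hl hl' u hu v hv y hy => ?_, fun t ht y y' hy => ?_⟩
    · rw [LinearMap.smul_apply, h1 l hl hl' u hu v hv y hy, smul_zero]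
    · rw [LinearMap.smul_apply, h2 t ht y y' hy, smul_zero]

/-- the linear maps `N → O/𝔪^n` which are zero on `M` -/
def Van (n : ℕ) (N M : Submodule O (K → O)) : Submodule O (N →ₗ[O] Rn O n) where
  carrier := {h | ∀ x : N, (x : K → O) ∈ M → h x = 0}
  add_mem' := fun h1 h2 x hx => by rw [LinearMap.add_apply, h1 x hx, h2 x hx, add_zero]
  zero_mem' := fun _ _ => rfl
  smul_mem' := fun c h h1 x hx => by rw [LinearMap.smul_apply, h1 x hx, smul_zero]

end gma

/-! ### Representations -/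

section rep

variable {O G K I : Type} [CommRing O] [IsLocalRing O] [Group G]

/-- `r` is irreducible over the field of fractions of `O` -/
def Irr {X : Type} [Fintype X] [DecidableEq X] (r : G →* Matrix X X O) : Prop :=
  ∀ W : Submodule (FractionRing O) (X → FractionRing O),
    (∀ g, ∀ w ∈ W, (r g).map (algebraMap O (FractionRing O)) *ᵥ w ∈ W) → W = ⊥ ∨ W = ⊤

/-- the family `(r κ)` as a representation on the free module of rank `X` over `K → O` -/
def fam {X : Type} [Fintype X] [DecidableEq X] (r : K → G →* Matrix X X O) : G →* Matrix X X (K → O) where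
  toFun g := Matrix.of fun x y κ => r κ g x y
  map_one' := by
    ext x y κ
    show r κ 1 x y = (1 : Matrix X X (K → O)) x y κ
    rw [map_one, Matrix.one_apply, Matrix.one_apply]
    split_ifs <;> rfl
  map_mul' g h := by
    ext x y κ
    show r κ (g * h) x y = ((Matrix.of fun x y κ => r κ g x y) * (Matrix.of fun x y κ => r κ h x y) :
      Matrix X X (K → O)) x y κ
    rw [map_mul, Matrix.mul_apply, Matrix.mul_apply, Finset.sum_apply]
    rfl

/-- the hypotheses, after localisation -/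
structure Hyp [Fintype I] [DecidableEq I] (n : ℕ) {d : I → ℕ} (ρ : ∀ i, G →* Matrix (Fin (d i)) (Fin (d i)) O)
    (r : K → G →* Matrix (Σ i, Fin (d i)) (Σ i, Fin (d i)) O) (T : Subalgebra O (K → O)) (φ : T →ₐ[O] Rn O n) :
    Prop where
  pos_n : n ≠ 0
  pos : ∀ i, 0 < d i
  span : Submodule.span (ResidueField O) (Set.range fun (g : G) i => (ρ i g).map (residue O)) = ⊤
  irr : ∀ κ, Irr (r κ)
  tr : ∀ g, (fun κ => (r κ g).trace) ∈ T
  tr_eq : ∀ g (h : (fun κ => (r κ g).trace) ∈ T), φ ⟨_, h⟩ = Ideal.Quotient.mk _ (∑ i, (ρ i g).trace)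
  loc : ∀ t : T, φ t = 0 → ∀ κ, (t : K → O) κ ∈ maximalIdeal O

/-- `R` has its entries in the GMA, the diagonal blocks are the `ρ i`, and it generates the GMA -/
structure GRep [Fintype I] [DecidableEq I] {n : ℕ} {d : I → ℕ} (ρ : ∀ i, G →* Matrix (Fin (d i)) (Fin (d i)) O)
    (R : G →* Matrix (Σ i, Fin (d i)) (Σ i, Fin (d i)) (K → O)) (T : Subalgebra O (K → O)) (φ : T →ₐ[O] Rn O n)
    (a : I → I → Submodule O (K → O)) : Prop where
  mem : ∀ g x y, R g x y ∈ a x.1 y.1
  diag : ∀ g i p q (h : R g ⟨i, p⟩ ⟨i, q⟩ ∈ T), φ ⟨_, h⟩ = Ideal.Quotient.mk _ (ρ i g p q)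
  span : ∀ x y, ∀ t ∈ a x.1 y.1, ∃ c : G →₀ T, (c.sum fun g s => (s : K → O) • R g) = Matrix.single x y t

end rep

/-! ### The jobs -/

/-- NIL. Let `ρ_i : G → M_{d_i}(k)` be such that the tuples `(ρ_i(g))_i` span `∏ M_{d_i}(k)`, and let
`r : G → M_X(k)`, `|X| = ∑ d_i`, have the trace `∑ tr ρ_i`. If `∑ c_g ρ_i(g) = 0` for all `i`, then
`y = ∑ c_g r(g)` is nilpotent.

Proof (any characteristic). Pass to an infinite extension `k'` of `k` (for example `RatFunc k` or `AlgebraicClosure k`),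
matrices over `k` map to matrices over `k'`, the spans stay everything. Choose distinct `λ_x ∈ k'`, `x ∈ Σ i, Fin (d i)`,
and `u = ∑ u_g [g] ∈ k'[G]` with `ρ_i(u) = diag(λ_{(i, ·)})` for all `i`. For `ε ∈ k'` let `w = r(u) + ε y`. For every
polynomial `q ∈ k'[X]` we have `tr q(w) = ∑_i tr q(ρ_i(u + ε c)) = ∑_x q(λ_x)` (first for the monomials, because
`w^m = r((u + ε c)^m)` and `tr r(z) = ∑ tr ρ_i(z)` for `z ∈ k'[G]`, `ρ_i(c) = 0`). Take `q = χ_w h`, `χ_w` the characteristic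
polynomial of `w`: `0 = ∑_x χ_w(λ_x) h(λ_x)` for all `h`, so `χ_w(λ_x) = 0` for all `x` (Lagrange interpolation), and
`χ_w = ∏_x (X - λ_x)`, both being monic of degree `|X|`. Hence for `ε ≠ 0`, `charpoly (y + ε r(u)) = ∏_x (X - ε λ_x)`; the
coefficients of both sides are polynomials in `ε`, and `k'` is infinite, so it holds for `ε = 0`: `charpoly y = X^|X|`,
and `y^|X| = 0` by Cayley-Hamilton. -/
def S_NIL : Prop := ∀ (k G I X : Type) [Field k] [Group G] [Fintype I] [DecidableEq I] [Fintype X] [DecidableEq X]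
  (d : I → ℕ) (ρ : ∀ i, G →* Matrix (Fin (d i)) (Fin (d i)) k) (r : G →* Matrix X X k),
  Fintype.card X = ∑ i, d i → (∀ g, (r g).trace = ∑ i, (ρ i g).trace) →
  Submodule.span k (Set.range fun (g : G) i => ρ i g) = ⊤ →
  ∀ c : G →₀ k, (∀ i, (c.sum fun g s => s • ρ i g) = 0) → (c.sum fun g s => s • r g) ^ Fintype.card X = 0

/-- BURN. Absolutely irreducible representations with pairwise different traces are jointly everything.

Proof. Let `B` be the `k`-span of the tuples `(ρ_i(g))_i` in `∏ M_{d_i}(k)`, a subalgebra. It surjects onto every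
`M_{d_i}(k)`; the kernel `𝔫_i` is a maximal two sided ideal of `B` (matrix rings over fields are simple). If
`𝔫_i = 𝔫_j` with `i ≠ j`, then `M_{d_i}(k)` and `M_{d_j}(k)` are both `B/𝔫_i`, so there is an isomorphism of algebras
between them taking `ρ_i(g)` to `ρ_j(g)`; it preserves the trace (Skolem-Noether, or: the reduced trace), a contradiction.
So `𝔫_i + 𝔫_j = B`, and `B → ∏ B/𝔫_i` is surjective by the Chinese remainder argument (for every `i` there is an element
of `B` with component `1` at `i` and `0` at the other `j`: multiply elements `x_{ij} ∈ 𝔫_j` with `x_{ij} - 1 ∈ 𝔫_i`). -/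
def S_BURN : Prop := ∀ (k G I : Type) [Field k] [Group G] [Fintype I] [DecidableEq I]
  (d : I → ℕ) (ρ : ∀ i, G →* Matrix (Fin (d i)) (Fin (d i)) k), (∀ i, 0 < d i) →
  (∀ i, Submodule.span k (Set.range (ρ i)) = ⊤) → (∀ i j, i ≠ j → ∃ g, (ρ i g).trace ≠ (ρ j g).trace) →
  Submodule.span k (Set.range fun (g : G) i => ρ i g) = ⊤

/-- LIFT. Lifting of matrix units to a finite algebra `A` over a complete local ring, modulo an ideal whose elements
have a power in `𝔪 A`.

Proof. `A` is complete and separated for the `𝔪`-adic filtration (finite over the complete Noetherian ring `O`). Let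
`J = ker f`. (a) `1 - y` is a unit for `y ∈ 𝔪 A` (Nakayama, or the geometric series), so `1 - x` is a unit for `x ∈ J`
(`1 - x^M = (1 - x)(1 + x + ... + x^(M-1))`). An idempotent in `J` is zero (it is in all `𝔪^k A`). (b) Idempotents of
`f(A)` lift: let `x ∈ A` with `x^2 - x ∈ J`; then `(x^2 - x)^M ∈ 𝔪 A`, so modulo `𝔪 A` the class of a polynomial in `x`
is an idempotent with the same image (nilpotent lifting, Mathlib has it), and from `e^2 - e ∈ 𝔪^k A` one gets
`e' = 3e^2 - 2e^3` with `e'^2 - e' ∈ 𝔪^(2k) A`, `e' - e ∈ 𝔪^k A`; the limit is an idempotent. All corrections are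
multiples of `x^2 - x`, respectively of `e^2 - e`, so that they stay in `J` (`J` is closed, or: see that the corrections
are in `J` as `f` of them is zero; in the limit `f(lim)`: `J` is an `O`-submodule of the finite module `A`, hence closed
by the Krull intersection theorem in `A/J`; if `R`-linearity of `f` is missing use that `J` is a two sided ideal, so an
`O`-submodule). (c) A complete system of orthogonal idempotents lifts (one after the other, in the corner rings
`(1 - e) A (1 - e)`; the last one is `1 - ` the sum of the others, because the difference is an idempotent in `J`). (d) For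
every `i` and `a` let `e_a` be the lift of the unit `E i a a`, choose `u_a ∈ e_0 A e_a`, `v_a ∈ e_a A e_0` lifting
`E i 0 a`, `E i a 0`. Then `u_a v_a = e_0 - z`, `z ∈ J ∩ e_0 A e_0`; replace `u_a` by `e_0 (1 - z)⁻¹ u_a`, so that
`u_a v_a = e_0`. Then `v_a u_a ∈ e_a A e_a` is an idempotent and `e_a - v_a u_a` is an idempotent in `J`, hence zero. Put
`E i a b = v_a u_b` (with `u_0 = v_0 = e_0`). -/
def S_LIFT : Prop := ∀ (O A R I : Type) [CommRing O] [IsLocalRing O] [IsNoetherianRing O]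
  [IsAdicComplete (maximalIdeal O) O] [Ring A] [Algebra O A] [Module.Finite O A] [CommRing R] [Fintype I]
  [DecidableEq I] (d : I → ℕ) (f : A →+* (∀ i, Matrix (Fin (d i)) (Fin (d i)) R)), Function.Surjective f →
  (∀ x, f x = 0 → ∃ M : ℕ, x ^ M ∈ (maximalIdeal O) • (⊤ : Submodule O A)) →
  ∃ E : ∀ i, Fin (d i) → Fin (d i) → A, (∀ i a b, f (E i a b) = Pi.single i (Matrix.single a b 1)) ∧
    (∀ i a b c, E i a b * E i b c = E i a c) ∧ (∀ i a b c e, b ≠ c → E i a b * E i c e = 0) ∧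
    (∀ i j, i ≠ j → ∀ a b c e, E i a b * E j c e = 0) ∧ ∑ i, ∑ a, E i a a = 1

/-- STD. A system of nonzero matrix units of the right size over a local principal ideal domain is conjugate to the
standard one.

Proof. Let `V = X → O`. `V` is the direct sum of the images of the idempotents `E i a a`; every image is a nonzero
submodule of a free module over a principal ideal domain, so it is free of rank `≥ 1`; the number of summands is `|X|`,
the rank of `V`, so all have rank `1`. Let `v_i` be a basis of the image of `E i 0 0` (there is `0 : Fin (d i)` if there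
is an element at all) and `v_{(i, a)} = E i a 0 *ᵥ v_i`. This is a basis of the image of `E i a a` (`E i a 0` and `E i 0 a` are
mutually inverse between the images). Let `Q` be the matrix with the columns `v_x`; it is invertible with inverse `P`,
and `E i a b *ᵥ v_{(j, c)} = v_{(i, a)}` if `(j, c) = (i, b)` and `0` otherwise. -/
def S_STD : Prop := ∀ (O I : Type) [CommRing O] [IsDomain O] [IsPrincipalIdealRing O] [IsLocalRing O] [Fintype I]
  [DecidableEq I] (d : I → ℕ)
  (E : ∀ i, Fin (d i) → Fin (d i) → Matrix (Σ i, Fin (d i)) (Σ i, Fin (d i)) O),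
  (∀ i a b c, E i a b * E i b c = E i a c) → (∀ i a b c e, b ≠ c → E i a b * E i c e = 0) →
  (∀ i j, i ≠ j → ∀ a b c e, E i a b * E j c e = 0) → ∑ i, ∑ a, E i a a = 1 → (∀ i a, E i a a ≠ 0) →
  ∃ P Q : Matrix (Σ i, Fin (d i)) (Σ i, Fin (d i)) O, P * Q = 1 ∧ Q * P = 1 ∧
    ∀ i a b, P * E i a b * Q = Matrix.single ⟨i, a⟩ ⟨i, b⟩ 1

/-- PHI. The algebra `A`, the `T`-span of the `r(g)`, and the homomorphism `Φ` to `∏ M_{d_i}(O/𝔪^n)`.

Proof. `A` is the `T`-span of the matrices `fam r g`; it is a subalgebra. For `x = ∑ t_g fam r g` put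
`Φ(x) = (∑ φ(t_g) ρ_i(g))_i`. Well defined: if `x = 0` then `tr(x r(h)) = 0`, so with `z_i = ∑ φ(t_g) ρ_i(g)` we have
`∑_i tr(z_i ρ_i(h)) = φ(tr(x r(h))) = 0` for all `h`; the tuples `(ρ_i(h))_i` span `∏ M_{d_i}(O/𝔪^n)` over `O` (hypothesis
`span` and Nakayama's lemma), so `z = 0`. The same shows that `Φ` is surjective. The formula for the trace is clear on
generators. Kernel: let `x = ∑ t_g fam r g`, `Φ(x) = 0`, and `k` the residue field. Let `\bar t_g ∈ k` be the image of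
`φ(t_g)`; by `loc` it is also the image of `t_g κ`, for all `κ` (choose `c ∈ O` with `φ(t_g) = c`; then
`φ(t_g - c) = 0`). Also `tr r_κ(g)` and `∑ tr ρ_i(g)` are congruent modulo `𝔪`. Now `∑ \bar t_g \bar ρ_i(g) = 0`, so `S_NIL`
over `k` says that the reduction of `x_κ` is nilpotent: `(x ^ N)_κ` has entries in `𝔪`, for all `κ`, and `x ^ (N m)` has
entries in `𝔪^m`. By Artin-Rees (`A` is a submodule of the Noetherian module `Matrix X X (K → O)`) it is in `𝔪 A` for
large `m`. -/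
def S_PHI : Prop := ∀ (O G K I : Type) [CommRing O] [IsDomain O] [IsDiscreteValuationRing O]
  [IsAdicComplete (maximalIdeal O) O] [Group G] [Fintype K] [Fintype I] [DecidableEq I] (n : ℕ) (d : I → ℕ)
  (ρ : ∀ i, G →* Matrix (Fin (d i)) (Fin (d i)) O) (r : K → G →* Matrix (Σ i, Fin (d i)) (Σ i, Fin (d i)) O)
  (T : Subalgebra O (K → O)) (φ : T →ₐ[O] Rn O n), Hyp n ρ r T φ →
  ∃ (A : Subalgebra O (Matrix (Σ i, Fin (d i)) (Σ i, Fin (d i)) (K → O)))
    (Φ : A →ₐ[O] (∀ i, Matrix (Fin (d i)) (Fin (d i)) (Rn O n))),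
    (∀ g, ∃ h : fam r g ∈ A, Φ ⟨_, h⟩ = fun i => red n (ρ i g)) ∧
    (∀ x ∈ A, ∃ c : G →₀ T, (c.sum fun g s => (s : K → O) • fam r g) = x) ∧
    (∀ (t : T) (x : A), ∃ h : (t : K → O) • (x : Matrix (Σ i, Fin (d i)) (Σ i, Fin (d i)) (K → O)) ∈ A,
      Φ ⟨_, h⟩ = φ t • Φ x) ∧
    Function.Surjective Φ ∧
    (∀ x : A, ∃ h : (x : Matrix (Σ i, Fin (d i)) (Σ i, Fin (d i)) (K → O)).trace ∈ T,
      φ ⟨_, h⟩ = ∑ i, (Φ x i).trace) ∧
    (∀ x : A, Φ x = 0 → ∃ M : ℕ, x ^ M ∈ (maximalIdeal O) • (⊤ : Submodule O A))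

/-- GMA. Assembly of PHI, LIFT, STD.

Proof. Apply LIFT to `A`, `Φ` (`A` is finite over `O`), `R = O/𝔪^n`. The matrix units `E i a b ∈ A` have components
`(E i a b)_κ`, matrices over `O`, with `tr (E i a a)_κ` congruent to `1` modulo `𝔪` (`tr (E i a a) - 1 ∈ T` has `φ = 0`; then
`loc`), so they are nonzero. STD gives `P κ`, `Q κ`. Let `A' = P A Q` and `Φ'(P x Q) = Φ(x)`; `A'` contains the
standard units `e_{(i,a),(i,b)}`, and `Φ'` of it is the unit `e_{ab}` at `i`. Put
`a i j = {t : t e_{xy} ∈ A'}`, `x` of type `i`, `y` of type `j`; it does not depend on the choice of `x`, `y`, as one can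
multiply with standard units. `a i i = T`: `t e_{xx} ∈ A'` has trace `t`, and `A'` is stable under `T`.
`ker`: `Φ'(t e_{xy}) = 0` if the types are different, because `t e_{xy} = e_{xx} (t e_{xy}) e_{yy}`; so for `t ∈ a i j`,
`s ∈ a j i` we get `φ(ts) e_{aa} = Φ'(ts e_{xx}) = Φ'(t e_{xy}) Φ'(s e_{yx}) = 0`. `ne`: the vectors with entries
`(t κ)_{x}`, `t ∈ a x.1 j`, span a subspace of `Frac(O)^X` which is stable under `P κ * r κ g * Q κ`, and it is not
zero (`a j j ∋ 1`), so it is everything by `irr`. `mem`, `diag`, `span`: `e_{xx} R(g) e_{yy} = R(g)_{xy} e_{xy}`, and so on. -/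
def S_GMA : Prop := ∀ (O G K I : Type) [CommRing O] [IsDomain O] [IsDiscreteValuationRing O]
  [IsAdicComplete (maximalIdeal O) O] [Group G] [Fintype K] [Fintype I] [DecidableEq I] (n : ℕ) (d : I → ℕ)
  (ρ : ∀ i, G →* Matrix (Fin (d i)) (Fin (d i)) O) (r : K → G →* Matrix (Σ i, Fin (d i)) (Σ i, Fin (d i)) O)
  (T : Subalgebra O (K → O)) (φ : T →ₐ[O] Rn O n), Hyp n ρ r T φ →
  ∃ (P Q : K → Matrix (Σ i, Fin (d i)) (Σ i, Fin (d i)) O) (a : I → I → Submodule O (K → O))
    (R : G →* Matrix (Σ i, Fin (d i)) (Σ i, Fin (d i)) (K → O)), (∀ κ, P κ * Q κ = 1) ∧ (∀ κ, Q κ * P κ = 1) ∧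
    (∀ g x y κ, R g x y κ = (P κ * r κ g * Q κ) x y) ∧ GMA T φ a ∧ GRep ρ R T φ a

/-- PERM. The determinant of a matrix with entries in a GMA.

Proof. `det D = ∑_σ sign σ ∏_p D (σ p) p`. Claim: for a permutation `σ` of a finite set `Y` with types `t : Y → J` and
elements `y_p ∈ b (t (σ p)) (t p)` the product `∏ y_p` is in `T`, and `φ` of it is `0` if `t (σ p) ≠ t p` for some `p`. Induction
on `|Y|` (or a product over the cycles of `σ`, rotated so that the first step changes the type): if `σ p ≠ p` remove the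
point `p` and replace the two factors `y_p`, `y_{σ⁻¹ p}` by their product, in `b (t (σ p)) (t p) b (t p) (t (σ⁻¹ p))`;
keep as induction hypothesis the stronger claim: the product has `φ = 0` if `t (σ p) ≠ t p` for some `p` or if
`y_p ∈ ker φ` for some `p` with `t (σ p) = t p`. So `det D ∈ T` and `φ(det D)` is the sum over the `σ` which preserve
the types, which is `det D'`. -/
def S_PERM : Prop := ∀ (O C R Y J : Type) [CommRing O] [CommRing C] [CommRing R] [Algebra O C] [Algebra O R]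
  [Fintype Y] [DecidableEq Y] (T : Subalgebra O C) (φ : T →ₐ[O] R) (b : J → J → Set C) (t : Y → J)
  (D : Matrix Y Y C) (D' : Matrix Y Y R), (∀ j x, x ∈ b j j ↔ x ∈ T) →
  (∀ i j l x y, x ∈ b i j → y ∈ b j l → x * y ∈ b i l) →
  (∀ i j, i ≠ j → ∀ x y (h : x * y ∈ T), x ∈ b i j → y ∈ b j i → φ ⟨x * y, h⟩ = 0) →
  (∀ p q, D p q ∈ b (t p) (t q)) → (∀ p q (h : D p q ∈ T), t p = t q → φ ⟨D p q, h⟩ = D' p q) →
  (∀ p q, t p ≠ t q → D' p q = 0) → ∃ h : D.det ∈ T, φ ⟨D.det, h⟩ = D'.det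

/-- SMITH. Proof. `N` is a free `O`-module of finite rank (submodule of `K → O`), `M` has full rank in it. Smith normal form
(Mathlib: `Submodule.smithNormalForm` and so on): a basis `y p` of `N` and `c p ∈ O` such that the `c p • y p` are a basis
of `M`; `c p` divides `ϖ ^ n`, so we may take `c p = ϖ ^ e p`, `e p ≤ n`. The functionals `h : N → O/𝔪^n` with `h(M) = 0`
are given by the `h (y p) ∈ O/𝔪^n` killed by `ϖ ^ e p`, and the submodule of `O/𝔪^n` killed by `ϖ ^ e`, `e ≤ n`, is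
generated by `ϖ ^ (n - e)` and isomorphic to `O/𝔪^e`, of length `e`. -/
def S_SMITH : Prop := ∀ (O K : Type) [CommRing O] [IsDomain O] [IsDiscreteValuationRing O] [Fintype K] (n : ℕ) (ϖ : O)
  (N M : Submodule O (K → O)), Irreducible ϖ → M ≤ N → (∀ x ∈ N, ϖ ^ n • x ∈ M) →
  ∃ (m : ℕ) (y : Fin m → K → O) (e : Fin m → ℕ), (∀ p, y p ∈ N) ∧ N ≤ Submodule.span O (Set.range y) ∧
    (∀ p, ϖ ^ e p • y p ∈ M) ∧ ((∑ p, e p : ℕ) : ℕ∞) ≤ Module.length O (Van n N M)

/-- LEN. Assembly of PERM and SMITH.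

Proof. For `i ∈ 𝒮`, `j ∉ 𝒮` let `N = a i j` and `M = ∑_{l ≠ i, j} (a i l)(a l j) + (ker φ)(a i j) ≤ N`, so that
`Wm T φ a i j = Van n N M`; note `ϖ ^ n ∈ ker φ`. SMITH gives `y_{ij,p}` generating `a i j` and `e_{ij,p}` with
`ϖ ^ e_{ij,p} y_{ij,p} ∈ M`. Expand: `(a i l)(a l j) = ∑_q y_{il,q} (a l j)` if `l ∉ 𝒮` and `= ∑_q (a i l) y_{lj,q}` if
`l ∈ 𝒮`, and `(ker φ)(a i j) = ∑_q (ker φ) y_{ij,q}` (here `(ker φ)` is an `O`-module). So there are `β`, with
`β_{(ij,p),(i'j',q)} = 0` unless `i = i'` or `j = j'`, in `a j' j` if `i = i'`, `j ≠ j'`, in `a i i'` if `j = j'`, `i ≠ i'`,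
in `ker φ` if both, with `ϖ ^ e_{ij,p} y_{ij,p} = ∑ β_{(ij,p),(i'j',q)} y_{i'j',q}`. The matrix `D = diag(ϖ ^ e) - β` over
`K → O`, indexed by the `(ij,p)`, kills the vector `y`, and `y κ ≠ 0` for every `κ` (`ne`), so `det D = 0` (`O` is a domain).
PERM with `J = I × I`, `b (i, j) (i', j') = (a i i') * (a j' j)` (product of submodules of the algebra `K → O`),
`D' = diag(ϖ ^ e)` says `φ(det D) = ∏ ϖ ^ e`, so `ϖ ^ (∑ e) ∈ 𝔪 ^ n`, `n ≤ ∑ e`. -/
def S_LEN : Prop := ∀ (O K I : Type) [CommRing O] [IsDomain O] [IsDiscreteValuationRing O] [Fintype K] [Nonempty K]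
  [Fintype I] [DecidableEq I] (n : ℕ) (T : Subalgebra O (K → O)) (φ : T →ₐ[O] Rn O n)
  (a : I → I → Submodule O (K → O)), GMA T φ a → ∀ S : Finset I, S.Nonempty → Sᶜ.Nonempty →
  (n : ℕ∞) ≤ ∑ i ∈ S, ∑ j ∈ Sᶜ, Module.length O (Wm T φ a i j)

/-- EXT. The cocycles `c_h(g) = h(R(g)_{ij})`, `h ∈ Wm T φ a i j`, `i ≠ j`.

Proof. Every `h ∈ Wm` satisfies `h(t y) = φ(t) h(y)` for `t ∈ T` (`t - c ∈ ker φ` for a `c ∈ O`). Apply `h` to
`R(g g')_{(i,p),(j,q)} = ∑ R(g)_{(i,p),(l,s)} R(g')_{(l,s),(j,q)}`: the terms with `l ≠ i, j` give `0`, the others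
`ρ_i(g) c_h(g') + c_h(g) ρ_j(g')`. Injectivity modulo coboundaries: let `c_h(g) = ρ_i(g) x - x ρ_j(g)`, `y ∈ a i j`,
and `∑ t_g R(g) = y e_{(i,p),(j,q)}` (`GRep.span`). Look at the entries: `∑ φ(t_g) ρ_i(g) = 0`, `∑ φ(t_g) ρ_j(g) = 0`,
and `∑ φ(t_g) c_h(g) = h(y) e_{pq}`; so `h(y) = 0`. -/
def S_EXT : Prop := ∀ (O G K I : Type) [CommRing O] [IsLocalRing O] [Group G] [Fintype K] [Fintype I] [DecidableEq I]
  (n : ℕ) (d : I → ℕ) (ρ : ∀ i, G →* Matrix (Fin (d i)) (Fin (d i)) O)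
  (R : G →* Matrix (Σ i, Fin (d i)) (Σ i, Fin (d i)) (K → O)) (T : Subalgebra O (K → O)) (φ : T →ₐ[O] Rn O n)
  (a : I → I → Submodule O (K → O)), (∀ i, 0 < d i) → GMA T φ a → ∀ hR : GRep ρ R T φ a, ∀ i j, i ≠ j →
  ∃ F : Wm T φ a i j →ₗ[O] Coc n (ρ j) (ρ i),
    (∀ h g p q, ((F h : Coc n (ρ j) (ρ i)) : G → Matrix (Fin (d i)) (Fin (d j)) (Rn O n)) g p q =
      (h : a i j →ₗ[O] Rn O n) ⟨R g ⟨i, p⟩ ⟨j, q⟩, hR.mem g ⟨i, p⟩ ⟨j, q⟩⟩) ∧
    ∀ h, ((F h : Coc n (ρ j) (ρ i)) : G → Matrix (Fin (d i)) (Fin (d j)) (Rn O n)) ∈ Cob n (ρ j) (ρ i) → h = 0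

/-- MEM. The extension given by the cocycle `c_h` is a subquotient of a sum of reductions of the `r κ`.

Proof. Let `V = (X → K → O) × (X → K → O)`, `G` acts by `R` on both factors, and let `L ⊂ V` be the pairs `(v, w)` with
`v_x ∈ a x.1 j`, `w_x ∈ a x.1 i`; it is stable. The map
`f(v, w) = ((h(v_{(i,p)}) + φ(w_{(i,p)}))_p, (φ(v_{(j,q)}))_q)` from `L` to `extRep` is `O`-linear, surjective and equivariant
(`h(t y) = φ(t) h(y)` for `t ∈ T`; `GMA.ker` and the definition of `Wm` kill the other terms). Its kernel contains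
`𝔪^n L`, so it contains `L ∩ 𝔪^m V` for a large `m` by Artin-Rees (`V` is a finite module over the Noetherian ring `O`).
So `extRep` is a quotient of the image of `L` in `V / 𝔪^m V`, which is isomorphic to a finite direct sum of copies of
the representations `modRep m (r κ)`: the class of `(v, w)` goes to the reductions of `Q κ (v κ)`, `Q κ (w κ)`. -/
def S_MEM : Prop := ∀ (O G K I : Type) [CommRing O] [IsDomain O] [IsDiscreteValuationRing O] [Group G] [Fintype K]
  [DecidableEq K] [Fintype I] [DecidableEq I] (n : ℕ) (d : I → ℕ) (ρ : ∀ i, G →* Matrix (Fin (d i)) (Fin (d i)) O)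
  (r : K → G →* Matrix (Σ i, Fin (d i)) (Σ i, Fin (d i)) O) (P Q : K → Matrix (Σ i, Fin (d i)) (Σ i, Fin (d i)) O)
  (R : G →* Matrix (Σ i, Fin (d i)) (Σ i, Fin (d i)) (K → O)) (T : Subalgebra O (K → O)) (φ : T →ₐ[O] Rn O n)
  (a : I → I → Submodule O (K → O)), (∀ κ, P κ * Q κ = 1) → (∀ κ, Q κ * P κ = 1) →
  (∀ g x y κ, R g x y κ = (P κ * r κ g * Q κ) x y) → GMA T φ a → ∀ hR : GRep ρ R T φ a, ∀ Pc : Cls O G, Closed Pc →
  (∀ κ m, Pc _ (modRep m (r κ))) → ∀ i j, i ≠ j → ∀ h ∈ Wm T φ a i j, ∀ c : Coc n (ρ j) (ρ i),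
  (∀ g p q, (c : G → Matrix (Fin (d i)) (Fin (d j)) (Rn O n)) g p q =
    h ⟨R g ⟨i, p⟩ ⟨j, q⟩, hR.mem g ⟨i, p⟩ ⟨j, q⟩⟩) → Pc _ (extRep n (ρ j) (ρ i) c)

/-- SEL. The cocycles `c` with `extRep c` in the class form a submodule.

Proof. Sum: the submodule `{((u, v), (u', v))}` of `extRep c × extRep c'` maps onto `extRep (c + c')` by
`(u + u', v)`. Multiples: `extRep (t c)` is the quotient of `extRep c × extRep 0` ..., simpler: if `Pc (extRep c)` then the
subrepresentation `ρ` and the quotient `τ` are in the class, `extRep (t c)` is the quotient of `extRep c × ρ` by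
`((u, v), u') ↦ (t u + u', v)`. If `c'` is a coboundary then `extRep (c + c')` is isomorphic to `extRep c`. -/
def S_SEL : Prop := ∀ (O G a b : Type) [CommRing O] [IsLocalRing O] [Group G] [Fintype a] [Fintype b] [DecidableEq a]
  [DecidableEq b] (n : ℕ) (τ : G →* Matrix b b O) (ρ : G →* Matrix a a O) (Pc : Cls O G), Closed Pc →
  (∀ c c' : Coc n τ ρ, Pc _ (extRep n τ ρ c) → Pc _ (extRep n τ ρ c') → Pc _ (extRep n τ ρ (c + c'))) ∧
  (∀ (t : O) (c : Coc n τ ρ), Pc _ (extRep n τ ρ c) → Pc _ (extRep n τ ρ (t • c))) ∧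
  (∀ c c' : Coc n τ ρ, Pc _ (extRep n τ ρ c) → (c' : G → Matrix a b (Rn O n)) ∈ Cob n τ ρ →
    Pc _ (extRep n τ ρ (c + c')))

/-- RED. Localisation at the kernel of `T → O/𝔪`.

Proof. `K' = {κ : t κ ∈ 𝔪 for all t ∈ T with φ(t) = 0}`, `T'` the image of `T` under the restriction
`res : (K → O) → (K' → O)`. For `κ ∉ K'` there is `x ∈ T` with `φ(x) = 0` and `x κ` a unit; `u_κ = x - (x κ)·1 ∈ T` has
`u_κ κ = 0` and `φ(u_κ)` a unit. Let `u` be the product of the `u_κ`, `κ ∉ K'`: `φ(u)` is a unit and `u` is zero outside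
`K'`. If `t ∈ T` has `res t = 0` then `t u = 0`, so `φ(t) = 0`. So `φ` factors over `T'`. If `K'` is empty then
`u = 0`, a contradiction to `O/𝔪^n ≠ 0`. -/
def S_RED : Prop := ∀ (O K : Type) [CommRing O] [IsLocalRing O] [Fintype K] (n : ℕ) (T : Subalgebra O (K → O))
  (φ : T →ₐ[O] Rn O n), n ≠ 0 → ∃ (s : Finset K) (T' : Subalgebra O (s → O)) (φ' : T' →ₐ[O] Rn O n), s.Nonempty ∧
  (∀ t : T, ∃ h : (fun κ : s => (t : K → O) κ) ∈ T', φ' ⟨_, h⟩ = φ t) ∧
  ∀ t : T', φ' t = 0 → ∀ κ, (t : s → O) κ ∈ maximalIdeal O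

/-- CYC. Proof. `O → T/I` is surjective because `T` is generated by the `x i`, which are congruent to the `c i` modulo `I`.
Let `𝔞` be its kernel, `T/I = O/𝔞`, so `length (O/𝔞) ≥ n`. `𝔞 = 0` or `𝔞 = 𝔪^e` with `e = length (O/𝔞) ≥ n`; so
`𝔞 ≤ 𝔪^n`, and `φ : T → T/I = O/𝔞 → O/𝔪^n`. -/
def S_CYC : Prop := ∀ (O T ι : Type) [CommRing O] [IsDomain O] [IsDiscreteValuationRing O] [CommRing T] [Algebra O T]
  (x : ι → T) (c : ι → O) (n : ℕ), Algebra.adjoin O (Set.range x) = ⊤ →
  (n : ℕ∞) ≤ Module.length O (T ⧸ Ideal.span (Set.range fun i => x i - algebraMap O T (c i))) →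
  ∃ φ : T →ₐ[O] Rn O n, ∀ i, φ (x i) = Ideal.Quotient.mk _ (c i)

/-- CHEB. From a dense set of Frobenius elements to all elements.

Proof. Let `g ∈ G`. For every `m` the elements of `G` which are congruent to `1` modulo `𝔪^m` in all `r κ` and `ρ i` form
an open subgroup, so there is `σ ∈ Fr` with `r κ σ⁻¹` congruent to `r κ g`, `ρ i σ⁻¹` to `ρ i g` modulo `𝔪^m`. So
`tr r(g) ∈ T + 𝔪^m (K → O)` for all `m`, and `tr r(g) ∈ T` by the Krull intersection theorem for the finite module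
`(K → O) / T`. By Artin-Rees `T ∩ 𝔪^m (K → O) ⊂ 𝔪^n T` for large `m ≥ n`, so `φ(tr r(g)) = φ(tr r(σ⁻¹))` for the `σ`
belonging to `m`, and this is `∑ tr ρ_i(σ⁻¹) = ∑ tr ρ_i(g)` modulo `𝔪^n`. -/
def S_CHEB : Prop := ∀ (O G K I X : Type) [CommRing O] [IsDomain O] [IsDiscreteValuationRing O] [Group G]
  [TopologicalSpace G] [IsTopologicalGroup G] [Fintype K] [Fintype I] [Fintype X] [DecidableEq X] (n : ℕ) (d : I → ℕ)
  (ρ : ∀ i, G →* Matrix (Fin (d i)) (Fin (d i)) O) (r : K → G →* Matrix X X O) (Fr : Set G), Dense Fr →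
  (∀ κ m, IsOpen {g | ∀ x y, (r κ g - 1) x y ∈ maximalIdeal O ^ m}) →
  (∀ i m, IsOpen {g | ∀ x y, (ρ i g - 1) x y ∈ maximalIdeal O ^ m}) →
  ∀ (T : Subalgebra O (K → O)) (φ : T →ₐ[O] Rn O n),
  (∀ σ ∈ Fr, ∃ h : (fun κ => (r κ σ⁻¹).trace) ∈ T, φ ⟨_, h⟩ = Ideal.Quotient.mk _ (∑ i, (ρ i σ⁻¹).trace)) →
  ∀ g, ∃ h : (fun κ => (r κ g).trace) ∈ T, φ ⟨_, h⟩ = Ideal.Quotient.mk _ (∑ i, (ρ i g).trace)

end Pool.Agent.H499.CD
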